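import Mathlib

/-!
# Labels of the background edges
-/

set_option autoImplicit false

namespace Pool.Agent.AMX

open Finset

private lemma Bg_inj {p : ℕ} [NeZero p] {lo len : ℕ} (hlen : len ≤ p) {x y : ℕ}
    (hx : x ∈ Finset.Ico lo (lo + len)) (hy : y ∈ Finset.Ico lo (lo + len))
    (h : (x : ZMod p) = (y : ZMod p)) : x = y := by
  rw [Finset.mem_Ico] at hx hy
  have h1 : x ≡ y [MOD p] := (ZMod.natCast_eq_natCast_iff _ _ _).1 h
  refine Nat.ModEq.eq_of_abs_lt h1 ?_
  rw [abs_lt]
  constructor <;> omega

private lemma Bg_fiber {p : ℕ} [NeZero p] (U : Finset ℕ) {lo len : ℕ}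
    (hU : U ⊆ Finset.Ico lo (lo + len)) (hlen : len ≤ p) (B : Finset (ZMod p)) (d : ZMod p) :
    (U.filter fun x : ℕ => d + (x : ZMod p) ∈ B).card ≤ B.card := by
  refine Finset.card_le_card_of_injOn (fun x : ℕ => d + (x : ZMod p)) ?_ ?_
  · intro x hx
    have := (Finset.mem_filter.1 (Finset.mem_coe.1 hx)).2
    exact this
  · intro x hx y hy hxy
    have hx1 := (Finset.mem_filter.1 (Finset.mem_coe.1 hx)).1
    have hy1 := (Finset.mem_filter.1 (Finset.mem_coe.1 hy)).1
    exact Bg_inj hlen (hU hx1) (hU hy1) (add_left_cancel hxy)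

private lemma Bg_choose {p : ℕ} [NeZero p] (U : Finset ℕ) {lo len : ℕ}
    (hU : U ⊆ Finset.Ico lo (lo + len)) (hlen : len ≤ p) (B : Finset (ZMod p))
    (h : 2 * B.card < U.card) (d1 d2 : ZMod p) :
    ∃ x ∈ U, d1 + (x : ZMod p) ∉ B ∧ d2 + (x : ZMod p) ∉ B := by
  by_contra hcon
  push Not at hcon
  have hsub : U ⊆ (U.filter fun x : ℕ => d1 + (x : ZMod p) ∈ B) ∪
      (U.filter fun x : ℕ => d2 + (x : ZMod p) ∈ B) := by
    intro x hx
    rw [Finset.mem_union, Finset.mem_filter, Finset.mem_filter]
    by_cases h1 : d1 + (x : ZMod p) ∈ B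
    · exact Or.inl ⟨hx, h1⟩
    · exact Or.inr ⟨hx, hcon x hx h1⟩
  have h1 := Finset.card_le_card hsub
  have h2 := Finset.card_union_le (U.filter fun x : ℕ => d1 + (x : ZMod p) ∈ B)
      (U.filter fun x : ℕ => d2 + (x : ZMod p) ∈ B)
  have h3 := Bg_fiber U hU hlen B d1
  have h4 := Bg_fiber U hU hlen B d2
  omega

private lemma Bg_step {W : Type} [Fintype W] [DecidableEq W] (E : Finset (Sym2 W))
    (V1 : Finset W) (p : ℕ) [NeZero p] (c0 : W → ZMod p)
    (A N : ℕ) (Rest Last : Finset (Sym2 W)) (hRL : E = Rest ∪ Last) (hdis : Disjoint Rest Last)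
    (hLc : Last.card ≤ Fintype.card W)
    (hN : 2 * Fintype.card W ≤ 5 * N) (hp : N + Fintype.card W < p) (g0 : Sym2 W → ℕ)
    (hV1 : ∀ w ∈ V1, ∃ e ∈ Last, w ∈ e) (S : Finset (Sym2 W)) :
    S ⊆ Last → ∃ g : Sym2 W → ℕ, (∀ e ∈ Rest, g e = g0 e) ∧ Set.InjOn g S ∧
      (∀ e ∈ S, g e ∈ Finset.Ico A (A + (N + Last.card))) ∧
      ∀ y : ZMod p, (V1.filter fun w => (∀ e ∈ E, w ∈ e → e ∈ Rest ∪ S) ∧
        c0 w + ∑ e ∈ E.filter (fun e => w ∈ e), (g e : ZMod p) = y).card ≤ 6 := by
  induction S using Finset.induction_on with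
  | empty =>
    intro _
    refine ⟨g0, fun _ _ => rfl, by simp, by simp, fun y => ?_⟩
    have : (V1.filter fun w => (∀ e ∈ E, w ∈ e → e ∈ Rest ∪ (∅ : Finset (Sym2 W))) ∧
        c0 w + ∑ e ∈ E.filter (fun e => w ∈ e), (g0 e : ZMod p) = y) = ∅ := by
      refine Finset.filter_eq_empty_iff.2 ?_
      rintro w hw ⟨h1, -⟩
      obtain ⟨e, he, hwe⟩ := hV1 w hw
      have h2 := h1 e (by rw [hRL]; exact Finset.mem_union_right _ he) hwe
      rw [Finset.union_empty] at h2
      exact (Finset.disjoint_left.1 hdis h2) he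
    rw [this]
    simp
  | insert e0 S he0 ih =>
    intro hsub
    have heL : e0 ∈ Last := hsub (Finset.mem_insert_self _ _)
    have heR : e0 ∉ Rest := fun h => (Finset.disjoint_left.1 hdis h) heL
    have hSL : S ⊆ Last := fun e he => hsub (Finset.mem_insert_of_mem he)
    obtain ⟨g, hg0, hginj, hgm, hgc⟩ := ih hSL
    have hcard : S.card + 1 ≤ Last.card := by
      rw [← Finset.card_insert_of_notMem he0]
      exact Finset.card_le_card hsub
    set U : Finset ℕ := Finset.Ico A (A + (N + Last.card)) \ S.image g with hUdef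
    have hUc : N < U.card := by
      have h1 : (Finset.Ico A (A + (N + Last.card))).card - (S.image g).card ≤ U.card :=
        Finset.le_card_sdiff _ _
      have h2 : (S.image g).card ≤ S.card := Finset.card_image_le
      rw [Nat.card_Ico] at h1
      omega
    have hUsub : U ⊆ Finset.Ico A (A + (N + Last.card)) := Finset.sdiff_subset
    set T : ZMod p → Finset W := fun y => V1.filter fun w => (∀ e ∈ E, w ∈ e → e ∈ Rest ∪ S) ∧
        c0 w + ∑ e ∈ E.filter (fun e => w ∈ e), (g e : ZMod p) = y with hT
    set Bd : Finset (ZMod p) := Finset.univ.filter fun y => 5 ≤ (T y).card with hBd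
    have hBc : 5 * Bd.card ≤ Fintype.card W := by
      have h1 : ∑ y ∈ Bd, 5 ≤ ∑ y ∈ Bd, (T y).card :=
        Finset.sum_le_sum fun y hy => (Finset.mem_filter.1 hy).2
      have h2 : ∑ y ∈ Bd, (T y).card = (Bd.biUnion T).card := by
        rw [Finset.card_biUnion]
        intro y _ y' _ hne
        change Disjoint (T y) (T y')
        rw [Finset.disjoint_left]
        intro w h3 h4
        exact hne ((Finset.mem_filter.1 h3).2.2.symm.trans (Finset.mem_filter.1 h4).2.2)
      have h3 : (Bd.biUnion T).card ≤ Fintype.card W := Finset.card_le_univ _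
      rw [Finset.sum_const, smul_eq_mul] at h1
      omega
    -- the two ends
    obtain ⟨u, v, huv⟩ : ∃ u v : W, e0 = s(u, v) := by
      induction e0 using Sym2.ind with
      | _ u v => exact ⟨u, v, rfl⟩
    set d : W → ZMod p := fun w => c0 w +
      ∑ e ∈ (E.filter (fun e => w ∈ e)).erase e0, (g e : ZMod p) with hd
    obtain ⟨x, hxU, hx1, hx2⟩ := Bg_choose (p := p) U hUsub (by omega) Bd
      (by omega) (d u) (d v)
    refine ⟨Function.update g e0 x, ?_, ?_, ?_, ?_⟩
    · intro e he
      have : e ≠ e0 := fun h => heR (h ▸ he)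
      rw [Function.update_of_ne this]
      exact hg0 e he
    · have hxn : x ∉ S.image g := (Finset.mem_sdiff.1 hxU).2
      intro e he e' he' hee
      rw [Finset.coe_insert, Set.mem_insert_iff] at he he'
      by_cases h1 : e = e0
      · by_cases h2 : e' = e0
        · rw [h1, h2]
        · exfalso
          rw [h1, Function.update_self, Function.update_of_ne h2] at hee
          exact hxn (Finset.mem_image.2 ⟨e', Finset.mem_coe.1 (he'.resolve_left h2), hee.symm⟩)
      · by_cases h2 : e' = e0
        · exfalso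
          rw [h2, Function.update_self, Function.update_of_ne h1] at hee
          exact hxn (Finset.mem_image.2 ⟨e, Finset.mem_coe.1 (he.resolve_left h1), hee⟩)
        · rw [Function.update_of_ne h1, Function.update_of_ne h2] at hee
          exact hginj (he.resolve_left h1) (he'.resolve_left h2) hee
    · intro e he
      rw [Finset.mem_insert] at he
      by_cases h1 : e = e0
      · rw [h1, Function.update_self]
        exact hUsub hxU
      · rw [Function.update_of_ne h1]
        exact hgm e (he.resolve_left h1)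
    · intro y
      -- sums after the update
      have hsum_in : ∀ w, w ∈ e0 → c0 w + ∑ e ∈ E.filter (fun e => w ∈ e),
          ((Function.update g e0 x e : ℕ) : ZMod p) = d w + (x : ZMod p) := by
        intro w hw
        have hmem : e0 ∈ E.filter (fun e => w ∈ e) :=
          Finset.mem_filter.2 ⟨by rw [hRL]; exact Finset.mem_union_right _ heL, hw⟩
        rw [← Finset.sum_erase_add _ _ hmem, Function.update_self, ← add_assoc]
        congr 1
        rw [hd]
        congr 1
        refine Finset.sum_congr rfl fun e he => ?_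
        rw [Function.update_of_ne (Finset.ne_of_mem_erase he)]
      have hsum_out : ∀ w, w ∉ e0 → c0 w + ∑ e ∈ E.filter (fun e => w ∈ e),
          ((Function.update g e0 x e : ℕ) : ZMod p) = c0 w + ∑ e ∈ E.filter (fun e => w ∈ e),
          (g e : ZMod p) := by
        intro w hw
        congr 1
        refine Finset.sum_congr rfl fun e he => ?_
        have : e ≠ e0 := fun h => hw (h ▸ (Finset.mem_filter.1 he).2)
        rw [Function.update_of_ne this]
      have hout : ∀ w, w ∈ (V1.filter fun w => (∀ e ∈ E, w ∈ e → e ∈ Rest ∪ insert e0 S) ∧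
          c0 w + ∑ e ∈ E.filter (fun e => w ∈ e),
            ((Function.update g e0 x e : ℕ) : ZMod p) = y) → w ∉ e0 → w ∈ T y := by
        intro w hw hwe
        obtain ⟨h1, h2, h3⟩ := Finset.mem_filter.1 hw
        refine Finset.mem_filter.2 ⟨h1, fun e he hwe' => ?_, ?_⟩
        · have h4 := h2 e he hwe'
          rw [Finset.mem_union, Finset.mem_insert] at h4
          have : e ≠ e0 := fun h => hwe (h ▸ hwe')
          rw [Finset.mem_union]
          rcases h4 with h4 | h4 | h4
          · exact Or.inl h4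
          · exact absurd h4 this
          · exact Or.inr h4
        · rw [← hsum_out w hwe]
          exact h3
      have hin : ∀ w, w ∈ (V1.filter fun w => (∀ e ∈ E, w ∈ e → e ∈ Rest ∪ insert e0 S) ∧
          c0 w + ∑ e ∈ E.filter (fun e => w ∈ e),
            ((Function.update g e0 x e : ℕ) : ZMod p) = y) → w ∈ e0 → y ∉ Bd := by
        intro w hw hwe
        obtain ⟨h1, h2, h3⟩ := Finset.mem_filter.1 hw
        rw [hsum_in w hwe] at h3
        rw [huv, Sym2.mem_iff] at hwe
        rw [← h3]
        rcases hwe with h | h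
        · rw [h]; exact hx1
        · rw [h]; exact hx2
      by_cases hy : y ∈ Bd
      · refine le_trans (Finset.card_le_card fun w hw => ?_) (hgc y)
        by_cases hwe : w ∈ e0
        · exact absurd hy (hin w hw hwe)
        · exact hout w hw hwe
      · have h4 : (T y).card ≤ 4 := by
          by_contra hcon
          exact hy (Finset.mem_filter.2 ⟨Finset.mem_univ _, by omega⟩)
        have hsub2 : (V1.filter fun w => (∀ e ∈ E, w ∈ e → e ∈ Rest ∪ insert e0 S) ∧
          c0 w + ∑ e ∈ E.filter (fun e => w ∈ e),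
            ((Function.update g e0 x e : ℕ) : ZMod p) = y) ⊆ T y ∪ {u, v} := by
          intro w hw
          rw [Finset.mem_union]
          by_cases hwe : w ∈ e0
          · right
            rw [huv, Sym2.mem_iff] at hwe
            rw [Finset.mem_insert, Finset.mem_singleton]
            exact hwe
          · exact Or.inl (hout w hw hwe)
        have h5 := Finset.card_le_card hsub2
        have h6 := Finset.card_union_le (T y) {u, v}
        have h7 : ({u, v} : Finset W).card ≤ 2 := Finset.card_le_two
        omega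

/-- Background labelling. `E` background edges, offsets `c0`. The labels are
`a + 1, ..., a + |E| + N`, where `N` labels have to remain. We find an injective labelling `g` of `E`
such that the `N` remaining labels lie in an interval of length `N + |W|` and every residue is the
new offset of at most six vertices outside `hub` that have a background edge.
Proof: choose a background edge `s w` for every such vertex, `Last` = the set of these edges
(`≤ |W|` many). The edges outside `Last` get the first labels `a + 1, ...` in any order; window = the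
last `N + |Last|` labels (consecutive, distinct modulo `p`). The edges of `Last` are labelled one
after the other with unused labels of the window (at least `N + 1` are unused before each step). When
a vertex outside `hub` gets its last label its offset must not be one of the residues which are
already offsets of `≥ 5` completed vertices; there are at most `|W| / 5` such residues, so for the two
ends of the edge at most `2 |W| / 5 ≤ N` labels are forbidden. -/
theorem bg_labels {W : Type} [Fintype W] [DecidableEq W] (E : Finset (Sym2 W))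
    (hE : ∀ e ∈ E, ¬ e.IsDiag) (hub : Finset W) (p : ℕ) [NeZero p] (c0 : W → ZMod p) (a N : ℕ)
    (hN : 2 * Fintype.card W ≤ 5 * N) (hp : N + Fintype.card W < p) :
    ∃ g : Sym2 W → ℕ, Set.InjOn g E ∧ (∀ e ∈ E, g e ∈ Finset.Ioc a (a + E.card + N)) ∧
      (∃ lo, ∀ b ∈ Finset.Ioc a (a + E.card + N) \ E.image g,
        lo ≤ b ∧ b < lo + (N + Fintype.card W)) ∧
      ∀ y : ZMod p, (univ.filter fun w : W => w ∉ hub ∧ (∃ e ∈ E, w ∈ e) ∧
        c0 w + ∑ e ∈ E.filter (fun e => w ∈ e), (g e : ZMod p) = y).card ≤ 6 := by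
  have hch : ∀ w : W, ∃ e : Sym2 W, (∃ e' ∈ E, w ∈ e') → e ∈ E ∧ w ∈ e := by
    intro w
    by_cases h : ∃ e' ∈ E, w ∈ e'
    · obtain ⟨e, he, hw⟩ := h
      exact ⟨e, fun _ => ⟨he, hw⟩⟩
    · exact ⟨s(w, w), fun h' => absurd h' h⟩
  choose s hs using hch
  set V1 : Finset W := Finset.univ.filter fun w => w ∉ hub ∧ ∃ e ∈ E, w ∈ e with hV1
  set Last : Finset (Sym2 W) := V1.image s with hLast
  set Rest : Finset (Sym2 W) := E \ Last with hRest
  have hLE : Last ⊆ E := by
    intro e he
    obtain ⟨w, hw, rfl⟩ := Finset.mem_image.1 he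
    exact (hs w (Finset.mem_filter.1 hw).2.2).1
  have hRL : E = Rest ∪ Last := by
    rw [hRest, Finset.sdiff_union_of_subset hLE]
  have hdis : Disjoint Rest Last := Finset.sdiff_disjoint
  have hLc : Last.card ≤ Fintype.card W := Finset.card_image_le.trans (Finset.card_le_univ _)
  have hEc : E.card = Rest.card + Last.card := by
    rw [hRL, Finset.card_union_of_disjoint hdis]
  -- the labelling of `Rest`
  obtain ⟨g0, hg0⟩ : ∃ g0 : Sym2 W → ℕ, Set.BijOn g0 (Rest : Set (Sym2 W))
      (Finset.Ioc a (a + Rest.card) : Set ℕ) := by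
    have hc : Rest.card = (Finset.Ioc a (a + Rest.card)).card := by
      rw [Nat.card_Ioc]; omega
    have e1 := Finset.equivOfCardEq hc
    refine ⟨fun e => if h : e ∈ Rest then (e1 ⟨e, h⟩ : ℕ) else 0, ?_, ?_, ?_⟩
    · intro e he
      have he' : e ∈ Rest := he
      simp only [he', dif_pos]
      exact (e1 ⟨e, he'⟩).2
    · intro e he e' he' h
      have h1 : e ∈ Rest := he
      have h2 : e' ∈ Rest := he'
      simp only [h1, h2, dif_pos] at h
      have h3 := e1.injective (Subtype.ext h)
      exact congrArg Subtype.val h3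
    · intro b hb
      have hb' : b ∈ Finset.Ioc a (a + Rest.card) := hb
      refine ⟨(e1.symm ⟨b, hb'⟩ : Sym2 W), (e1.symm ⟨b, hb'⟩).2, ?_⟩
      have h3 := (e1.symm ⟨b, hb'⟩).2
      simp only [h3, dif_pos, Subtype.coe_eta, Equiv.apply_symm_apply]
  have hV1' : ∀ w ∈ V1, ∃ e ∈ Last, w ∈ e := fun w hw =>
    ⟨s w, Finset.mem_image_of_mem _ hw, (hs w (Finset.mem_filter.1 hw).2.2).2⟩
  obtain ⟨g, hgR, hginj, hgm, hgc⟩ := Bg_step E V1 p c0 (a + Rest.card + 1) N Rest Last hRL hdis
    hLc hN hp g0 hV1' Last subset_rfl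
  have hRmem : ∀ e ∈ Rest, g e ∈ Finset.Ioc a (a + Rest.card) := fun e he => by
    rw [hgR e he]
    exact hg0.mapsTo he
  have hcover : ∀ b ∈ Finset.Ioc a (a + Rest.card), b ∈ E.image g := by
    intro b hb
    obtain ⟨e, he, heb⟩ := hg0.surjOn (show b ∈ (Finset.Ioc a (a + Rest.card) : Set ℕ) from hb)
    refine Finset.mem_image.2 ⟨e, ?_, ?_⟩
    · rw [hRL]; exact Finset.mem_union_left _ he
    · rw [hgR e he]; exact heb
  refine ⟨g, ?_, ?_, ⟨a + Rest.card + 1, ?_⟩, ?_⟩
  · intro e he e' he' hee
    have he1 : e ∈ Rest ∪ Last := by rw [← hRL]; exact he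
    have he1' : e' ∈ Rest ∪ Last := by rw [← hRL]; exact he'
    rcases Finset.mem_union.1 he1 with h1 | h1 <;> rcases Finset.mem_union.1 he1' with h2 | h2
    · rw [hgR e h1, hgR e' h2] at hee
      exact hg0.injOn h1 h2 hee
    · exfalso
      have h3 := Finset.mem_Ioc.1 (hRmem e h1)
      have h4 := Finset.mem_Ico.1 (hgm e' h2)
      omega
    · exfalso
      have h3 := Finset.mem_Ioc.1 (hRmem e' h2)
      have h4 := Finset.mem_Ico.1 (hgm e h1)
      omega
    · exact hginj h1 h2 hee
  · intro e he
    have he1 : e ∈ Rest ∪ Last := by rw [← hRL]; exact he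
    rw [Finset.mem_Ioc]
    rcases Finset.mem_union.1 he1 with h1 | h1
    · have h3 := Finset.mem_Ioc.1 (hRmem e h1)
      omega
    · have h4 := Finset.mem_Ico.1 (hgm e h1)
      omega
  · intro b hb
    obtain ⟨h1, h2⟩ := Finset.mem_sdiff.1 hb
    rw [Finset.mem_Ioc] at h1
    have h3 : ¬ b ≤ a + Rest.card := fun h => h2 (hcover b (Finset.mem_Ioc.2 ⟨h1.1, h⟩))
    omega
  · intro y
    refine le_trans (Finset.card_le_card fun w hw => ?_) (hgc y)
    obtain ⟨-, h1, h2, h3⟩ := Finset.mem_filter.1 hw
    refine Finset.mem_filter.2 ⟨Finset.mem_filter.2 ⟨Finset.mem_univ _, h1, h2⟩, ?_, ?_⟩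
    · intro e he _
      rw [← hRL]
      exact he
    · exact h3

end Pool.Agent.AMX
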