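import Mathlib

/-!
# Labels of the leaf edges: sort trick modulo `p`
-/

set_option autoImplicit false

namespace Pool.Agent.AMX

open Finset

/-- Sort trick. `X` leaves, `own x` the neighbour of `x`. The leaf edges can be labelled by
`1, ..., |X|` such that every residue modulo `p` is the leaf sum of at most two supports.
Proof: one private leaf for every support, the other leaves get the labels `> n_s` (`n_s` = number of
supports) arbitrarily; `π v` = partial sum modulo `p`; order the supports by `(π v).val`; the private
labels `1, ..., n_s` are given in this order. The integers `(π v).val + private label` are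
distinct and `< p + n_s + 1 ≤ 2 p + 1`, positive, so every residue occurs at most twice. -/
theorem leaf_labels {X W : Type} [Fintype X] [DecidableEq X] [Fintype W] [DecidableEq W]
    (own : X → W) (p : ℕ) [NeZero p] (hp : Fintype.card W < p) :
    ∃ lam : X → ℕ, Set.BijOn lam Set.univ (Set.Icc 1 (Fintype.card X)) ∧
      ∀ y : ZMod p, (univ.filter fun w : W => (∃ x, own x = w) ∧
        ∑ x ∈ univ.filter (fun x => own x = w), (lam x : ZMod p) = y).card ≤ 2 := by
  classical
  have hp0 : 0 < p := Nat.pos_of_ne_zero (NeZero.ne p)
  -- supports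
  let own' : X → Set.range own := fun x => ⟨own x, x, rfl⟩
  have hsurj : Function.Surjective own' := by
    rintro ⟨w, x, rfl⟩
    exact ⟨x, rfl⟩
  obtain ⟨pl, hpl⟩ := hsurj.hasRightInverse
  have hplinj : Function.Injective pl := hpl.injective
  set ns := Fintype.card (Set.range own) with hns
  have hnsp : ns < p := lt_of_le_of_lt (Fintype.card_subtype_le _) hp
  -- the other leaves
  let O := {x : X // pl (own' x) ≠ x}
  let idx : O ≃ Fin (Fintype.card O) := Fintype.equivFin O
  let it : X → ℕ := fun x => if h : pl (own' x) ≠ x then (idx ⟨x, h⟩ : ℕ) else 0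
  have hcard : ns + Fintype.card O = Fintype.card X := by
    have h1 := Fintype.card_subtype_compl (fun x : X => pl (own' x) = x)
    have h2 : Fintype.card {x : X // pl (own' x) = x} = ns := by
      refine (Fintype.card_congr (Equiv.ofBijective
        (fun w => (⟨pl w, by rw [hpl w]⟩ : {x : X // pl (own' x) = x})) ⟨?_, ?_⟩)).symm
      · intro w w' h
        exact hplinj (Subtype.ext_iff.1 h)
      · rintro ⟨x, hx⟩
        exact ⟨own' x, Subtype.ext hx⟩
    have h3 : Fintype.card {x : X // pl (own' x) = x} ≤ Fintype.card X :=
      Fintype.card_subtype_le _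
    rw [h2] at h1 h3
    have h4 : Fintype.card O = Fintype.card X - ns := h1
    omega
  -- partial sums
  let π : Set.range own → ZMod p := fun w =>
    ∑ x ∈ univ.filter (fun x => own x = w.1 ∧ pl (own' x) ≠ x), ((ns + 1 + it x : ℕ) : ZMod p)
  let e : Set.range own ≃ Fin ns := Fintype.equivFin _
  let f : Fin ns → ℕ := fun i => (π (e.symm i)).val
  let σ := Tuple.sort f
  have hmono : Monotone (f ∘ σ) := Tuple.monotone_sort f
  let r : Set.range own → ℕ := fun w => (σ.symm (e w) : ℕ) + 1
  have hr : ∀ w w', r w < r w' → (π w).val ≤ (π w').val := by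
    intro w w' h
    have h1 : σ.symm (e w) ≤ σ.symm (e w') := by
      have : (σ.symm (e w) : ℕ) + 1 < (σ.symm (e w') : ℕ) + 1 := h
      exact Fin.le_def.2 (by omega)
    have h2 := hmono h1
    simpa [f] using h2
  have hrinj : Function.Injective r := by
    intro w w' h
    have h1 : (σ.symm (e w) : ℕ) + 1 = (σ.symm (e w') : ℕ) + 1 := h
    have h2 : σ.symm (e w) = σ.symm (e w') := Fin.ext (by omega)
    exact e.injective (σ.symm.injective h2)
  have hr1 : ∀ w, 1 ≤ r w := fun w => Nat.le_add_left _ _
  have hrn : ∀ w, r w ≤ ns := fun w => (σ.symm (e w)).2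
  let lam : X → ℕ := fun x => if pl (own' x) = x then r (own' x) else ns + 1 + it x
  have hlam1 : ∀ x, pl (own' x) = x → lam x = r (own' x) := fun x h => if_pos h
  have hlam2 : ∀ x, pl (own' x) ≠ x → lam x = ns + 1 + it x := fun x h => if_neg h
  have hit : ∀ x (h : pl (own' x) ≠ x), it x = (idx ⟨x, h⟩ : ℕ) := fun x h => dif_pos h
  have hinj : Function.Injective lam := by
    intro x y hxy
    by_cases hx : pl (own' x) = x <;> by_cases hy : pl (own' y) = y
    · rw [hlam1 x hx, hlam1 y hy] at hxy
      rw [← hx, ← hy, hrinj hxy]
    · rw [hlam1 x hx, hlam2 y hy] at hxy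
      have := hrn (own' x)
      omega
    · rw [hlam2 x hx, hlam1 y hy] at hxy
      have := hrn (own' y)
      omega
    · rw [hlam2 x hx, hlam2 y hy, hit x hx, hit y hy] at hxy
      have h1 : idx ⟨x, hx⟩ = idx ⟨y, hy⟩ := Fin.ext (by omega)
      exact Subtype.ext_iff.1 (idx.injective h1)
  have hmem : ∀ x, lam x ∈ Icc 1 (Fintype.card X) := by
    intro x
    rw [mem_Icc]
    by_cases hx : pl (own' x) = x
    · rw [hlam1 x hx]
      exact ⟨hr1 _, (hrn _).trans (by omega)⟩
    · rw [hlam2 x hx, hit x hx]
      have := (idx ⟨x, hx⟩).2
      omega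
  refine ⟨lam, ⟨fun x _ => ?_, hinj.injOn, ?_⟩, ?_⟩
  · have := mem_Icc.1 (hmem x)
    exact this
  · intro k hk
    have h1 : univ.image lam = Icc 1 (Fintype.card X) := by
      refine eq_of_subset_of_card_le ?_ ?_
      · intro k hk
        obtain ⟨x, -, rfl⟩ := mem_image.1 hk
        exact hmem x
      · rw [card_image_of_injective _ hinj, Nat.card_Icc, card_univ]
        omega
    have h2 : k ∈ univ.image lam := by
      rw [h1]
      exact mem_Icc.2 hk
    obtain ⟨x, -, rfl⟩ := mem_image.1 h2
    exact ⟨x, Set.mem_univ _, rfl⟩
  · intro y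
    -- the total sum of a support
    have hsum : ∀ w : Set.range own, ∑ x ∈ univ.filter (fun x => own x = w.1), (lam x : ZMod p) =
        (((π w).val + r w : ℕ) : ZMod p) := by
      intro w
      have h1 : univ.filter (fun x => own x = w.1) =
          insert (pl w) (univ.filter (fun x => own x = w.1 ∧ pl (own' x) ≠ x)) := by
        ext x
        simp only [mem_filter, mem_univ, true_and, mem_insert]
        constructor
        · intro h
          by_cases hx : pl (own' x) = x
          · left
            rw [← hx]
            congr 1
            exact Subtype.ext h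
          · exact Or.inr ⟨h, hx⟩
        · rintro (rfl | h)
          · have h2 := hpl w
            exact congrArg Subtype.val h2
          · exact h.1
      have h2 : pl w ∉ univ.filter (fun x => own x = w.1 ∧ pl (own' x) ≠ x) := by
        rw [mem_filter]
        rintro ⟨-, -, h⟩
        exact h (by rw [hpl w])
      rw [h1, sum_insert h2, hlam1 _ (by rw [hpl w]), hpl w]
      have h3 : ∑ x ∈ univ.filter (fun x => own x = w.1 ∧ pl (own' x) ≠ x), (lam x : ZMod p) =
          π w := by
        refine sum_congr rfl fun x hx => ?_
        rw [hlam2 x (mem_filter.1 hx).2.2]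
      rw [h3, Nat.cast_add (π w).val (r w), ZMod.natCast_zmod_val, add_comm]
    have hSinj : ∀ w w' : Set.range own, (π w).val + r w = (π w').val + r w' → w = w' := by
      intro w w' h
      rcases lt_trichotomy (r w) (r w') with h1 | h1 | h1
      · have := hr w w' h1
        omega
      · exact hrinj h1
      · have := hr w' w h1
        omega
    -- the integers belonging to the residue `y`
    set A := univ.filter (fun w : Set.range own =>
      ∑ x ∈ univ.filter (fun x => own x = w.1), (lam x : ZMod p) = y) with hA
    have hcardA : (univ.filter fun w : W => (∃ x, own x = w) ∧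
        ∑ x ∈ univ.filter (fun x => own x = w), (lam x : ZMod p) = y).card ≤ A.card := by
      have h1 : (univ.filter fun w : W => (∃ x, own x = w) ∧
        ∑ x ∈ univ.filter (fun x => own x = w), (lam x : ZMod p) = y) ⊆ A.image Subtype.val := by
        intro w hw
        obtain ⟨-, hw1, hw2⟩ := mem_filter.1 hw
        exact mem_image.2 ⟨⟨w, hw1⟩, mem_filter.2 ⟨mem_univ _, hw2⟩, rfl⟩
      exact (card_le_card h1).trans card_image_le
    refine hcardA.trans ?_
    have h2 : (A.image fun w => (π w).val + r w) ⊆ {y.val, y.val + p} := by
      intro n hn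
      obtain ⟨w, hw, rfl⟩ := mem_image.1 hn
      have h3 := (mem_filter.1 hw).2
      rw [hsum w] at h3
      have h4 : ((π w).val + r w) % p = y.val := by
        rw [← h3, ZMod.val_natCast]
      have h5 : (π w).val + r w < 2 * p := by
        have h6 := ZMod.val_lt (π w)
        have h7 := hrn w
        omega
      have h6 := Nat.div_add_mod ((π w).val + r w) p
      have h7 : ((π w).val + r w) / p < 2 := (Nat.div_lt_iff_lt_mul hp0).2 h5
      rw [h4] at h6
      rw [mem_insert, mem_singleton]
      interval_cases h8 : ((π w).val + r w) / p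
      · left
        omega
      · right
        omega
    calc A.card = (A.image fun w => (π w).val + r w).card := by
          rw [card_image_of_injective]
          intro w w' h
          exact hSinj w w' h
      _ ≤ _ := card_le_card h2
      _ ≤ 2 := card_le_two

end Pool.Agent.AMX
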