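import Pool.Agent.AMX.SkGad

/-!
# Selection of the gadgets
-/

set_option autoImplicit false
set_option linter.unusedSectionVars false
set_option linter.unusedVariables false

namespace Pool.Agent.AMX

open Finset Pool.Agent.MP6be45b.TreePart

variable {W : Type*} [Fintype W] [DecidableEq W] {H : SimpleGraph W} {p : W → W}
  {h : W → ℕ} {Z : Finset W} {prt : W → Finset W} {K k0 D : ℕ}

/-- matched vertices whose partner is their parent -/
def MV (p m : W → W) : Finset W := univ.filter fun v => m v ≠ v ∧ p v = m v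

theorem mem_MV {m : W → W} {v : W} : v ∈ MV p m ↔ m v ≠ v ∧ p v = m v := by
  simp [MV]

/-- different matching edges are disjoint -/
theorem MV_disj (hR : Rooted H p h) {m : W → W} (hm : ∀ v, m (m v) = v) {v w : W}
    (hv : v ∈ MV p m) (hw : w ∈ MV p m) {x : W} (h1 : x ∈ s(v, p v)) (h2 : x ∈ s(w, p w)) :
    v = w := by
  obtain ⟨a1, a2⟩ := mem_MV.1 hv
  obtain ⟨b1, b2⟩ := mem_MV.1 hw
  have a3 := hR.lt v (by rw [a2]; exact a1)
  have b3 := hR.lt w (by rw [b2]; exact b1)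
  rcases Sym2.mem_iff.1 h1 with e1 | e1 <;> rcases Sym2.mem_iff.1 h2 with e2 | e2
  · exact e1.symm.trans e2
  · -- `v = p w = m w`
    have e3 : v = p w := e1.symm.trans e2
    have e4 : p v = w := by rw [a2, e3, b2, hm]
    rw [e4] at a3
    rw [← e3] at b3
    omega
  · have e3 : p v = w := e1.symm.trans e2
    have e4 : p w = v := by rw [b2, ← e3, a2, hm]
    rw [e3] at a3
    rw [e4] at b3
    omega
  · have e3 : p v = p w := e1.symm.trans e2
    rw [a2, b2] at e3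
    rw [← hm v, e3, hm]

/-- vertices near different gadget edges are different -/
theorem gad_disj (hR : Rooted H p h) {m : W → W} (hm : ∀ v, m (m v) = v) {D0 : ℕ} {v w : W}
    (hv : v ∈ MV p m) (hw : w ∈ MV p m) (hne : v ≠ w) (hvF : s(v, p v) ∈ slF p Z prt)
    (hwF : s(w, p w) ∈ slF p Z prt) {e f : Sym2 W} (he : Gad p Z prt D0 v e)
    (hf : Gad p Z prt D0 w f) : ∀ x ∈ e, x ∉ f := by
  intro x hxe hxf
  rcases he.near x hxe with h1 | ⟨u, hu, h1⟩ <;> rcases hf.near x hxf with h2 | ⟨u', hu', h2⟩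
  · exact hne (MV_disj hR hm hv hw h1 h2)
  · have h3 : s(v, p v) ∈ slAt (slF p Z prt) x := mem_slAt.2 ⟨hvF, h1⟩
    rw [h2, mem_singleton] at h3
    have h4 : u' ∈ s(v, p v) := by rw [h3]; exact Sym2.mem_mk_left _ _
    exact hne (MV_disj hR hm hv hw h4 hu')
  · have h3 : s(w, p w) ∈ slAt (slF p Z prt) x := mem_slAt.2 ⟨hwF, h2⟩
    rw [h1, mem_singleton] at h3
    have h4 : u ∈ s(w, p w) := by rw [h3]; exact Sym2.mem_mk_left _ _
    exact hne (MV_disj hR hm hv hw hu h4)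
  · rw [h1] at h2
    have h3 : s(u, x) = s(u', x) := singleton_injective h2
    have h4 : u = u' := by
      rcases Sym2.eq_iff.1 h3 with ⟨h4, -⟩ | ⟨h4, h5⟩
      · exact h4
      · exact h4.trans h5
    subst h4
    exact hne (MV_disj hR hm hv hw hu hu')

/-- the output: pairwise disjoint good gadgets with different keys -/
structure Gads (F : Finset (Sym2 W)) (Z : Finset W) (D0 : ℕ) (Sp : Finset (Sym2 W)) : Prop where
  sub : Sp ⊆ F
  nonhub : ∀ e ∈ Sp, ∀ w ∈ e, w ∉ Z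
  disj : ∀ e ∈ Sp, ∀ e' ∈ Sp, e ≠ e' → ∀ w ∈ e, w ∉ e'
  le : ∀ e ∈ Sp, ∀ w ∈ e, (slAt F w).card ≤ D0
  star : ∀ e ∈ Sp, ∀ u ∈ e, ∀ w, w ∉ Z → slAt F w ≠ (slAt F u).erase e
  keys : ∀ e ∈ Sp, ∀ e' ∈ Sp, ∀ u ∈ e, ∀ v ∈ e', u ≠ v →
    (slAt F u).erase e = (slAt F v).erase e' → (slAt F u).erase e = ∅

theorem Gads.mono {F : Finset (Sym2 W)} {D0 : ℕ} {Sp Sp' : Finset (Sym2 W)}
    (hG : Gads F Z D0 Sp) (hs : Sp' ⊆ Sp) : Gads F Z D0 Sp' where
  sub := hs.trans hG.sub
  nonhub := fun e he => hG.nonhub e (hs he)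
  disj := fun e he e' he' => hG.disj e (hs he) e' (hs he')
  le := fun e he => hG.le e (hs he)
  star := fun e he => hG.star e (hs he)
  keys := fun e he e' he' => hG.keys e (hs he) e' (hs he')

theorem exists_gads (F : Finset (Sym2 W)) (Z : Finset W) (D0 : ℕ) (X : Finset (Sym2 W))
    (hsub : X ⊆ F) (hnon : ∀ e ∈ X, ∀ w ∈ e, w ∉ Z)
    (hdisj : ∀ e ∈ X, ∀ e' ∈ X, e ≠ e' → ∀ w ∈ e, w ∉ e')
    (hle : ∀ e ∈ X, ∀ w ∈ e, (slAt F w).card ≤ D0)
    (hstar : ∀ e ∈ X, ∀ u ∈ e, ∀ w, w ∉ Z → slAt F w ≠ (slAt F u).erase e) :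
    ∃ Sp, Gads F Z D0 Sp ∧ X.card ≤ 3 * Sp.card := by
  classical
  let R : Sym2 W → Sym2 W → Prop := fun e e' => e ≠ e' ∧ ∃ u ∈ e, ∃ v ∈ e', u ≠ v ∧
    (slAt F u).erase e = (slAt F v).erase e' ∧ (slAt F u).erase e ≠ ∅
  have hsymm : ∀ x y, R x y → R y x := by
    rintro e e' ⟨h1, u, hu, v, hv, h2, h3, h4⟩
    exact ⟨h1.symm, v, hv, u, hu, h2.symm, h3.symm, by rw [← h3]; exact h4⟩
  have hirr : ∀ x, ¬ R x x := fun x hx => hx.1 rfl
  have hdeg : ∀ e ∈ X, (X.filter (R e)).card ≤ 2 := by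
    intro e he
    let N : W → Finset (Sym2 W) := fun u => X.filter fun e' => ∃ v ∈ e', u ≠ v ∧
      (slAt F u).erase e = (slAt F v).erase e' ∧ (slAt F u).erase e ≠ ∅
    have hN : ∀ u, (N u).card ≤ 1 := by
      intro u
      rw [card_le_one]
      intro e1 h1 e2 h2
      obtain ⟨h11, v1, h12, h13, h14, h15⟩ := mem_filter.1 h1
      obtain ⟨h21, v2, h22, h23, h24, h25⟩ := mem_filter.1 h2
      obtain ⟨f, hf⟩ := nonempty_iff_ne_empty.2 h15
      have f1 : f = s(u, v1) := two_eq h13 (mem_erase.1 hf).2 (by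
        rw [h14] at hf
        exact (mem_erase.1 hf).2)
      have f2 : f = s(u, v2) := two_eq h23 (mem_erase.1 hf).2 (by
        rw [h24] at hf
        exact (mem_erase.1 hf).2)
      have h3 : v1 = v2 := by
        rw [f1] at f2
        rcases Sym2.eq_iff.1 f2 with ⟨-, h3⟩ | ⟨h3, -⟩
        · exact h3
        · exact absurd h3 h23
      by_contra hne
      exact hdisj e1 h11 e2 h21 hne v1 h12 (h3 ▸ h22)
    obtain ⟨a, b, rfl⟩ : ∃ a b, e = s(a, b) := by
      induction e using Sym2.ind with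
      | _ a b => exact ⟨a, b, rfl⟩
    have hsubN : X.filter (R s(a, b)) ⊆ N a ∪ N b := by
      intro e' he'
      obtain ⟨h1, h2, u, hu, v, hv, h3⟩ := mem_filter.1 he'
      rw [mem_union]
      rcases Sym2.mem_iff.1 hu with rfl | rfl
      · exact Or.inl (mem_filter.2 ⟨h1, v, hv, h3⟩)
      · exact Or.inr (mem_filter.2 ⟨h1, v, hv, h3⟩)
    calc _ ≤ _ := card_le_card hsubN
      _ ≤ (N a).card + (N b).card := card_union_le _ _
      _ ≤ 1 + 1 := Nat.add_le_add (hN a) (hN b)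
      _ = 2 := rfl
  obtain ⟨Y, hY, hind, hcard⟩ := indep_third X R hsymm hirr hdeg
  refine ⟨Y, ⟨hY.trans hsub, fun e he => hnon e (hY he),
    fun e he e' he' => hdisj e (hY he) e' (hY he'), fun e he => hle e (hY he),
    fun e he => hstar e (hY he), ?_⟩, hcard⟩
  intro e he e' he' u hu v hv huv heq
  by_cases hee : e = e'
  · subst hee
    by_contra hne
    obtain ⟨f, hf⟩ := nonempty_iff_ne_empty.2 hne
    have f1 : f = s(u, v) := two_eq huv (mem_erase.1 hf).2 (by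
        rw [heq] at hf
        exact (mem_erase.1 hf).2)
    have f2 : e = s(u, v) := (Sym2.mem_and_mem_iff huv).1 ⟨hu, hv⟩
    exact (mem_erase.1 hf).1 (f1.trans f2.symm)
  · by_contra hne
    exact hind e he e' he' ⟨hee, u, hu, v, hv, huv, heq, hne⟩

/-- **Selection.** -/
theorem SkCtx.sel (C : SkCtx H p h Z prt K k0 D) {m : W → W} (hm : ∀ v, m (m v) = v) {D0 : ℕ}
    (hD0 : 1 ≤ D0) : ∃ Sp, Gads (slF p Z prt) Z D0 Sp ∧
      (MV p m).card ≤ 3 * Sp.card + 2 * Z.card +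
        (univ.filter fun v => v ∉ Z ∧ p v ∉ Z ∧ p v ≠ v ∧ p v ∉ prt v).card +
        2 * (univ.filter fun v => D0 < (slAt (slF p Z prt) v).card).card +
        3 * (univ.filter fun v => p v = v).card := by
  classical
  set F := slF p Z prt with hF
  set X := univ.filter fun v => v ∉ Z ∧ p v ∉ Z ∧ p v ≠ v ∧ p v ∉ prt v with hX
  set B := univ.filter fun v => D0 < (slAt F v).card with hB
  set R := univ.filter fun v => p v = v with hR
  let C1 : Finset W := (MV p m).filter fun v => v ∉ Z ∧ p v ∈ prt v ∧ (slAt F v).card ≤ D0 ∧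
    (slAt F (p v)).card ≤ D0 ∧ ¬ ((prt v).card ≤ 3 ∧ ∃ t ∈ prt v, p t = t)
  have hmv : ∀ v ∈ MV p m, p v ≠ v := fun v hv => by
    rw [(mem_MV.1 hv).2]
    exact (mem_MV.1 hv).1
  have hex : ∀ v ∈ C1, ∃ e, Gad p Z prt D0 v e := by
    intro v hv
    obtain ⟨h1, h2, h3, h4, h5, h6⟩ := mem_filter.1 hv
    exact C.exists_gad hD0 h2 (hmv v h1) h3 h4 h5 h6
  have hC1F : ∀ v ∈ C1, s(v, p v) ∈ F := by
    intro v hv
    obtain ⟨h1, h2, h3, h4, h5, h6⟩ := mem_filter.1 hv
    exact C.mk1 h2 h3 (Ne.symm (hmv v h1)) (Or.inl rfl)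
  have hC1M : ∀ v ∈ C1, v ∈ MV p m := fun v hv => (mem_filter.1 hv).1
  let g : W → Sym2 W := fun v => if hv : ∃ e, Gad p Z prt D0 v e then hv.choose else s(v, v)
  have hg : ∀ v ∈ C1, Gad p Z prt D0 v (g v) := by
    intro v hv
    have h1 : g v = (hex v hv).choose := dif_pos (hex v hv)
    rw [h1]
    exact (hex v hv).choose_spec
  have hgd : ∀ v ∈ C1, ∀ w ∈ C1, v ≠ w → ∀ x ∈ g v, x ∉ g w := fun v hv w hw hne =>
    gad_disj C.rooted hm (hC1M v hv) (hC1M w hw) hne (hC1F v hv) (hC1F w hw) (hg v hv) (hg w hw)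
  have hginj : Set.InjOn g (C1 : Set W) := by
    intro v hv w hw he
    by_contra hne
    obtain ⟨x, hx⟩ : ∃ x, x ∈ g v := by
      induction hgv : g v using Sym2.ind with
      | _ a b => exact ⟨a, Sym2.mem_mk_left _ _⟩
    exact hgd v hv w hw hne x hx (he ▸ hx)
  obtain ⟨Sp, hSp, hcard⟩ := exists_gads F Z D0 (C1.image g)
    (by
      intro e he
      obtain ⟨v, hv, rfl⟩ := mem_image.1 he
      exact (hg v hv).mem)
    (by
      intro e he
      obtain ⟨v, hv, rfl⟩ := mem_image.1 he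
      exact (hg v hv).nonhub)
    (by
      intro e he e' he' hne
      obtain ⟨v, hv, rfl⟩ := mem_image.1 he
      obtain ⟨w, hw, rfl⟩ := mem_image.1 he'
      exact hgd v hv w hw fun hc => hne (by rw [hc]))
    (by
      intro e he
      obtain ⟨v, hv, rfl⟩ := mem_image.1 he
      exact (hg v hv).le)
    (by
      intro e he
      obtain ⟨v, hv, rfl⟩ := mem_image.1 he
      exact (hg v hv).star)
  rw [card_image_of_injOn hginj] at hcard
  refine ⟨Sp, hSp, ?_⟩
  -- the other vertices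
  let MZ : Finset W := (MV p m).filter fun v => p v ∈ Z
  let MB : Finset W := (MV p m).filter fun v => p v ∈ B
  let T : Finset W := univ.filter fun v => v ∉ Z ∧ (prt v).card ≤ 3 ∧ ∃ t ∈ prt v, p t = t
  have hpinj : ∀ v ∈ MV p m, ∀ w ∈ MV p m, p v = p w → v = w := fun v hv w hw he =>
    MV_disj C.rooted hm hv hw (Sym2.mem_mk_right _ _) (he ▸ Sym2.mem_mk_right _ _)
  have hMZ : MZ.card ≤ Z.card := by
    apply Finset.card_le_card_of_injOn p
    · intro v hv
      exact (mem_filter.1 (mem_coe.1 hv)).2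
    · intro v hv w hw he
      exact hpinj v (mem_filter.1 (mem_coe.1 hv)).1 w (mem_filter.1 (mem_coe.1 hw)).1 he
  have hMB : MB.card ≤ B.card := by
    apply Finset.card_le_card_of_injOn p
    · intro v hv
      exact (mem_filter.1 (mem_coe.1 hv)).2
    · intro v hv w hw he
      exact hpinj v (mem_filter.1 (mem_coe.1 hv)).1 w (mem_filter.1 (mem_coe.1 hw)).1 he
  have hT : T.card ≤ 3 * R.card := by
    have hsub : T ⊆ R.biUnion fun t => if (prt t).card ≤ 3 then prt t else ∅ := by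
      intro v hv
      obtain ⟨h1, h2, t, h3, h4⟩ := (mem_filter.1 hv).2
      have h5 := (C.eq v t h1 h3).2
      refine mem_biUnion.2 ⟨t, mem_filter.2 ⟨mem_univ _, h4⟩, ?_⟩
      rw [if_pos (by rw [h5]; exact h2), h5]
      exact C.mem v h1
    calc T.card ≤ _ := card_le_card hsub
      _ ≤ R.card * 3 := Finset.card_biUnion_le_card_mul _ _ _ (by
          intro t _
          split_ifs with hc
          · exact hc
          · simp)
      _ = 3 * R.card := mul_comm _ _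
  have hcov : MV p m ⊆ C1 ∪ Z ∪ MZ ∪ X ∪ B ∪ MB ∪ T := by
    intro v hv
    by_cases h1 : v ∈ Z
    · simp [h1]
    by_cases h2 : p v ∈ Z
    · have : v ∈ MZ := mem_filter.2 ⟨hv, h2⟩
      simp [this]
    by_cases h3 : p v ∈ prt v
    · by_cases h4 : D0 < (slAt F v).card
      · have : v ∈ B := mem_filter.2 ⟨mem_univ _, h4⟩
        simp [this]
      by_cases h5 : D0 < (slAt F (p v)).card
      · have : v ∈ MB := mem_filter.2 ⟨hv, mem_filter.2 ⟨mem_univ _, h5⟩⟩
        simp [this]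
      by_cases h6 : (prt v).card ≤ 3 ∧ ∃ t ∈ prt v, p t = t
      · have : v ∈ T := mem_filter.2 ⟨mem_univ _, h1, h6⟩
        simp [this]
      · have : v ∈ C1 := mem_filter.2 ⟨hv, h1, h3, by omega, by omega, h6⟩
        simp [this]
    · have : v ∈ X := mem_filter.2 ⟨mem_univ _, h1, h2, hmv v hv, h3⟩
      simp [this]
  have h1 := card_le_card hcov
  have h2 := card_union_le (C1 ∪ Z ∪ MZ ∪ X ∪ B ∪ MB) T
  have h3 := card_union_le (C1 ∪ Z ∪ MZ ∪ X ∪ B) MB
  have h4 := card_union_le (C1 ∪ Z ∪ MZ ∪ X) B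
  have h5 := card_union_le (C1 ∪ Z ∪ MZ) X
  have h6 := card_union_le (C1 ∪ Z) MZ
  have h7 := card_union_le C1 Z
  omega

end Pool.Agent.AMX
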