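import Mathlib
import Pool.Agent.AMX.SkSel

/-!
# Skeleton of the inner graph: hubs, slots, parts, gadgets (the output of the graph part)
-/

set_option autoImplicit false
set_option linter.unusedSectionVars false
set_option linter.unusedVariables false

namespace Pool.Agent.AMX

open Finset

variable {W : Type} [Fintype W] [DecidableEq W]

/-- the slots (edges of `F`) at `w` -/
def slotsAt (F : Finset (Sym2 W)) (w : W) : Finset (Sym2 W) := F.filter fun e => w ∈ e

/-- A skeleton of the graph `H`: a set `hub` of hubs, a set `F` of edges (slots), parts `pt` of slots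
and `vp` of vertices, a set `Sp` of gadget slots. Every part has at most `k` slots, every vertex that
is no hub has between `1` and `D` slots, all in its part; different vertices that are no hubs have
different sets of slots. Gadgets are pairwise disjoint, without hubs, their ends have at most `D0`
slots. -/
structure Skel (H : SimpleGraph W) (hub : Finset W) (F : Finset (Sym2 W)) (pt : Sym2 W → ℕ)
    (vp : W → ℕ) (Sp : Finset (Sym2 W)) (k D D0 : ℕ) : Prop where
  edge : ∀ e ∈ F, e ∈ H.edgeSet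
  nonhub : ∀ e ∈ F, ∃ w ∈ e, w ∉ hub
  vp_eq : ∀ e ∈ F, ∀ w ∈ e, w ∉ hub → pt e = vp w
  part_le : ∀ i, (F.filter fun e => pt e = i).card ≤ k
  has_slot : ∀ w, w ∉ hub → (slotsAt F w).Nonempty
  slots_le : ∀ w, w ∉ hub → (slotsAt F w).card ≤ D
  slots_ne : ∀ w w', w ∉ hub → w' ∉ hub → w ≠ w' → slotsAt F w ≠ slotsAt F w'
  sp_sub : Sp ⊆ F
  sp_nonhub : ∀ e ∈ Sp, ∀ w ∈ e, w ∉ hub
  sp_disj : ∀ e ∈ Sp, ∀ e' ∈ Sp, e ≠ e' → ∀ w ∈ e, w ∉ e'
  sp_le : ∀ e ∈ Sp, ∀ w ∈ e, (slotsAt F w).card ≤ D0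
  sp_star : ∀ e ∈ Sp, ∀ u ∈ e, ∀ w, w ∉ hub → slotsAt F w ≠ (slotsAt F u).erase e
  sp_keys : ∀ e ∈ Sp, ∀ e' ∈ Sp, ∀ u ∈ e, ∀ v ∈ e', u ≠ v →
    (slotsAt F u).erase e = (slotsAt F v).erase e' → (slotsAt F u).erase e = ∅

open Pool.Agent.MP6be45b.TreePart in
theorem SkCtx.toSkel {H : SimpleGraph W} {p : W → W} {h : W → ℕ} {Z : Finset W}
    {prt : W → Finset W} {K k0 D D0 : ℕ} (C : SkCtx H p h Z prt K k0 D) {Sp : Finset (Sym2 W)}
    (hG : Gads (slF p Z prt) Z D0 Sp) :
    Skel H Z (slF p Z prt) (ptOf prt Z) (vpOf prt) Sp (2 * k0) (D + 1) D0 where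
  edge := fun e he => by
    obtain ⟨x, hx, rfl⟩ := slF_tree he
    exact C.rooted.adj x hx
  nonhub := fun e he => by
    rcases mem_slF.1 he with ⟨v, h1, h2, h3, rfl⟩ | ⟨v, h1, h2, rfl⟩
    · exact ⟨v, Sym2.mem_mk_left _ _, h1⟩
    · exact ⟨v, Sym2.mem_mk_left _ _, h1⟩
  vp_eq := fun e he w hw hwZ => C.vp_eq he hw hwZ
  part_le := fun i => C.part_le i
  has_slot := fun w hw => C.has_slot hw
  slots_le := fun w hw => C.slots_le hw
  slots_ne := fun w w' hw hw' hne => C.slots_ne hw hw' hne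
  sp_sub := hG.sub
  sp_nonhub := hG.nonhub
  sp_disj := hG.disj
  sp_le := hG.le
  sp_star := hG.star
  sp_keys := hG.keys

/-- the involution of a matching -/
theorem exists_inv {H : SimpleGraph W} (M : H.Subgraph) (hM : M.IsMatching) :
    ∃ m : W → W, (∀ v, m (m v) = v) ∧ (∀ v, m v ≠ v → H.Adj v (m v)) ∧
      ∀ p : W → W, (∀ v, m v ≠ v → p v = m v ∨ p (m v) = v) →
        M.edgeSet.ncard ≤ (MV p m).card := by
  classical
  let m : W → W := fun v => if hv : ∃ w, M.Adj v w then hv.choose else v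
  have hm1 : ∀ v w, M.Adj v w → m v = w := by
    intro v w hvw
    have hex : ∃ w, M.Adj v w := ⟨w, hvw⟩
    have h1 : m v = hex.choose := dif_pos hex
    rw [h1]
    exact (hM (M.edge_vert hvw)).unique hex.choose_spec hvw
  have hm2 : ∀ v, (¬ ∃ w, M.Adj v w) → m v = v := fun v hv => dif_neg hv
  have hm3 : ∀ v, m v ≠ v → M.Adj v (m v) := by
    intro v hv
    by_cases hex : ∃ w, M.Adj v w
    · obtain ⟨w, hw⟩ := hex
      rw [hm1 v w hw]
      exact hw
    · exact absurd (hm2 v hex) hv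
  refine ⟨m, ?_, fun v hv => (hm3 v hv).adj_sub, ?_⟩
  · intro v
    by_cases hv : m v = v
    · rw [hv, hv]
    · exact hm1 _ _ (hm3 v hv).symm
  · intro p hp
    have hsub : M.edgeSet ⊆ (((MV p m).image fun v => s(v, p v) : Finset (Sym2 W)) :
        Set (Sym2 W)) := by
      intro e he
      rw [mem_coe, mem_image]
      induction e using Sym2.ind with
      | _ a b =>
        have hab : M.Adj a b := he
        have h1 := hm1 a b hab
        have h2 := hm1 b a hab.symm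
        have hne : a ≠ b := hab.ne
        rcases hp a (by rw [h1]; exact hne.symm) with h3 | h3
        · refine ⟨a, mem_MV.2 ⟨by rw [h1]; exact hne.symm, h3⟩, ?_⟩
          rw [h3, h1]
        · rw [h1] at h3
          refine ⟨b, mem_MV.2 ⟨by rw [h2]; exact hne, by rw [h3, h2]⟩, ?_⟩
          rw [h3, Sym2.eq_swap]
    calc M.edgeSet.ncard ≤ _ := Set.ncard_le_ncard hsub (Finset.finite_toSet _)
      _ = ((MV p m).image fun v => s(v, p v)).card := Set.ncard_coe_finset _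
      _ ≤ (MV p m).card := card_image_le

/-- **Graph part.** A graph with at most `δ |W|` components, each with at least three vertices, and a
matching with at least `c |W|` edges has a skeleton with few hubs, almost `|W|` slots and at least
`β |W|` gadgets. `β`, `D0` depend on `c` only. -/
theorem exists_skel (c : ℝ) (hc : 0 < c) :
    ∃ β > (0 : ℝ), ∃ D0 : ℕ, ∀ ε > (0 : ℝ), ∃ k D : ℕ, ∃ δ > (0 : ℝ), ∃ n0 : ℕ,
      ∀ (W : Type) [Fintype W] [DecidableEq W] (H : SimpleGraph W) [DecidableRel H.Adj]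
        (M : H.Subgraph), n0 ≤ Fintype.card W →
        (Nat.card H.ConnectedComponent : ℝ) ≤ δ * Fintype.card W →
        (∀ C : H.ConnectedComponent, 3 ≤ C.supp.ncard) →
        M.IsMatching → c * Fintype.card W ≤ M.edgeSet.ncard →
        ∃ (hub : Finset W) (F : Finset (Sym2 W)) (pt : Sym2 W → ℕ) (vp : W → ℕ)
          (Sp : Finset (Sym2 W)), Skel H hub F pt vp Sp k D D0 ∧
          (hub.card : ℝ) ≤ ε * Fintype.card W ∧ (1 - ε) * Fintype.card W ≤ F.card ∧
          F.card ≤ Fintype.card W ∧ β * Fintype.card W ≤ Sp.card ∧ 3 * Sp.card ≤ F.card := by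
  classical
  set c' := min c 1 with hc'
  have hc'0 : 0 < c' := lt_min hc one_pos
  have hc'1 : c' ≤ 1 := min_le_right _ _
  have hc'c : c' ≤ c := min_le_left _ _
  refine ⟨c' / 12, by positivity, ⌈32 / c'⌉₊ + 1, ?_⟩
  intro ε hε
  set η := min ε c' with hη
  have hη0 : 0 < η := lt_min hε hc'0
  have hηε : η ≤ ε := min_le_left _ _
  have hηc : η ≤ c' := min_le_right _ _
  set K := ⌈16 / η⌉₊ + 4 with hK
  have hKr : 16 / η ≤ (K : ℝ) := by
    rw [hK]
    push_cast
    have := Nat.le_ceil (16 / η)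
    linarith
  refine ⟨2 * ((K + 1) * (K - 1) + 1), K + 1, η / 32, by positivity, ⌈12 / c'⌉₊, ?_⟩
  intro W _ _ H _ M hn hcomp hc3 hM hMc
  set n := Fintype.card W with hndef
  obtain ⟨m, hm, hmadj, hmcard⟩ := exists_inv M hM
  obtain ⟨p, h, hR, hs, hpm⟩ := exists_rooted_matching H m hm hmadj
  obtain ⟨Z, prt, C, hZ⟩ := exists_ctx hR hs hc3 (K := K) (by omega) K
  obtain ⟨Sp, hG, hSp⟩ := C.sel hm (D0 := ⌈32 / c'⌉₊ + 1) (by omega)
  have hF := C.card_slF
  have hX := C.card_top (X := univ.filter fun v => v ∉ Z ∧ p v ∉ Z ∧ p v ≠ v ∧ p v ∉ prt v)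
    (fun v hv => (mem_filter.1 hv).2)
  have hB := card_many (F := slF p Z prt) (d := ⌈32 / c'⌉₊ + 1)
    (X := univ.filter fun v => ⌈32 / c'⌉₊ + 1 < (slAt (slF p Z prt) v).card)
    (fun v hv => (mem_filter.1 hv).2.le)
  have hRt := card_roots_le hs
  have hMc' := hmcard p hpm
  have hFn : (slF p Z prt).card ≤ n := card_slF_le
  set F := slF p Z prt with hFdef
  set x := (univ.filter fun v => v ∉ Z ∧ p v ∉ Z ∧ p v ≠ v ∧ p v ∉ prt v).card with hx
  set b := (univ.filter fun v => ⌈32 / c'⌉₊ + 1 < (slAt F v).card).card with hb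
  set r := (univ.filter fun v => p v = v).card with hr
  -- real versions
  have hn0 : 12 / c' ≤ (n : ℝ) := (Nat.le_ceil _).trans (by exact_mod_cast hn)
  have hn12 : 12 ≤ c' * n := by
    rw [div_le_iff₀ hc'0] at hn0
    linarith
  have hnpos : (0 : ℝ) ≤ n := Nat.cast_nonneg _
  have hn12' : (12 : ℝ) ≤ n := by nlinarith
  have hηn : 0 ≤ η * n := by positivity
  have hηn' : η * n ≤ c' * n := by gcongr
  have hηnε : η * n ≤ ε * n := by gcongr
  have hηn1 : η * n ≤ n := by nlinarith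
  have rZ : (Z.card : ℝ) ≤ η * n / 16 := by
    have h1 : ((K : ℝ) + 1) * Z.card ≤ n := by exact_mod_cast hZ
    have h2 : (16 / η) * Z.card ≤ n := by
      have : (0 : ℝ) ≤ Z.card := Nat.cast_nonneg _
      calc (16 / η) * Z.card ≤ ((K : ℝ) + 1) * Z.card := by gcongr; linarith
        _ ≤ n := h1
    rw [div_mul_eq_mul_div, div_le_iff₀ hη0] at h2
    linarith
  have rX : (x : ℝ) ≤ η * n / 16 := by
    have h1 : (K : ℝ) * x ≤ n := by exact_mod_cast hX
    have h2 : (16 / η) * x ≤ n := by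
      have : (0 : ℝ) ≤ x := Nat.cast_nonneg _
      calc (16 / η) * x ≤ (K : ℝ) * x := by gcongr
        _ ≤ n := h1
    rw [div_mul_eq_mul_div, div_le_iff₀ hη0] at h2
    linarith
  have rR : (r : ℝ) ≤ η * n / 32 := by
    have h1 : (r : ℝ) ≤ Nat.card H.ConnectedComponent := by exact_mod_cast hRt
    linarith
  have rB : (b : ℝ) ≤ c' * n / 16 := by
    have h1 : (((⌈32 / c'⌉₊ + 1 : ℕ) : ℝ)) * b ≤ 2 * (F.card : ℝ) := by exact_mod_cast hB
    have h2 : (F.card : ℝ) ≤ n := by exact_mod_cast hFn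
    have h3 : 32 / c' ≤ ((⌈32 / c'⌉₊ + 1 : ℕ) : ℝ) := by
      push_cast
      have := Nat.le_ceil (32 / c')
      linarith
    have h4 : (32 / c') * b ≤ 2 * n := by
      have : (0 : ℝ) ≤ b := Nat.cast_nonneg _
      calc (32 / c') * b ≤ ((⌈32 / c'⌉₊ + 1 : ℕ) : ℝ) * b := by gcongr
        _ ≤ 2 * n := by linarith
    rw [div_mul_eq_mul_div, div_le_iff₀ hc'0] at h4
    linarith
  have rF : (n : ℝ) ≤ F.card + Z.card + r + x := by exact_mod_cast hF
  have rS : ((MV p m).card : ℝ) ≤ 3 * Sp.card + 2 * Z.card + x + 2 * b + 3 * r := by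
    exact_mod_cast hSp
  have rM : c' * n ≤ ((MV p m).card : ℝ) := by
    have h1 : (M.edgeSet.ncard : ℝ) ≤ (MV p m).card := by exact_mod_cast hMc'
    have h2 : c' * n ≤ c * n := by gcongr
    linarith
  have rSp : c' / 12 * n + 1 ≤ (Sp.card : ℝ) := by linarith
  have hceil : ⌈c' / 12 * n⌉₊ ≤ Sp.card := by
    have h1 : (⌈c' / 12 * n⌉₊ : ℝ) < c' / 12 * n + 1 := Nat.ceil_lt_add_one (by positivity)
    have h2 : (⌈c' / 12 * n⌉₊ : ℝ) < Sp.card := lt_of_lt_of_le h1 rSp
    exact_mod_cast h2.le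
  obtain ⟨Sp', hsub, hcard'⟩ := Finset.exists_subset_card_eq hceil
  refine ⟨Z, F, ptOf prt Z, vpOf prt, Sp', C.toSkel (hG.mono hsub), ?_, ?_, hFn, ?_, ?_⟩
  · linarith
  · linarith
  · rw [hcard']
    exact Nat.le_ceil _
  · rw [hcard']
    have h1 : (⌈c' / 12 * n⌉₊ : ℝ) < c' / 12 * n + 1 := Nat.ceil_lt_add_one (by positivity)
    have h2 : (3 : ℝ) * (⌈c' / 12 * n⌉₊ : ℝ) ≤ F.card := by nlinarith
    exact_mod_cast h2

end Pool.Agent.AMX
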