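import Pool.Agent.AMX.Defs
import Pool.Agent.AMX.Skel

/-!
# The part system of a skeleton
-/

set_option autoImplicit false
set_option linter.unusedSectionVars false
set_option linter.unusedVariables false

namespace Pool.Agent.AMX

open Finset

section

variable {W : Type} [Fintype W] [DecidableEq W] {H : SimpleGraph W} {hub : Finset W}
  {F : Finset (Sym2 W)} {pt : Sym2 W → ℕ} {vp : W → ℕ} {Sp : Finset (Sym2 W)} {k D D0 : ℕ}

/-- the part of a vertex that is no hub is the part of one of its slots -/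
theorem Skel.vp_mem (hS : Skel H hub F pt vp Sp k D D0) (w : W) (hw : w ∉ hub) :
    vp w ∈ F.image pt := by
  obtain ⟨e, he⟩ := hS.has_slot w hw
  rw [slotsAt, mem_filter] at he
  exact mem_image.2 ⟨e, he.1, hS.vp_eq e he.1 w he.2 hw⟩

/-- The part system of a skeleton. -/
def buildPS (hS : Skel H hub F pt vp Sp k D D0) {p : ℕ} (c : W → ZMod p) (zt : Finset W) :
    PS {e // e ∈ F} {w // w ∉ hub} {i // i ∈ F.image pt} p where
  en := fun f => univ.filter fun w => (w : W) ∈ (f : Sym2 W)
  pt := fun f => ⟨pt f, mem_image_of_mem _ f.2⟩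
  vp := fun w => ⟨vp w, hS.vp_mem w w.2⟩
  c := fun w => c w
  zt := univ.filter fun w => (w : W) ∈ zt

/-- the gadget slots as slots -/
def spF (F Sp : Finset (Sym2 W)) : Finset {e // e ∈ F} := univ.filter fun e => (e : Sym2 W) ∈ Sp

private theorem map_slots (hS : Skel H hub F pt vp Sp k D D0) {p : ℕ} (c : W → ZMod p)
    (zt : Finset W) (w : {w // w ∉ hub}) :
    ((buildPS hS c zt).slots w).map (Function.Embedding.subtype _) = slotsAt F w := by
  ext e
  simp only [PS.slots, buildPS, slotsAt, mem_map, mem_filter, mem_univ, true_and,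
    Function.Embedding.subtype_apply, Subtype.exists, exists_and_left, exists_prop]
  constructor
  · rintro ⟨a, h1, h2, rfl⟩
    exact ⟨h2, h1⟩
  · rintro ⟨h1, h2⟩
    exact ⟨e, h2, h1, rfl⟩

private theorem card_slots (hS : Skel H hub F pt vp Sp k D D0) {p : ℕ} (c : W → ZMod p)
    (zt : Finset W) (w : {w // w ∉ hub}) :
    ((buildPS hS c zt).slots w).card = (slotsAt F w).card := by
  rw [← map_slots hS c zt w, card_map]

private theorem mem_en (hS : Skel H hub F pt vp Sp k D D0) {p : ℕ} (c : W → ZMod p)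
    (zt : Finset W) (f : {e // e ∈ F}) (w : {w // w ∉ hub}) :
    w ∈ (buildPS hS c zt).en f ↔ (w : W) ∈ (f : Sym2 W) := by
  simp only [buildPS, mem_filter, mem_univ, true_and]

private theorem map_erase_slots (hS : Skel H hub F pt vp Sp k D D0) {p : ℕ} (c : W → ZMod p)
    (zt : Finset W) (w : {w // w ∉ hub}) (f : {e // e ∈ F}) :
    (((buildPS hS c zt).slots w).erase f).map (Function.Embedding.subtype _) =
      (slotsAt F w).erase f := by
  rw [map_erase, map_slots hS c zt w]
  rfl

private theorem mem_spF (f : {e // e ∈ F}) : f ∈ spF F Sp ↔ (f : Sym2 W) ∈ Sp := by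
  simp only [spF, mem_filter, mem_univ, true_and]

private theorem en_le_two (hS : Skel H hub F pt vp Sp k D D0) {p : ℕ} (c : W → ZMod p)
    (zt : Finset W) (f : {e // e ∈ F}) : ((buildPS hS c zt).en f).card ≤ 2 := by
  obtain ⟨e, he⟩ := f
  induction e using Sym2.ind with
  | _ a b =>
    rw [← card_map (Function.Embedding.subtype _)]
    refine le_trans (card_le_card (t := {a, b}) ?_) card_le_two
    intro x hx
    rw [mem_map] at hx
    obtain ⟨y, hy, rfl⟩ := hx
    rw [mem_en] at hy
    simp only [Sym2.mem_iff] at hy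
    simp only [Function.Embedding.subtype_apply, mem_insert, mem_singleton]
    exact hy

private theorem spF_card_aux (hS : Skel H hub F pt vp Sp k D D0) : (spF F Sp).card = Sp.card := by
  rw [← card_map (Function.Embedding.subtype _)]
  congr 1
  ext e
  rw [mem_map]
  constructor
  · rintro ⟨f, hf, rfl⟩
    exact (mem_spF _).1 hf
  · intro he
    exact ⟨⟨e, hS.sp_sub he⟩, (mem_spF _).2 he, rfl⟩

theorem build_ok (hS : Skel H hub F pt vp Sp k D D0) {p : ℕ} (c : W → ZMod p) (zt : Finset W)
    (B : ℕ) (hzt : ∀ w ∈ zt, w ∉ hub → c w = 0 ∧ 2 ≤ (slotsAt F w).card)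
    (hmult : ∀ y, (univ.filter fun w => w ∉ hub ∧ w ∉ zt ∧ c w = y).card ≤ B) :
    (buildPS hS c zt).Ok k D B := by
  constructor
  · intro i
    rw [Set.ncard_eq_toFinset_card']
    refine le_trans ?_ (hS.part_le i)
    rw [← card_map (Function.Embedding.subtype _)]
    apply card_le_card
    intro e he
    rw [mem_map] at he
    obtain ⟨f, hf, rfl⟩ := he
    rw [Set.mem_toFinset] at hf
    rw [mem_filter]
    refine ⟨f.2, ?_⟩
    exact congrArg Subtype.val hf
  · rintro ⟨i, hi⟩
    obtain ⟨e, he, rfl⟩ := mem_image.1 hi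
    exact ⟨⟨e, he⟩, rfl⟩
  · intro f
    obtain ⟨w, hw, hw'⟩ := hS.nonhub f f.2
    exact ⟨⟨w, hw'⟩, (mem_en hS c zt f _).2 hw⟩
  · exact en_le_two hS c zt
  · intro f w hw
    rw [mem_en] at hw
    apply Subtype.ext
    exact hS.vp_eq f f.2 w hw w.2
  · intro w
    obtain ⟨e, he⟩ := hS.has_slot w w.2
    rw [← map_slots hS c zt w, mem_map] at he
    obtain ⟨f, hf, _⟩ := he
    exact ⟨f, hf⟩
  · intro w w' hne h
    apply hS.slots_ne w w' w.2 w'.2 (fun h' => hne (Subtype.ext h'))
    rw [← map_slots hS c zt w, ← map_slots hS c zt w', h]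
  · intro w
    rw [card_slots]
    exact hS.slots_le w w.2
  · intro w hw
    have hw1 : (w : W) ∈ zt := by
      simpa only [buildPS, mem_filter, mem_univ, true_and] using hw
    rw [card_slots]
    exact hzt w hw1 w.2
  · intro y
    refine le_trans ?_ (hmult y)
    rw [← card_map (Function.Embedding.subtype _)]
    apply card_le_card
    intro x hx
    rw [mem_map] at hx
    obtain ⟨w, hw, rfl⟩ := hx
    rw [mem_filter] at hw
    obtain ⟨_, hw1, hw2⟩ := hw
    rw [mem_filter]
    refine ⟨mem_univ _, w.2, ?_, hw2⟩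
    intro h
    apply hw1
    have h' : (w : W) ∈ zt := h
    simpa only [buildPS, mem_filter, mem_univ, true_and] using h'

theorem build_sp (hS : Skel H hub F pt vp Sp k D D0) {p : ℕ} (c : W → ZMod p) (zt : Finset W)
    (hle : 3 * Sp.card ≤ F.card) : (buildPS hS c zt).SpOk (spF F Sp) := by
  constructor
  · rintro ⟨e, he⟩ hf
    have hsp : e ∈ Sp := (mem_spF _).1 hf
    have hedge := hS.edge e he
    have hnh := hS.sp_nonhub e hsp
    induction e using Sym2.ind with
    | _ a b =>
      have hab : a ≠ b := (SimpleGraph.mem_edgeSet H).1 hedge |>.ne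
      have ha : a ∉ hub := hnh a (Sym2.mem_mk_left a b)
      have hb : b ∉ hub := hnh b (Sym2.mem_mk_right a b)
      rw [card_eq_two]
      refine ⟨⟨a, ha⟩, ⟨b, hb⟩, fun h => hab (congrArg Subtype.val h), ?_⟩
      ext w
      rw [mem_en]
      simp only [Sym2.mem_iff, mem_insert, mem_singleton, Subtype.ext_iff]
  · intro f hf g hg hne
    rw [disjoint_left]
    intro w hw hw'
    rw [mem_en] at hw hw'
    exact hS.sp_disj f ((mem_spF _).1 hf) g ((mem_spF _).1 hg) (fun h => hne (Subtype.ext h)) w hw hw'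
  · intro f hf u hu w h
    rw [mem_en] at hu
    apply hS.sp_star f ((mem_spF _).1 hf) u hu w w.2
    rw [← map_slots hS c zt w, ← map_erase_slots hS c zt u f, h]
  · intro f hf g hg u hu v hv huv h
    rw [mem_en] at hu hv
    have h1 := hS.sp_keys f ((mem_spF _).1 hf) g ((mem_spF _).1 hg) u hu v hv
      (fun h => huv (Subtype.ext h))
      (by rw [← map_erase_slots hS c zt u f, ← map_erase_slots hS c zt v g, h])
    rw [← map_erase_slots hS c zt u f, map_eq_empty] at h1
    exact h1
  · rw [spF_card_aux hS, Fintype.card_coe]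
    exact hle

/-- ends of gadgets have at most `D0` slots -/
theorem build_le (hS : Skel H hub F pt vp Sp k D D0) {p : ℕ} (c : W → ZMod p) (zt : Finset W) :
    ∀ f ∈ spF F Sp, ∀ w ∈ (buildPS hS c zt).en f, ((buildPS hS c zt).slots w).card ≤ D0 := by
  intro f hf w hw
  rw [mem_en] at hw
  rw [card_slots]
  exact hS.sp_le f ((mem_spF _).1 hf) w hw

theorem spF_card (hS : Skel H hub F pt vp Sp k D D0) : (spF F Sp).card = Sp.card := by
  exact spF_card_aux hS

end

end Pool.Agent.AMX
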