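import Pool.Agent.AMX.Br3
import Pool.Agent.AMA.Parts

/-!
# The theorem on part systems
-/

set_option autoImplicit false
set_option linter.unusedSectionVars false
set_option linter.unusedVariables false

namespace Pool.Agent.AMX

open Finset
open Pool.Agent.AMA (Frm PSys PSOK Spec LamOK Occ GOK bb gam parts)

theorem bb_pos {ν ν' : ℝ} (hν : 0 < ν) (hν' : 0 < ν') (k0 : ℕ) : 0 < bb ν ν' k0 := by
  have h1 : 0 < gam ν k0 := by
    unfold gam
    exact lt_min (by positivity) (by norm_num)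
  unfold bb
  positivity

/-- **Theorem on part systems.** -/
theorem PT (D0 : ℕ) (β : ℝ) (hβ : 0 < β) :
    ∃ q0 : ℝ, 0 < q0 ∧ ∀ (k D B : ℕ) (C d : ℝ), 0 < C → 0 < d → ∃ n0 : ℕ,
      ∀ (F W I : Type) [Fintype F] [DecidableEq F] [Fintype W] [DecidableEq W]
        [Fintype I] [DecidableEq I] (p : ℕ) [NeZero p] (S : PS F W I p) (L : Finset ℕ)
        (lo len : ℕ) (Sp : Finset F), n0 ≤ Fintype.card F → S.Ok k D B → S.SpOk Sp →
        (∀ f ∈ Sp, ∀ u ∈ S.en f, (S.slots u).card ≤ D0) →
        L.card = Fintype.card F → (∀ a ∈ L, lo ≤ a ∧ a < lo + len) →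
        (2 * k + 1) * (len + 2) ≤ p → (p : ℝ) ≤ C * Fintype.card F →
        β * Fintype.card F ≤ Sp.card →
        (Fintype.card W : ℝ) ≤ (1 + d / 2) * Fintype.card F →
        ∃ (T : Finset (ZMod p)) (lab : F → ℕ) (Rg : Finset W) (Gd : Finset F),
          Out S L Sp T lab Rg Gd (q0 * Fintype.card F) (B + 3) ∧
          (Fintype.card W : ℝ) - Rg.card ≤ d * Fintype.card F := by
  classical
  have hbb : 0 < bb (β / 2) β D0 := bb_pos (by positivity) hβ D0
  refine ⟨bb (β / 2) β D0 / 2, by positivity, ?_⟩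
  intro k D B C d hC hd
  obtain ⟨N0, hN0⟩ := parts (2 * k) D0 B (1 / 2) C (β / 2) β (d / (8 * (k + 1))) (by norm_num) hC
    (by positivity) hβ (by positivity)
  refine ⟨max N0 (max 1 (max ⌈8 * k / d⌉₊ ⌈2 * k / bb (β / 2) β D0⌉₊)), ?_⟩
  intro F W I _ _ _ _ _ _ p _ S L lo len Sp hn hok hsp hsp0 hL hlo hp hpC hSp hW
  have hn1 : N0 ≤ Fintype.card F := (le_max_left _ _).trans hn
  have hn2 : 1 ≤ Fintype.card F := ((le_max_left _ _).trans (le_max_right _ _)).trans hn
  have hn3 : 8 * (k : ℝ) / d ≤ Fintype.card F := by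
    refine (Nat.le_ceil _).trans ?_
    exact_mod_cast ((le_max_left _ _).trans ((le_max_right _ _).trans (le_max_right _ _))).trans hn
  have hn4 : 2 * (k : ℝ) / bb (β / 2) β D0 ≤ Fintype.card F := by
    refine (Nat.le_ceil _).trans ?_
    exact_mod_cast ((le_max_right _ _).trans ((le_max_right _ _).trans (le_max_right _ _))).trans hn
  rw [div_le_iff₀ hd] at hn3
  rw [div_le_iff₀ hbb] at hn4
  -- injections of the parts
  have hpart : ∀ i, (univ.filter fun f => S.pt f = i).card ≤ k := by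
    intro i
    have := hok.part_le i
    rwa [Set.ncard_eq_toFinset_card', Set.toFinset_ofPred] at this
  obtain ⟨ι, hι⟩ := exists_iota S.pt k (2 * k) hpart (by omega)
  -- the ignored vertices
  set U : Finset W := univ \ Sp.biUnion S.en with hU
  have hUc : Fintype.card W ≤ U.card + 2 * Sp.card := by
    have h1 : (Sp.biUnion S.en).card ≤ Sp.card * 2 :=
      card_biUnion_le_card_mul _ _ _ fun f _ => hok.en_le f
    have h2 : U.card + (Sp.biUnion S.en).card = Fintype.card W := by
      rw [hU, card_sdiff_add_card_eq_card (subset_univ _), card_univ]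
    omega
  have h3 := hsp.le
  obtain ⟨W0, hW0U, hW0c⟩ := exists_subset_card_eq
    (show Fintype.card W - Fintype.card F ≤ U.card by omega)
  have hW0 : ∀ f ∈ Sp, ∀ u ∈ S.en f, u ∉ W0 := by
    intro f hf u hu h
    have := hW0U h
    rw [hU, mem_sdiff] at this
    exact this.2 (mem_biUnion.2 ⟨f, hf, hu⟩)
  have hW0n : (univ.filter fun w => w ∉ W0).card ≤ Fintype.card F := by
    have : (univ.filter fun w => w ∉ W0) = univ \ W0 := by
      ext w
      simp
    rw [this, card_sdiff_of_subset (subset_univ _), card_univ, hW0c]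
    omega
  have H : Br_OK S ι W0 Sp k D D0 B := ⟨hok, hsp, hsp0, hι, hW0⟩
  -- the labels
  set X1 : Finset ℕ := L.image fun a => a + 1 - lo with hX1
  have hX1c : X1.card = Fintype.card F := by
    rw [hX1, card_image_of_injOn, hL]
    intro a ha b hb h
    have h1 := (hlo a ha).1
    have h2 := (hlo b hb).1
    simp only at h
    omega
  have hX1m : ∀ a ∈ X1, 1 ≤ a ∧ a ≤ len ∧ a + lo - 1 ∈ L := by
    intro a ha
    obtain ⟨b, hb, rfl⟩ := mem_image.1 ha
    have h1 := hlo b hb
    refine ⟨by omega, by omega, ?_⟩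
    have : b + 1 - lo + lo - 1 = b := by omega
    rwa [this]
  set h0 := (Fintype.card F + 1) / 2 with hh0
  obtain ⟨X, hX1X, hXc, hXm⟩ : ∃ X : Finset ℕ, X1 ⊆ X ∧ X.card = 2 * h0 ∧
      ∀ a ∈ X, a ∈ X1 ∨ a = len + 1 := by
    rcases Nat.even_or_odd (Fintype.card F) with he | ho
    · obtain ⟨j, hj⟩ := he
      exact ⟨X1, subset_refl _, by omega, fun a ha => Or.inl ha⟩
    · obtain ⟨j, hj⟩ := ho
      refine ⟨insert (len + 1) X1, subset_insert _ _, ?_, ?_⟩
      · rw [card_insert_of_notMem, hX1c]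
        · omega
        · intro h
          have := (hX1m _ h).2.1
          omega
      · intro a ha
        rcases mem_insert.1 ha with h | h
        · exact Or.inr h
        · exact Or.inl h
  obtain ⟨A, hAX, hAc, hAlt⟩ := Br_split X h0 (by omega)
  have hLam : LamOK (Br_Lam X A) (Br_h h0) (len + 1) := by
    refine Br_LamOK hXc hAX hAc hAlt ?_ ?_
    · intro a ha
      rcases hXm a ha with h | h
      · exact (hX1m a h).1
      · omega
    · intro a ha
      rcases hXm a ha with h | h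
      · have := (hX1m a h).2.1
        omega
      · omega
  have hk2 : 2 * k * (len + 1) ≤ 2 * k * (len + 2) := Nat.mul_le_mul_left _ (by omega)
  have hexp : (2 * k + 1) * (len + 2) = 2 * k * (len + 2) + (len + 2) := by ring
  have hPS : PSOK (Br_sys S ι lo W0 Sp) (Br_Lam X A) (Br_h h0) (len + 1) p (Fintype.card F) D0 B
      (1 / 2) C (β / 2) β (Br_Sp S ι lo Sp) (fun b => Br_Lam X A b 0) :=
    Br_PSOK H rfl hLam (by omega) (by omega) hpC (by omega) (by omega) hβ.le hSp hW0n
  obtain ⟨T, Pm, x, hPm, hxL, hdist, hnT, hTlt, htest⟩ := hN0 I (Br_sys S ι lo W0 Sp)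
    (Br_Lam X A) (Br_h h0) (len + 1) p (Fintype.card F) (Br_Sp S ι lo Sp)
    (fun b => Br_Lam X A b 0) hn1 hPS
  -- the parts without the dummy label
  set Pm' : Finset I := Pm.filter fun Q => ∀ f, S.pt f = Q → x Q (ι f) ≤ len with hPm'
  have hPs : Pm' ⊆ Pm := filter_subset _ _
  have hbad : (Pm \ Pm').card ≤ 1 := by
    rw [card_le_one]
    intro Q hQ Q' hQ'
    have hex : ∀ Q ∈ Pm \ Pm', Q ∈ Pm ∧ ∃ f, S.pt f = Q ∧ x Q (ι f) = len + 1 := by
      intro Q hQ
      rw [mem_sdiff] at hQ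
      refine ⟨hQ.1, ?_⟩
      by_contra hcon
      push Not at hcon
      refine hQ.2 (mem_filter.2 ⟨hQ.1, fun f hf => ?_⟩)
      have h1 := hxL Q hQ.1 (ι f) true (Br_kd_some.2 ⟨f, hf, rfl⟩)
      have h2 : x Q (ι f) ∈ X := by simpa [Br_Lam] using h1
      rcases hXm _ h2 with h3 | h3
      · exact (hX1m _ h3).2.1
      · exact absurd h3 (hcon f hf)
    obtain ⟨h1, f, hf, hfx⟩ := hex Q hQ
    obtain ⟨h1', f', hf', hfx'⟩ := hex Q' hQ'
    refine (hdist Q h1 Q' h1' _ (Br_cf_lab hf) _ (Br_cf_lab hf') rfl ?_).1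
    simp [Pool.Agent.AMA.val, hfx, hfx']
  have hlab1 : ∀ f, S.pt f ∈ Pm' → 1 ≤ x (S.pt f) (ι f) ∧ x (S.pt f) (ι f) + lo - 1 ∈ L := by
    intro f hf
    rw [hPm', mem_filter] at hf
    have h1 := hxL _ hf.1 (ι f) true (Br_kd_some.2 ⟨f, rfl, rfl⟩)
    have h2 : x (S.pt f) (ι f) ∈ X := by simpa [Br_Lam] using h1
    rcases hXm _ h2 with h3 | h3
    · exact ⟨(hX1m _ h3).1, (hX1m _ h3).2.2⟩
    · exact absurd (hf.2 f rfl) (by omega)
  have hRes : Br_Res S ι lo W0 Sp len L T Pm' x := by
    refine ⟨hTlt, hlab1, ?_, ?_⟩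
    · intro Q hQ Q' hQ' u hu v hv ht h
      exact hdist Q (hPs hQ) Q' (hPs hQ') u hu v hv ht (Br_mod_eq_iff.2 h)
    · intro Q hQ φ hφ
      exact hnT Q (hPs hQ) φ hφ
  -- extension of the labelling
  obtain ⟨lab, hinj, hmem, hlabeq⟩ := exists_extend L hL (univ.filter fun f => S.pt f ∈ Pm')
    (fun f => x (S.pt f) (ι f) + lo - 1) (by
      intro f hf g hg h
      simp only [mem_filter, mem_univ, true_and] at hf hg
      have h1 := (hlab1 f hf).1
      have h2 := (hlab1 g hg).1
      have h3 : x (S.pt f) (ι f) = x (S.pt g) (ι g) := by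
        omega
      obtain ⟨h4, h5⟩ := hdist _ (hPs hf) _ (hPs hg) _ (Br_cf_lab (f := f) rfl) _
        (Br_cf_lab (f := g) rfl) rfl (by simp [Pool.Agent.AMA.val, h3])
      refine hι f g h4 ?_
      have h6 := congrArg (fun z => z.2.1) h5
      simpa using h6) (by
      intro f hf
      simp only [mem_filter, mem_univ, true_and] at hf
      exact (hlab1 f hf).2)
  refine ⟨_, lab, _, _, Br_out H hRes lab hinj hmem (fun f hf => hlabeq f (by simp [hf]))
    (fun b => Br_Lam X A b 0) (q := bb (β / 2) β D0 / 2 * Fintype.card F) ?_, ?_⟩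
  · intro y π1 π2
    have h1 := htest y π1 π2
    have h2 : ∑ Q ∈ Pm, ((((Br_sys S ι lo W0 Sp).Gd Q).filter
        (GOK (Br_sys S ι lo W0 Sp) (fun b => Br_Lam X A b 0) p T Q (x Q) y π1 π2)).card : ℝ) =
        ∑ Q ∈ Pm \ Pm', ((((Br_sys S ι lo W0 Sp).Gd Q).filter
        (GOK (Br_sys S ι lo W0 Sp) (fun b => Br_Lam X A b 0) p T Q (x Q) y π1 π2)).card : ℝ) +
        ∑ Q ∈ Pm', ((((Br_sys S ι lo W0 Sp).Gd Q).filter
        (GOK (Br_sys S ι lo W0 Sp) (fun b => Br_Lam X A b 0) p T Q (x Q) y π1 π2)).card : ℝ) :=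
      (sum_sdiff hPs).symm
    have h3 : ∑ Q ∈ Pm \ Pm', ((((Br_sys S ι lo W0 Sp).Gd Q).filter
        (GOK (Br_sys S ι lo W0 Sp) (fun b => Br_Lam X A b 0) p T Q (x Q) y π1 π2)).card : ℝ) ≤
        k := by
      have h4 : ∀ Q ∈ Pm \ Pm', ((((Br_sys S ι lo W0 Sp).Gd Q).filter
        (GOK (Br_sys S ι lo W0 Sp) (fun b => Br_Lam X A b 0) p T Q (x Q) y π1 π2)).card : ℝ) ≤
        k := by
        intro Q _
        have h5 : (((Br_sys S ι lo W0 Sp).Gd Q).filter
          (GOK (Br_sys S ι lo W0 Sp) (fun b => Br_Lam X A b 0) p T Q (x Q) y π1 π2)).card ≤ k := by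
          refine (card_filter_le _ _).trans ((H.card_Gd Q).trans ?_)
          exact (card_le_card (filter_subset_filter _ (subset_univ _))).trans (hpart Q)
        exact_mod_cast h5
      refine (sum_le_sum h4).trans ?_
      rw [sum_const, nsmul_eq_mul]
      have h5 : (((Pm \ Pm').card : ℕ) : ℝ) ≤ 1 := by exact_mod_cast hbad
      have h6 : (0 : ℝ) ≤ k := Nat.cast_nonneg _
      nlinarith
    rw [h2] at h1
    linarith
  · -- the number of irregular vertices
    have h1 : (univ \ (univ.filter fun w => w ∉ W0 ∧ S.vp w ∈ Pm')) ⊆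
        W0 ∪ (univ \ Pm').biUnion fun i => univ.filter fun w => S.vp w = i := by
      intro w hw
      simp only [mem_sdiff, mem_univ, mem_filter, true_and, not_and] at hw
      by_cases h : w ∈ W0
      · exact mem_union_left _ h
      · refine mem_union_right _ (mem_biUnion.2 ⟨S.vp w, ?_, by simp⟩)
        exact mem_sdiff.2 ⟨mem_univ _, hw h⟩
    have h2 := card_le_card h1
    have h3 := card_union_le W0 ((univ \ Pm').biUnion fun i => univ.filter fun w => S.vp w = i)
    have h4 : ((univ \ Pm').biUnion fun i => univ.filter fun w => S.vp w = i).card ≤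
        (univ \ Pm').card * (2 * k) :=
      card_biUnion_le_card_mul _ _ _ fun i _ => H.card_vert i
    have h5 : (univ \ Pm').card ≤ (univ \ Pm).card + 1 := by
      have : univ \ Pm' ⊆ (univ \ Pm) ∪ (Pm \ Pm') := by
        intro Q hQ
        rw [mem_sdiff] at hQ
        by_cases h : Q ∈ Pm
        · exact mem_union_right _ (mem_sdiff.2 ⟨h, hQ.2⟩)
        · exact mem_union_left _ (mem_sdiff.2 ⟨mem_univ _, h⟩)
      have h6 := card_le_card this
      have h7 := card_union_le (univ \ Pm) (Pm \ Pm')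
      omega
    have h6 : Fintype.card W = (univ.filter fun w => w ∉ W0 ∧ S.vp w ∈ Pm').card +
        (univ \ (univ.filter fun w => w ∉ W0 ∧ S.vp w ∈ Pm')).card := by
      rw [card_sdiff_of_subset (subset_univ _), card_univ]
      have := card_le_univ (univ.filter fun w => w ∉ W0 ∧ S.vp w ∈ Pm')
      omega
    have h7 : (Fintype.card W : ℝ) - (univ.filter fun w => w ∉ W0 ∧ S.vp w ∈ Pm').card ≤
        W0.card + ((univ \ Pm).card + 1) * (2 * k) := by
      have h8 : Fintype.card W ≤ (univ.filter fun w => w ∉ W0 ∧ S.vp w ∈ Pm').card +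
          (W0.card + ((univ \ Pm).card + 1) * (2 * k)) := by
        have h9 : (univ \ Pm').card * (2 * k) ≤ ((univ \ Pm).card + 1) * (2 * k) :=
          Nat.mul_le_mul_right _ h5
        omega
      have h9 : ((Fintype.card W : ℕ) : ℝ) ≤
          ((univ.filter fun w => w ∉ W0 ∧ S.vp w ∈ Pm').card +
          (W0.card + ((univ \ Pm).card + 1) * (2 * k)) : ℕ) := by exact_mod_cast h8
      push_cast at h9
      linarith
    refine h7.trans ?_
    have h8 : (W0.card : ℝ) ≤ d / 2 * Fintype.card F := by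
      rw [hW0c]
      by_cases h : Fintype.card F ≤ Fintype.card W
      · rw [Nat.cast_sub h]
        linarith
      · rw [Nat.sub_eq_zero_of_le (by omega)]
        simp only [Nat.cast_zero]
        positivity
    have hk0 : (0 : ℝ) ≤ k := Nat.cast_nonneg _
    have h9 : d / (8 * (k + 1)) * Fintype.card F * (2 * k) ≤ d / 4 * Fintype.card F := by
      have h10 : d / (8 * ((k : ℝ) + 1)) * (2 * k) ≤ d / 4 := by
        rw [div_mul_eq_mul_div, div_le_div_iff₀ (by positivity) (by norm_num)]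
        nlinarith
      have h11 : (0 : ℝ) ≤ Fintype.card F := Nat.cast_nonneg _
      calc d / (8 * (k + 1)) * Fintype.card F * (2 * k)
          = (d / (8 * ((k : ℝ) + 1)) * (2 * k)) * Fintype.card F := by ring
        _ ≤ d / 4 * Fintype.card F := mul_le_mul_of_nonneg_right h10 h11
    have h10 : (((univ \ Pm).card : ℝ) + 1) * (2 * k) ≤
        d / (8 * (k + 1)) * Fintype.card F * (2 * k) + 2 * k := by
      have := mul_le_mul_of_nonneg_right hPm (show (0 : ℝ) ≤ 2 * k by positivity)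
      linarith
    linarith

end Pool.Agent.AMX
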