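import Mathlib

/-!
# Repair of an antimagic labelling by label swaps

`en e` are the ends of the edge `e` (one or two); sums are taken in `ZMod p`, `c` are fixed offsets.
`Rg`: regular vertices, with distinct sums outside `T`; `Gd`: gadget edges between regular vertices;
`SE`: exchangeable edges. Irregular vertices are repaired one after the other by exchanging the label
of an edge of `SE` with the label of a fresh gadget edge; all changed sums are moved into `T`.
`repair2`: general version; `repair`: all edges are exchangeable and have two ends.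
-/

set_option autoImplicit false
set_option linter.unusedSectionVars false
set_option linter.unusedVariables false

namespace Pool.Agent.AMX

open Finset

variable {E W : Type*} [Fintype E] [DecidableEq E] [Fintype W] [DecidableEq W] {p : ℕ}

/-- sum at a vertex -/
def vsum (en : E → Finset W) (c : W → ZMod p) (f : E → ℕ) (w : W) : ZMod p :=
  c w + ∑ e ∈ univ.filter (fun e => w ∈ en e), (f e : ZMod p)

theorem vsum_swap (en : E → Finset W) (c : W → ZMod p) (f : E → ℕ) {e g : E} (heg : e ≠ g) (w : W) :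
    vsum en c (f ∘ Equiv.swap e g) w = vsum en c f w +
      (if w ∈ en e then (f g : ZMod p) - f e else 0) + (if w ∈ en g then (f e : ZMod p) - f g else 0) := by
  classical
  have key : ∀ x : E, ((f (Equiv.swap e g x) : ℕ) : ZMod p) = (f x : ZMod p) +
      (if x = e then (f g : ZMod p) - f e else 0) + (if x = g then (f e : ZMod p) - f g else 0) := by
    intro x
    by_cases h1 : x = e
    · subst h1
      have h3 : x ≠ g := heg
      simp [h3]
    · by_cases h2 : x = g
      · subst h2
        simp [h1]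
      · rw [Equiv.swap_apply_of_ne_of_ne h1 h2]
        simp [h1, h2]
  unfold vsum
  have h1 : ∑ x ∈ univ.filter (fun e => w ∈ en e), (((f ∘ Equiv.swap e g) x : ℕ) : ZMod p) =
      ∑ x ∈ univ.filter (fun e => w ∈ en e), ((f x : ZMod p) +
      (if x = e then (f g : ZMod p) - f e else 0) + (if x = g then (f e : ZMod p) - f g else 0)) := by
    refine sum_congr rfl fun x _ => ?_
    simpa using key x
  rw [h1, sum_add_distrib, sum_add_distrib, sum_ite_eq', sum_ite_eq']
  simp only [mem_filter, mem_univ, true_and]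
  ring

/-- the hypotheses of the repair lemma -/
structure RepHyp2 (en : E → Finset W) (c : W → ZMod p) (f : E → ℕ) (T : Finset (ZMod p))
    (Rg : Finset W) (Gd SE : Finset E) (B : ℕ) : Prop where
  two : ∀ e ∈ SE ∪ Gd, (en e).Nonempty ∧ (en e).card ≤ 2
  simple : ∀ e ∈ SE, ∀ e' ∈ SE, e ≠ e' → (en e ∩ en e').card ≤ 1
  cov : ∀ w, w ∉ Rg → ∃ e ∈ SE, w ∈ en e ∧
    ((en e).card = 2 → ∃ e' ∈ SE, e' ≠ e ∧ (en e ∩ en e').Nonempty)
  sinj : ∀ w ∈ Rg, ∀ w' ∈ Rg, vsum en c f w = vsum en c f w' → w = w'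
  nT : ∀ w ∈ Rg, vsum en c f w ∉ T
  gRg : ∀ g ∈ Gd, en g ⊆ Rg
  gdisj : ∀ g ∈ Gd, ∀ g' ∈ Gd, g ≠ g' → Disjoint (en g) (en g')
  ginj : ∀ g ∈ Gd, ∀ g' ∈ Gd, (f g : ZMod p) = f g' → g = g'
  key : ∀ y : ZMod p, (Gd.filter fun g => ∃ u ∈ en g, vsum en c f u - f g = y).card ≤ B
  test : ∀ C1 C2 l : ZMod p, 8 * (B + 3) * (univ \ Rg).card + 2 * (B + 3) <
    (Gd.filter fun g => C1 + f g ∈ T ∧ C2 + f g ∈ T ∧ ∀ u ∈ en g, vsum en c f u - f g + l ∈ T ∧
      vsum en c f u - f g + l ≠ C1 + f g ∧ vsum en c f u - f g + l ≠ C2 + f g).card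

variable {en : E → Finset W} {c : W → ZMod p} {f : E → ℕ} {T : Finset (ZMod p)} {Rg : Finset W}
  {Gd SE : Finset E} {B : ℕ}

/-- the state: a permutation `σ` of the labels and the set `M` of touched vertices; `X` contains the
pairs of touched vertices whose sums may coincide -/
structure St (en : E → Finset W) (c : W → ZMod p) (f : E → ℕ) (T : Finset (ZMod p))
    (Gd SE : Finset E) (σ : Equiv.Perm E) (M X : Finset W) : Prop where
  lab : ∀ e, ¬ en e ⊆ M → σ e = e
  out : ∀ e, e ∉ SE ∪ Gd → σ e = e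
  se : ∀ e ∈ SE, e ∉ Gd → σ e = e ∨ σ e ∈ Gd
  inT : ∀ v ∈ M, vsum en c (f ∘ σ) v ∈ T
  uni : ∀ v ∈ M, ∀ w, w ≠ v → vsum en c (f ∘ σ) v = vsum en c (f ∘ σ) w → v ∈ X ∧ w ∈ X

theorem St.vsum_eq {σ : Equiv.Perm E} {M X : Finset W} (h : St en c f T Gd SE σ M X) {w : W}
    (hw : w ∉ M) : vsum en c (f ∘ σ) w = vsum en c f w := by
  unfold vsum
  congr 1
  refine sum_congr rfl fun e he => ?_
  rw [Function.comp_apply, h.lab e (fun hs => hw (hs (by simpa using he)))]

/-- the fresh gadget -/
theorem exists_gadget (H : RepHyp2 en c f T Rg Gd SE B) (f' : E → ℕ) {M : Finset W}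
    (e : E) (he : e ∈ SE) (hM : M.card ≤ 7 * (univ \ Rg).card) (C1 C2 l : ZMod p) :
    ∃ g ∈ Gd, Disjoint (en g) (M ∪ en e) ∧ (C1 + f g ∈ T ∧ C2 + f g ∈ T ∧
      ∀ u ∈ en g, vsum en c f u - f g + l ∈ T ∧
      vsum en c f u - f g + l ≠ C1 + f g ∧ vsum en c f u - f g + l ≠ C2 + f g) ∧
      ∀ w ∈ M ∪ (univ \ Rg), C1 + f g ≠ vsum en c f' w ∧ C2 + f g ≠ vsum en c f' w ∧
        ∀ u ∈ en g, vsum en c f u - f g + l ≠ vsum en c f' w := by
  classical
  by_contra hcon
  push Not at hcon
  -- the bad gadgets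
  set A : Finset E := Gd.filter fun g => C1 + f g ∈ T ∧ C2 + f g ∈ T ∧ ∀ u ∈ en g,
      vsum en c f u - f g + l ∈ T ∧
      vsum en c f u - f g + l ≠ C1 + f g ∧ vsum en c f u - f g + l ≠ C2 + f g with hA
  have hAlt := H.test C1 C2 l
  rw [← hA] at hAlt
  set A1 : W → Finset E := fun w => Gd.filter fun g => w ∈ en g with hA1
  set A2 : W → Finset E := fun w => Gd.filter fun g => C1 + f g = vsum en c f' w with hA2
  set A3 : W → Finset E := fun w => Gd.filter fun g => C2 + f g = vsum en c f' w with hA3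
  set A4 : W → Finset E := fun w => Gd.filter fun g =>
    ∃ u ∈ en g, vsum en c f u - f g = vsum en c f' w - l with hA4
  have h1 : ∀ w, (A1 w).card ≤ 1 := by
    intro w
    rw [card_le_one]
    intro g hg g' hg'
    simp only [hA1, mem_filter] at hg hg'
    by_contra hne
    exact (Finset.disjoint_left.1 (H.gdisj g hg.1 g' hg'.1 hne)) hg.2 hg'.2
  have h2 : ∀ w, (A2 w).card ≤ 1 := by
    intro w
    rw [card_le_one]
    intro g hg g' hg'
    simp only [hA2, mem_filter] at hg hg'
    exact H.ginj g hg.1 g' hg'.1 (by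
      have := hg.2.trans hg'.2.symm
      exact add_left_cancel this)
  have h3 : ∀ w, (A3 w).card ≤ 1 := by
    intro w
    rw [card_le_one]
    intro g hg g' hg'
    simp only [hA3, mem_filter] at hg hg'
    exact H.ginj g hg.1 g' hg'.1 (by
      have := hg.2.trans hg'.2.symm
      exact add_left_cancel this)
  have h4 : ∀ w, (A4 w).card ≤ B := fun w => H.key _
  have hsub : A ⊆ (M ∪ en e).biUnion A1 ∪
      (M ∪ (univ \ Rg)).biUnion (fun w => A2 w ∪ A3 w ∪ A4 w) := by
    intro g hg
    simp only [hA, mem_filter] at hg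
    obtain ⟨hgG, hv⟩ := hg
    by_cases hd : Disjoint (en g) (M ∪ en e)
    · obtain ⟨w, hw, hw'⟩ := hcon g hgG hd hv
      refine mem_union_right _ (mem_biUnion.2 ⟨w, hw, ?_⟩)
      by_cases hc1 : C1 + f g = vsum en c f' w
      · exact mem_union_left _ (mem_union_left _ (by simp [hA2, hgG, hc1]))
      by_cases hc2 : C2 + f g = vsum en c f' w
      · exact mem_union_left _ (mem_union_right _ (by simp [hA3, hgG, hc2]))
      obtain ⟨u, hu, hu'⟩ := hw' hc1 hc2
      refine mem_union_right _ ?_
      simp only [hA4, mem_filter]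
      exact ⟨hgG, u, hu, by rw [← hu']; ring⟩
    · rw [Finset.not_disjoint_iff] at hd
      obtain ⟨w, hw1, hw2⟩ := hd
      exact mem_union_left _ (mem_biUnion.2 ⟨w, hw2, by simp [hA1, hgG, hw1]⟩)
  have hle : A.card ≤ (M ∪ en e).card * 1 + (M ∪ (univ \ Rg)).card * (B + 2) := by
    refine (card_le_card hsub).trans ((card_union_le _ _).trans (Nat.add_le_add ?_ ?_))
    · exact card_biUnion_le_card_mul _ _ _ fun w _ => h1 w
    · refine card_biUnion_le_card_mul _ _ _ fun w _ => ?_
      refine (card_union_le _ _).trans ?_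
      have := card_union_le (A2 w) (A3 w)
      have h22 := h2 w
      have h33 := h3 w
      have h44 := h4 w
      omega
  have hc1 : (M ∪ en e).card ≤ 7 * (univ \ Rg).card + 2 := by
    refine (card_union_le _ _).trans ?_
    have := (H.two e (mem_union_left _ he)).2
    omega
  have hc2 : (M ∪ (univ \ Rg)).card ≤ 8 * (univ \ Rg).card := by
    refine (card_union_le _ _).trans ?_
    omega
  have h5 : (M ∪ (univ \ Rg)).card * (B + 2) ≤ 8 * (univ \ Rg).card * (B + 2) :=
    Nat.mul_le_mul_right _ hc2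
  have h6 : 8 * (B + 3) * (univ \ Rg).card = 8 * (univ \ Rg).card * (B + 2) +
    8 * (univ \ Rg).card := by ring
  omega

/-- one swap -/
theorem stepA (H : RepHyp2 en c f T Rg Gd SE B) {σ : Equiv.Perm E} {M X : Finset W}
    (hSt : St en c f T Gd SE σ M X) (e : E) (he : e ∈ SE) (hM : M.card ≤ 7 * (univ \ Rg).card) :
    ∃ g : E, ∃ M' : Finset W, M'.card ≤ M.card + (en e \ M).card + 2 ∧ M ⊆ M' ∧ en e ⊆ M' ∧
      (∀ e', ¬ en e' ⊆ M' → (σ * Equiv.swap e g) e' = e') ∧
      (∀ e', e' ∉ SE ∪ Gd → (σ * Equiv.swap e g) e' = e') ∧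
      (∀ e' ∈ SE, e' ∉ Gd → (σ * Equiv.swap e g) e' = e' ∨ (σ * Equiv.swap e g) e' ∈ Gd) ∧
      (∀ v ∈ M', vsum en c (f ∘ (σ * Equiv.swap e g)) v ∈ T) ∧
      (∀ v ∈ M', ∀ w, w ≠ v →
        vsum en c (f ∘ (σ * Equiv.swap e g)) v = vsum en c (f ∘ (σ * Equiv.swap e g)) w →
        (v ∈ en e ∧ w ∈ en e ∧ vsum en c (f ∘ σ) v = vsum en c (f ∘ σ) w) ∨
        (v ∈ X \ en e ∧ w ∈ X \ en e)) ∧
      (∀ v ∈ en e, ∀ w ∉ en e,
        vsum en c (f ∘ (σ * Equiv.swap e g)) v ≠ vsum en c (f ∘ (σ * Equiv.swap e g)) w) := by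
  classical
  obtain ⟨hene, hec⟩ := H.two e (mem_union_left _ he)
  obtain ⟨a, b, hen⟩ : ∃ a b, en e = {a, b} := by
    obtain ⟨a, ha⟩ := hene
    rcases Nat.lt_or_ge (en e).card 2 with h | h
    · have h1 : (en e).card = 1 := by
        have := card_pos.2 ⟨a, ha⟩
        omega
      obtain ⟨a', ha'⟩ := card_eq_one.1 h1
      exact ⟨a', a', by rw [ha']; simp⟩
    · obtain ⟨x, y, -, hxy⟩ := card_eq_two.1 (le_antisymm hec h)
      exact ⟨x, y, hxy⟩
  obtain ⟨g, hgG, hdis, ⟨hT1, hT2, hTu⟩, hfree⟩ := exists_gadget H (f ∘ σ) e he hM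
    (vsum en c (f ∘ σ) a - f (σ e)) (vsum en c (f ∘ σ) b - f (σ e)) (f (σ e))
  have hgR := H.gRg g hgG
  obtain ⟨hgne, hgc⟩ := H.two g (mem_union_right _ hgG)
  have hge : e ≠ g := by
    intro h
    subst h
    have : a ∈ en e := by rw [hen]; simp
    exact (Finset.disjoint_left.1 hdis) this (mem_union_right _ this)
  have hgM : ∀ u ∈ en g, u ∉ M := fun u hu hM' =>
    (Finset.disjoint_left.1 hdis) hu (mem_union_left _ hM')
  have hgE : ∀ u ∈ en g, u ∉ en e := fun u hu hM' =>
    (Finset.disjoint_left.1 hdis) hu (mem_union_right _ hM')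
  have hσg : σ g = g := by
    refine hSt.lab g fun hs => ?_
    obtain ⟨u, hu⟩ := hgne
    exact hgM u hu (hs hu)
  -- the new sums
  have hcomp : f ∘ (σ * Equiv.swap e g) = (f ∘ σ) ∘ Equiv.swap e g := rfl
  have hsw : ∀ w, vsum en c (f ∘ (σ * Equiv.swap e g)) w = vsum en c (f ∘ σ) w +
      (if w ∈ en e then (f g : ZMod p) - f (σ e) else 0) +
      (if w ∈ en g then (f (σ e) : ZMod p) - f g else 0) := by
    intro w
    rw [hcomp, vsum_swap en c (f ∘ σ) hge w]
    simp only [Function.comp_apply, hσg]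
  have hse : ∀ v ∈ en e, vsum en c (f ∘ (σ * Equiv.swap e g)) v =
      vsum en c (f ∘ σ) v - f (σ e) + f g := by
    intro v hv
    rw [hsw, if_pos hv, if_neg fun h => hgE v h hv]
    ring
  have hsg : ∀ u ∈ en g, vsum en c (f ∘ (σ * Equiv.swap e g)) u =
      vsum en c f u - f g + f (σ e) := by
    intro u hu
    rw [hsw, if_neg (hgE u hu), if_pos hu, hSt.vsum_eq (hgM u hu)]
    ring
  have hso : ∀ w, w ∉ en e → w ∉ en g →
      vsum en c (f ∘ (σ * Equiv.swap e g)) w = vsum en c (f ∘ σ) w := by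
    intro w h1 h2
    rw [hsw, if_neg h1, if_neg h2]
    ring
  -- the ends of `e`
  have heT : ∀ v ∈ en e, vsum en c (f ∘ (σ * Equiv.swap e g)) v ∈ T := by
    intro v hv
    rw [hse v hv]
    rw [hen] at hv
    rcases mem_insert.1 hv with rfl | hv
    · exact hT1
    · rw [mem_singleton] at hv
      subst hv
      exact hT2
  have hgT : ∀ u ∈ en g, vsum en c (f ∘ (σ * Equiv.swap e g)) u ∈ T := by
    intro u hu
    rw [hsg u hu]
    exact (hTu u hu).1
  have heg : ∀ v ∈ en e, ∀ u ∈ en g,
      vsum en c (f ∘ (σ * Equiv.swap e g)) v ≠ vsum en c (f ∘ (σ * Equiv.swap e g)) u := by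
    intro v hv u hu
    rw [hse v hv, hsg u hu]
    rw [hen] at hv
    rcases mem_insert.1 hv with rfl | hv
    · exact fun h => (hTu u hu).2.1 h.symm
    · rw [mem_singleton] at hv
      subst hv
      exact fun h => (hTu u hu).2.2 h.symm
  have hgg : ∀ u ∈ en g, ∀ u' ∈ en g, u ≠ u' →
      vsum en c (f ∘ (σ * Equiv.swap e g)) u ≠ vsum en c (f ∘ (σ * Equiv.swap e g)) u' := by
    intro u hu u' hu' hne h
    rw [hsg u hu, hsg u' hu'] at h
    refine hne (H.sinj u (hgR hu) u' (hgR hu') ?_)
    have h1 := add_right_cancel h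
    exact sub_left_injective h1
  -- the other vertices
  have hoe : ∀ v ∈ en e, ∀ w, w ∉ en e → w ∉ en g →
      vsum en c (f ∘ (σ * Equiv.swap e g)) v ≠ vsum en c (f ∘ (σ * Equiv.swap e g)) w := by
    intro v hv w hw1 hw2 h
    by_cases hw : w ∈ M ∪ (univ \ Rg)
    · have h0 := hfree w hw
      rw [hso w hw1 hw2, hse v hv] at h
      rw [hen] at hv
      rcases mem_insert.1 hv with rfl | hv
      · exact h0.1 h
      · rw [mem_singleton] at hv
        subst hv
        exact h0.2.1 h
    · have hw3 : w ∉ M := fun h => hw (mem_union_left _ h)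
      have hw4 : w ∈ Rg := by
        by_contra h
        exact hw (mem_union_right _ (mem_sdiff.2 ⟨mem_univ _, h⟩))
      have h1 := heT v hv
      rw [h, hso w hw1 hw2, hSt.vsum_eq hw3] at h1
      exact H.nT w hw4 h1
  have hog : ∀ u ∈ en g, ∀ w, w ∉ en e → w ∉ en g →
      vsum en c (f ∘ (σ * Equiv.swap e g)) u ≠ vsum en c (f ∘ (σ * Equiv.swap e g)) w := by
    intro u hu w hw1 hw2 h
    by_cases hw : w ∈ M ∪ (univ \ Rg)
    · have h0 := hfree w hw
      rw [hso w hw1 hw2, hsg u hu] at h
      exact h0.2.2 u hu h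
    · have hw3 : w ∉ M := fun h => hw (mem_union_left _ h)
      have hw4 : w ∈ Rg := by
        by_contra h
        exact hw (mem_union_right _ (mem_sdiff.2 ⟨mem_univ _, h⟩))
      have h1 := hgT u hu
      rw [h, hso w hw1 hw2, hSt.vsum_eq hw3] at h1
      exact H.nT w hw4 h1
  refine ⟨g, M ∪ en e ∪ en g, ?_, ?_, ?_, ?_, ?_, ?_, ?_, ?_, ?_⟩
  · refine (card_union_le _ _).trans ?_
    have : M ∪ en e = M ∪ (en e \ M) := by
      rw [union_sdiff_self_eq_union]
    rw [this]
    have := card_union_le M (en e \ M)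
    omega
  · exact (subset_union_left.trans subset_union_left)
  · exact (subset_union_right.trans subset_union_left)
  · intro e' he'
    have h1 : e' ≠ e := by
      rintro rfl
      exact he' (subset_union_right.trans subset_union_left)
    have h2 : e' ≠ g := by
      rintro rfl
      exact he' subset_union_right
    rw [Equiv.Perm.mul_apply, Equiv.swap_apply_of_ne_of_ne h1 h2]
    exact hSt.lab e' fun h => he' (h.trans (subset_union_left.trans subset_union_left))
  · intro e' he'
    have h1 : e' ≠ e := by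
      rintro rfl
      exact he' (mem_union_left _ he)
    have h2 : e' ≠ g := by
      rintro rfl
      exact he' (mem_union_right _ hgG)
    rw [Equiv.Perm.mul_apply, Equiv.swap_apply_of_ne_of_ne h1 h2]
    exact hSt.out e' he'
  · intro e' he' heG
    by_cases h1 : e' = e
    · right
      rw [h1, Equiv.Perm.mul_apply, Equiv.swap_apply_left, hσg]
      exact hgG
    have h2 : e' ≠ g := fun h => heG (h ▸ hgG)
    rw [Equiv.Perm.mul_apply, Equiv.swap_apply_of_ne_of_ne h1 h2]
    exact hSt.se e' he' heG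
  · intro v hv
    by_cases h1 : v ∈ en e
    · exact heT v h1
    by_cases h2 : v ∈ en g
    · exact hgT v h2
    have h3 : v ∈ M := by
      rcases mem_union.1 hv with hv | hv
      · rcases mem_union.1 hv with hv | hv
        · exact hv
        · exact absurd hv h1
      · exact absurd hv h2
    rw [hso v h1 h2]
    exact hSt.inT v h3
  · intro v hv w hwv h
    by_cases h1 : v ∈ en e
    · by_cases h2 : w ∈ en e
      · left
        refine ⟨h1, h2, ?_⟩
        rw [hse v h1, hse w h2] at h
        have h3 := add_right_cancel h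
        exact sub_left_injective h3
      · by_cases h3 : w ∈ en g
        · exact absurd h (heg v h1 w h3)
        · exact absurd h (hoe v h1 w h2 h3)
    by_cases h2 : v ∈ en g
    · by_cases h3 : w ∈ en e
      · exact absurd h.symm (heg w h3 v h2)
      · by_cases h4 : w ∈ en g
        · exact absurd h (hgg v h2 w h4 (Ne.symm hwv))
        · exact absurd h (hog v h2 w h3 h4)
    by_cases h3 : w ∈ en e
    · exact absurd h.symm (hoe w h3 v h1 h2)
    by_cases h4 : w ∈ en g
    · exact absurd h.symm (hog w h4 v h1 h2)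
    right
    have h5 : v ∈ M := by
      rcases mem_union.1 hv with hv | hv
      · rcases mem_union.1 hv with hv | hv
        · exact hv
        · exact absurd hv h1
      · exact absurd hv h2
    rw [hso v h1 h2, hso w h3 h4] at h
    have := hSt.uni v h5 w hwv h
    exact ⟨mem_sdiff.2 ⟨this.1, h1⟩, mem_sdiff.2 ⟨this.2, h3⟩⟩
  · intro v hv w hw
    by_cases h3 : w ∈ en g
    · exact heg v hv w h3
    · exact hoe v hv w hw h3

/-- repair of one vertex -/
theorem stepB (H : RepHyp2 en c f T Rg Gd SE B) {σ : Equiv.Perm E} {M : Finset W}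
    (hSt : St en c f T Gd SE σ M ∅) (hM : M.card + 7 ≤ 7 * (univ \ Rg).card) (a : W)
    (haR : a ∉ Rg) (haM : a ∉ M) :
    ∃ (σ' : Equiv.Perm E) (M' : Finset W), St en c f T Gd SE σ' M' ∅ ∧ M ⊆ M' ∧ a ∈ M' ∧
      M'.card ≤ M.card + 7 := by
  classical
  obtain ⟨e, heS, hae, hadj⟩ := H.cov a haR
  have hec := (H.two e (mem_union_left _ heS)).2
  by_cases htie : ∃ v ∈ en e, ∃ w ∈ en e, v ≠ w ∧ vsum en c (f ∘ σ) v = vsum en c (f ∘ σ) w
  · -- first swap on an adjacent edge
    obtain ⟨v0, hv0, w0, hw0, hvw0, htie0⟩ := htie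
    have he2 : (en e).card = 2 := by
      have h1 : ({v0, w0} : Finset W) ⊆ en e := by
        intro y hy
        simp only [mem_insert, mem_singleton] at hy
        rcases hy with rfl | rfl
        · exact hv0
        · exact hw0
      have := card_le_card h1
      rw [card_pair hvw0] at this
      omega
    obtain ⟨e', heS', hne, hint⟩ := hadj he2
    have hec' := (H.two e' (mem_union_left _ heS')).2
    obtain ⟨x, hx⟩ := hint
    rw [mem_inter] at hx
    obtain ⟨g, M1, hc1, hs1, he1, hl1, ho1, hse1, hT1, hu1, hn1⟩ := stepA H hSt e' heS' (by omega)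
    have hSt1 : St en c f T Gd SE (σ * Equiv.swap e' g) M1 (en e') := by
      refine ⟨hl1, ho1, hse1, hT1, ?_⟩
      intro v hv w hwv h
      rcases hu1 v hv w hwv h with h1 | h1
      · exact ⟨h1.1, h1.2.1⟩
      · simp at h1
    have hM1 : M1.card ≤ 7 * (univ \ Rg).card := by
      have := card_le_card (sdiff_subset : en e' \ M ⊆ en e')
      omega
    obtain ⟨g2, M2, hc2, hs2, he2', hl2, ho2, hse2, hT2, hu2, hn2⟩ := stepA H hSt1 e heS hM1
    refine ⟨σ * Equiv.swap e' g * Equiv.swap e g2, M2, ⟨hl2, ho2, hse2, hT2, ?_⟩, hs1.trans hs2,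
      he2' hae, ?_⟩
    · intro v hv w hwv h
      exfalso
      rcases hu2 v hv w hwv h with h1 | h1
      · -- the ends of `e` are separated by the first swap
        obtain ⟨hv1, hw1, heq⟩ := h1
        have hcard : (en e ∩ en e').card ≤ 1 := H.simple e heS e' heS' (Ne.symm hne)
        have hx1 : ∀ y ∈ en e ∩ en e', y = x := fun y hy =>
          card_le_one.1 hcard y hy x (mem_inter.2 hx)
        have hother : ∀ y ∈ en e, y ≠ x → y ∉ en e' := by
          intro y hy hyx hy'
          exact hyx (hx1 y (mem_inter.2 ⟨hy, hy'⟩))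
        have hall : v = x ∨ w = x := by
          by_contra hno
          push Not at hno
          have h3 : ({v, w, x} : Finset W) ⊆ en e := by
            intro y hy
            simp only [mem_insert, mem_singleton] at hy
            rcases hy with rfl | rfl | rfl
            · exact hv1
            · exact hw1
            · exact hx.1
          have h4 := card_le_card h3
          rw [card_insert_of_notMem (by simp [hwv.symm, hno.1]),
            card_insert_of_notMem (by simp [hno.2]), card_singleton] at h4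
          omega
        rcases hall with rfl | rfl
        · exact hn1 v hx.2 w (hother w hw1 hwv) heq
        · exact hn1 w hx.2 v (hother v hv1 (Ne.symm hwv)) heq.symm
      · have h3 : ({v, w} : Finset W) ⊆ en e' \ en e := by
          intro y hy
          simp only [mem_insert, mem_singleton] at hy
          rcases hy with rfl | rfl
          · exact h1.1
          · exact h1.2
        have h4 := card_le_card h3
        rw [card_pair (Ne.symm hwv)] at h4
        have h5 : (en e' \ en e).card + (en e' ∩ en e).card = (en e').card := by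
          rw [card_sdiff_add_card_inter]
        have h6 : 0 < (en e' ∩ en e).card := card_pos.2 ⟨x, mem_inter.2 ⟨hx.2, hx.1⟩⟩
        omega
    · have h0 := card_le_card (sdiff_subset : en e' \ M ⊆ en e')
      -- `x ∈ en e ∩ en e'` is counted once
      have h1 : (en e \ M1).card ≤ 1 := by
        have hxM : x ∈ M1 := he1 hx.2
        have h2 : en e \ M1 ⊆ (en e).erase x := by
          intro y hy
          rw [mem_sdiff] at hy
          rw [mem_erase]
          exact ⟨fun h => hy.2 (h ▸ hxM), hy.1⟩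
        have := card_le_card h2
        rw [card_erase_of_mem hx.1] at this
        omega
      omega
  · push Not at htie
    obtain ⟨g, M1, hc1, hs1, he1, hl1, ho1, hse1, hT1, hu1, hn1⟩ := stepA H hSt e heS (by omega)
    refine ⟨σ * Equiv.swap e g, M1, ⟨hl1, ho1, hse1, hT1, ?_⟩, hs1, he1 hae, ?_⟩
    · intro v hv w hwv h
      exfalso
      rcases hu1 v hv w hwv h with h1 | h1
      · exact htie v h1.1 w h1.2.1 (Ne.symm hwv) h1.2.2
      · simp at h1
    · have := card_le_card (sdiff_subset : en e \ M ⊆ en e)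
      omega

/-- **Repair**, general version: only labels of `SE ∪ Gd` are moved, and an edge of `SE` keeps its
label or gets the label of a gadget. -/
theorem repair2 (H : RepHyp2 en c f T Rg Gd SE B) :
    ∃ σ : Equiv.Perm E, Function.Injective (vsum en c (f ∘ σ)) ∧
      (∀ e, e ∉ SE ∪ Gd → σ e = e) ∧ ∀ e ∈ SE, e ∉ Gd → σ e = e ∨ σ e ∈ Gd := by
  classical
  -- induction on the number of irregular vertices that have been treated
  have main : ∀ I : Finset W, I ⊆ univ \ Rg → ∃ (σ : Equiv.Perm E) (M : Finset W),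
      St en c f T Gd SE σ M ∅ ∧ I ⊆ M ∧ M.card ≤ 7 * I.card := by
    intro I
    induction I using Finset.induction_on with
    | empty =>
      intro _
      refine ⟨1, ∅, ⟨?_, ?_, ?_, ?_, ?_⟩, by simp, by simp⟩
      · intro e _
        rfl
      · intro e _
        rfl
      · intro e _ _
        exact Or.inl rfl
      · intro v hv
        simp at hv
      · intro v hv
        simp at hv
    | insert a I haI ih =>
      intro hI
      obtain ⟨σ, M, hSt, hIM, hcM⟩ := ih ((subset_insert _ _).trans hI)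
      have hcI : I.card + 1 ≤ (univ \ Rg).card := by
        have := card_le_card hI
        rwa [card_insert_of_notMem haI] at this
      by_cases haM : a ∈ M
      · refine ⟨σ, M, hSt, insert_subset haM hIM, ?_⟩
        rw [card_insert_of_notMem haI]
        omega
      · obtain ⟨σ', M', hSt', hMM', haM', hcM'⟩ := stepB H hSt (by omega) a
          (mem_sdiff.1 (hI (mem_insert_self _ _))).2 haM
        refine ⟨σ', M', hSt', insert_subset haM' (hIM.trans hMM'), ?_⟩
        rw [card_insert_of_notMem haI]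
        omega
  obtain ⟨σ, M, hSt, hIM, -⟩ := main (univ \ Rg) (subset_refl _)
  refine ⟨σ, ?_, hSt.out, hSt.se⟩
  intro v w hvw
  by_contra hne
  by_cases hv : v ∈ M
  · have := hSt.uni v hv w (Ne.symm hne) hvw
    simp at this
  by_cases hw : w ∈ M
  · have := hSt.uni w hw v hne hvw.symm
    simp at this
  have hvR : v ∈ Rg := by
    by_contra h
    exact hv (hIM (mem_sdiff.2 ⟨mem_univ _, h⟩))
  have hwR : w ∈ Rg := by
    by_contra h
    exact hw (hIM (mem_sdiff.2 ⟨mem_univ _, h⟩))
  rw [hSt.vsum_eq hv, hSt.vsum_eq hw] at hvw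
  exact hne (H.sinj v hvR w hwR hvw)

/-- the hypotheses of the repair lemma, all edges exchangeable -/
structure RepHyp (en : E → Finset W) (c : W → ZMod p) (f : E → ℕ) (T : Finset (ZMod p))
    (Rg : Finset W) (Gd : Finset E) (B : ℕ) : Prop where
  two : ∀ e, (en e).card = 2
  simple : ∀ e e', e ≠ e' → (en e ∩ en e').card ≤ 1
  cov : ∀ w, ∃ e, w ∈ en e
  adj : ∀ e, ∃ e', e' ≠ e ∧ (en e ∩ en e').Nonempty
  sinj : ∀ w ∈ Rg, ∀ w' ∈ Rg, vsum en c f w = vsum en c f w' → w = w'
  nT : ∀ w ∈ Rg, vsum en c f w ∉ T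
  gRg : ∀ g ∈ Gd, en g ⊆ Rg
  gdisj : ∀ g ∈ Gd, ∀ g' ∈ Gd, g ≠ g' → Disjoint (en g) (en g')
  ginj : ∀ g ∈ Gd, ∀ g' ∈ Gd, (f g : ZMod p) = f g' → g = g'
  key : ∀ y : ZMod p, (Gd.filter fun g => ∃ u ∈ en g, vsum en c f u - f g = y).card ≤ B
  test : ∀ C1 C2 l : ZMod p, 8 * (B + 3) * (univ \ Rg).card + 2 * (B + 3) <
    (Gd.filter fun g => C1 + f g ∈ T ∧ C2 + f g ∈ T ∧ ∀ u ∈ en g, vsum en c f u - f g + l ∈ T ∧
      vsum en c f u - f g + l ≠ C1 + f g ∧ vsum en c f u - f g + l ≠ C2 + f g).card

/-- **Repair**, all edges exchangeable. -/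
theorem repair (H : RepHyp en c f T Rg Gd B) :
    ∃ σ : Equiv.Perm E, Function.Injective (vsum en c (f ∘ σ)) := by
  have H2 : RepHyp2 en c f T Rg Gd univ B :=
    { two := fun e _ => ⟨card_pos.1 (by rw [H.two e]; omega), (H.two e).le⟩
      simple := fun e _ e' _ h => H.simple e e' h
      cov := fun w _ => by
        obtain ⟨e, he⟩ := H.cov w
        obtain ⟨e', he'⟩ := H.adj e
        exact ⟨e, mem_univ _, he, fun _ => ⟨e', mem_univ _, he'⟩⟩
      sinj := H.sinj
      nT := H.nT
      gRg := H.gRg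
      gdisj := H.gdisj
      ginj := H.ginj
      key := H.key
      test := H.test }
  obtain ⟨σ, h, -⟩ := repair2 H2
  exact ⟨σ, h⟩

end Pool.Agent.AMX
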