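import Pool.Agent.AMX.Sk2Gad
import Pool.Agent.AMX.Skel

/-!
# Skeleton of the inner graph, for graphs with arbitrary components
-/

set_option autoImplicit false
set_option linter.unusedSectionVars false
set_option linter.unusedVariables false

namespace Pool.Agent.AMX

open Finset Pool.Agent.MP6be45b.TreePart

section Count

variable {W : Type*} [Fintype W] [DecidableEq W] {H : SimpleGraph W} {p : W → W}
  {h : W → ℕ} {Z : Finset W} {prt : W → Finset W} {K k0 D : ℕ} {X : Finset (Sym2 W)}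

theorem SkExt.card_le (hX : SkExt H p Z prt K X) : (xF p Z prt X).card ≤ Fintype.card W := by
  classical
  have hsub : slF p Z prt ⊆ (univ.filter fun x => p x ≠ x).image fun x => s(x, p x) := by
    intro e he
    obtain ⟨x, h3, rfl⟩ := slF_tree he
    exact mem_image.2 ⟨x, mem_filter.2 ⟨mem_univ _, h3⟩, rfl⟩
  have h1 : (slF p Z prt).card ≤ (univ.filter fun x => p x ≠ x).card :=
    (card_le_card hsub).trans card_image_le
  have h2 := hX.le
  have h3 : (univ.filter fun x => p x = x).card + (univ.filter fun x => ¬ p x = x).card =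
      Fintype.card W := by
    rw [Finset.card_filter_add_card_filter_not, card_univ]
  have h4 : (xF p Z prt X).card ≤ (slF p Z prt).card + X.card := card_union_le _ _
  have h5 : (univ.filter fun x => p x ≠ x).card = (univ.filter fun x => ¬ p x = x).card := rfl
  omega

open Classical in
/-- there are almost `|W|` slots -/
theorem SkCtx2.card_xF (C : SkCtx2 H p h Z prt K k0 D) (hX : SkExt H p Z prt K X) :
    Fintype.card W ≤ (xF p Z prt X).card + Z.card +
    (univ.filter fun v => p v = v ∧ v ∉ Z ∧ ¬ IsSm p Z prt K v).card +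
    (univ.filter fun v => v ∉ Z ∧ p v ∉ Z ∧ p v ≠ v ∧ p v ∉ prt v).card := by
  set T := univ.filter fun v => v ∉ Z ∧ p v ∉ Z ∧ p v ≠ v ∧ p v ∉ prt v with hTdef
  set R := univ.filter fun v => p v = v ∧ v ∉ Z ∧ ¬ IsSm p Z prt K v with hRdef
  let Y : Finset W := univ.filter fun v => v ∉ Z ∧ p v ≠ v ∧ v ∉ T
  let S : Finset W := univ.filter fun v => IsSm p Z prt K v
  have h1 : (univ : Finset W) ⊆ Y ∪ S ∪ Z ∪ R ∪ T := by
    intro v _
    by_cases h1 : v ∈ T
    · exact mem_union_right _ h1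
    · by_cases h3 : v ∈ Z
      · exact mem_union_left _ (mem_union_left _ (mem_union_right _ h3))
      by_cases h2 : p v = v
      · by_cases h4 : IsSm p Z prt K v
        · exact mem_union_left _ (mem_union_left _ (mem_union_left _ (mem_union_right _
            (mem_filter.2 ⟨mem_univ _, h4⟩))))
        · exact mem_union_left _ (mem_union_right _ (mem_filter.2 ⟨mem_univ _, h2, h3, h4⟩))
      · exact mem_union_left _ (mem_union_left _ (mem_union_left _ (mem_union_left _
            (mem_filter.2 ⟨mem_univ _, h3, h2, h1⟩))))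
  have h2 : Y.card ≤ (slF p Z prt).card := by
    apply Finset.card_le_card_of_injOn (fun v => s(v, p v))
    · intro v hv
      obtain ⟨h3, h4, h5⟩ := (mem_filter.1 (mem_coe.1 hv)).2
      rw [mem_coe]
      by_cases h6 : p v ∈ Z
      · have h7 : HasHub p Z v := Or.inl h6
        have h8 := mk2 (prt := prt) h3 h7
        rwa [hn_par h6] at h8
      · have h7 : p v ∈ prt v := by
          by_contra hc
          exact h5 (mem_filter.2 ⟨mem_univ _, h3, h6, h4, hc⟩)
        exact C.mk1 h3 h7 (Ne.symm h4) (Or.inl rfl)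
    · intro v hv w hw he
      exact tree_inj C.rooted (mem_filter.1 (mem_coe.1 hv)).2.2.1
        (mem_filter.1 (mem_coe.1 hw)).2.2.1 he
  have h3 : S.card ≤ X.card := by
    let f : W → Sym2 W := fun t => if ht : IsSm p Z prt K t then (hX.ex t ht).choose else s(t, t)
    have hf : ∀ t, IsSm p Z prt K t → f t ∈ X ∧ ∀ a ∈ f t, a ∈ prt t := by
      intro t ht
      have h1 : f t = (hX.ex t ht).choose := dif_pos ht
      rw [h1]
      exact (hX.ex t ht).choose_spec
    apply Finset.card_le_card_of_injOn f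
    · intro t ht
      exact mem_coe.2 (hf t (mem_filter.1 (mem_coe.1 ht)).2).1
    · intro t ht t' ht' he
      have ht := (mem_filter.1 (mem_coe.1 ht)).2
      have ht' := (mem_filter.1 (mem_coe.1 ht')).2
      obtain ⟨a, ha⟩ : ∃ a, a ∈ f t := by
        induction f t using Sym2.ind with
        | _ a b => exact ⟨a, Sym2.mem_mk_left _ _⟩
      have e1 := (hf t ht).2 a ha
      have e2 := (hf t' ht').2 a (he ▸ ha)
      have e3 := (C.eq t a ht.2.1 e1).2
      have e4 := (C.eq t' a ht'.2.1 e2).2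
      have e5 : t' ∈ prt t := by
        rw [← e3, e4]
        exact C.mem t' ht'.2.1
      exact (C.root_eq ht.1 ht.2.1 ht'.1 e5).symm
  have h4 : (slF p Z prt).card + X.card = (xF p Z prt X).card := by
    unfold xF
    rw [card_union_of_disjoint]
    rw [Finset.disjoint_left]
    intro e he he'
    obtain ⟨x, -, hx⟩ := slF_tree he
    exact hX.ntree e he' x hx
  calc Fintype.card W = (univ : Finset W).card := card_univ.symm
    _ ≤ (Y ∪ S ∪ Z ∪ R ∪ T).card := card_le_card h1
    _ ≤ (Y ∪ S ∪ Z ∪ R).card + T.card := card_union_le _ _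
    _ ≤ (Y ∪ S ∪ Z).card + R.card + T.card := by gcongr; exact card_union_le _ _
    _ ≤ (Y ∪ S).card + Z.card + R.card + T.card := by gcongr; exact card_union_le _ _
    _ ≤ Y.card + S.card + Z.card + R.card + T.card := by gcongr; exact card_union_le _ _
    _ ≤ _ := by omega

/-- tops of large parts -/
theorem SkCtx2.card_big (C : SkCtx2 H p h Z prt K k0 D) {R : Finset W}
    (hR : ∀ v ∈ R, v ∉ Z ∧ p v = v ∧ K ≤ (prt v).card) : K * R.card ≤ Fintype.card W := by
  have hdisj : Set.PairwiseDisjoint (R : Set W) prt := by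
    intro v hv w hw hne
    rw [Function.onFun, Finset.disjoint_left]
    intro x hx hx'
    obtain ⟨h2, h3, h4⟩ := hR v hv
    obtain ⟨h2', h3', h4'⟩ := hR w hw
    have heq : prt v = prt w := (C.eq v x h2 hx).2.symm.trans (C.eq w x h2' hx').2
    apply hne
    apply C.root_eq h3' h2' h3
    rw [← heq]
    exact C.mem v h2
  calc K * R.card = ∑ v ∈ R, K := by rw [Finset.sum_const, smul_eq_mul, mul_comm]
    _ ≤ ∑ v ∈ R, (prt v).card := Finset.sum_le_sum fun v hv => (hR v hv).2.2
    _ = (R.biUnion prt).card := (Finset.card_biUnion hdisj).symm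
    _ ≤ Fintype.card W := Finset.card_le_univ _

/-- few roots have hubs next to their parts -/
theorem SkCtx2.card_near (C : SkCtx2 H p h Z prt K k0 D) {R : Finset W}
    (hR : ∀ v ∈ R, v ∉ Z ∧ p v = v ∧ ∃ x ∈ prt v, HasHub p Z x) : R.card ≤ Z.card := by
  classical
  let f : W → W := fun v => if hv : ∃ x ∈ prt v, HasHub p Z x then hn p Z hv.choose else v
  have hf : ∀ v ∈ R, f v ∈ Z ∧ H.Reachable v (f v) := by
    intro v hv
    obtain ⟨h1, h2, h3⟩ := hR v hv
    have h4 : f v = hn p Z h3.choose := dif_pos h3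
    rw [h4]
    obtain ⟨h5, h6⟩ := h3.choose_spec
    have h7 := (C.eq v _ h1 h5).1
    obtain ⟨h8, h9⟩ := hn_spec h7 h6
    refine ⟨h8, (C.reach h2 h1 h5).trans ?_⟩
    have hne : hn p Z h3.choose ≠ h3.choose := fun hc => h7 (by rw [← hc]; exact h8)
    rcases h9 with h9 | h9
    · have := C.rooted.adj h3.choose (by rw [h9]; exact hne)
      rw [h9] at this
      exact this.reachable
    · have := C.rooted.adj (hn p Z h3.choose) (by rw [h9]; exact hne.symm)
      rw [h9] at this
      exact this.symm.reachable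
  apply Finset.card_le_card_of_injOn f
  · intro v hv
    exact mem_coe.2 (hf v (mem_coe.1 hv)).1
  · intro v hv w hw he
    have h1 := hf v (mem_coe.1 hv)
    have h2 := hf w (mem_coe.1 hw)
    have h3 : H.Reachable v w := h1.2.trans (he ▸ h2.2.symm)
    have h4 := C.span v w (hR v (mem_coe.1 hv)).2.1 h3
    exact (desc_fix (hR w (mem_coe.1 hw)).2.1 h4).symm

end Count

variable {W : Type} [Fintype W] [DecidableEq W]

theorem SkCtx2.toSkel {H : SimpleGraph W} {p : W → W} {h : W → ℕ} {Z : Finset W}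
    {prt : W → Finset W} {K k0 D D0 : ℕ} {X : Finset (Sym2 W)}
    (C : SkCtx2 H p h Z prt K k0 D) (hX : SkExt H p Z prt K X) {Sp : Finset (Sym2 W)}
    (hG : Gads (xF p Z prt X) Z D0 Sp) :
    Skel H Z (xF p Z prt X) (ptOf prt Z) (vpOf prt) Sp (2 * k0 + 1) (D + 2) D0 where
  edge := fun e he => by
    rcases mem_xF.1 he with he | he
    · obtain ⟨x, hx, rfl⟩ := slF_tree he
      exact C.rooted.adj x hx
    · exact hX.edge e he
  nonhub := fun e he => by
    rcases mem_xF.1 he with he | he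
    · rcases mem_slF.1 he with ⟨v, h1, h2, h3, rfl⟩ | ⟨v, h1, h2, rfl⟩
      · exact ⟨v, Sym2.mem_mk_left _ _, h1⟩
      · exact ⟨v, Sym2.mem_mk_left _ _, h1⟩
    · obtain ⟨a, ha⟩ : ∃ a, a ∈ e := by
        induction e using Sym2.ind with
        | _ a b => exact ⟨a, Sym2.mem_mk_left _ _⟩
      exact ⟨a, ha, hX.nonhub e he a ha⟩
  vp_eq := fun e he w hw hwZ => C.vp_eq hX he hw hwZ
  part_le := fun i => C.part_le hX i
  has_slot := fun w hw => by
    obtain ⟨e, he, hwe⟩ := C.xhas_slot hw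
    exact ⟨e, mem_slAt.2 ⟨mem_xF.2 (Or.inl he), hwe⟩⟩
  slots_le := fun w hw => C.x_slots_le hX hw
  slots_ne := fun w w' hw hw' hne => C.x_slots_ne hw hw' hne
  sp_sub := hG.sub
  sp_nonhub := hG.nonhub
  sp_disj := hG.disj
  sp_le := hG.le
  sp_star := hG.star
  sp_keys := hG.keys

/-- **Graph part, arbitrary components.** A graph in which all vertices outside a small set `Y` have
degree at least two, with a matching with at least `c |W|` edges, has a skeleton with few hubs, among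
them all vertices of `Y`, almost `|W|` slots and at least `β |W|` gadgets. `β`, `D0` depend on `c`
only. -/
theorem exists_skel2 (c : ℝ) (hc : 0 < c) :
    ∃ β > (0 : ℝ), ∃ D0 : ℕ, ∀ ε > (0 : ℝ), ∃ k D : ℕ, ∃ δ > (0 : ℝ), ∃ n0 : ℕ,
      ∀ (W : Type) [Fintype W] [DecidableEq W] (H : SimpleGraph W) [DecidableRel H.Adj]
        (M : H.Subgraph) (Y : Finset W), n0 ≤ Fintype.card W →
        (Y.card : ℝ) ≤ δ * Fintype.card W →
        (∀ w, w ∉ Y → 2 ≤ H.degree w) →
        M.IsMatching → c * Fintype.card W ≤ M.edgeSet.ncard →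
        ∃ (hub : Finset W) (F : Finset (Sym2 W)) (pt : Sym2 W → ℕ) (vp : W → ℕ)
          (Sp : Finset (Sym2 W)), Y ⊆ hub ∧ Skel H hub F pt vp Sp k D D0 ∧
          (hub.card : ℝ) ≤ ε * Fintype.card W ∧ (1 - ε) * Fintype.card W ≤ F.card ∧
          F.card ≤ Fintype.card W ∧ β * Fintype.card W ≤ Sp.card ∧ 3 * Sp.card ≤ F.card := by
  classical
  set c' := min c 1 with hc'
  have hc'0 : 0 < c' := lt_min hc one_pos
  have hc'1 : c' ≤ 1 := min_le_right _ _
  have hc'c : c' ≤ c := min_le_left _ _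
  refine ⟨c' / 12, by positivity, ⌈32 / c'⌉₊ + 1, ?_⟩
  intro ε hε
  set η := min ε c' with hη
  have hη0 : 0 < η := lt_min hε hc'0
  have hηε : η ≤ ε := min_le_left _ _
  have hηc : η ≤ c' := min_le_right _ _
  set K := ⌈16 / η⌉₊ + 4 with hK
  have hKr : 16 / η ≤ (K : ℝ) := by
    rw [hK]
    push_cast
    have := Nat.le_ceil (16 / η)
    linarith
  refine ⟨2 * ((K + 1) * (K - 1) + 1) + 1, K + 2, η / 16, by positivity, ⌈12 / c'⌉₊, ?_⟩
  intro W _ _ H _ M Yh hn hYc hdeg hM hMc
  set n := Fintype.card W with hndef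
  obtain ⟨m, hm, hmadj, hmcard⟩ := exists_inv M hM
  obtain ⟨p, h, hR, hs, hpm⟩ := exists_rooted_matching H m hm hmadj
  -- hubs
  let Z0 : Finset W := univ.filter fun v => K < (chl p v).card
  have hZ0 : (K + 1) * Z0.card ≤ n := by
    refine le_trans ?_ (sum_chl_le p Z0)
    rw [mul_comm, ← smul_eq_mul, ← Finset.sum_const]
    exact Finset.sum_le_sum fun v hv => (mem_filter.1 hv).2
  set Z : Finset W := Z0 ∪ Yh with hZdef
  have hZ : ∀ v, v ∉ Z → (chl p v).card ≤ K := by
    intro v hv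
    by_contra hc
    exact hv (mem_union_left _ (mem_filter.2 ⟨mem_univ _, by omega⟩))
  have hYZ : ∀ v, v ∉ Z → v ∉ Yh := fun v hv hc => hv (mem_union_right _ hc)
  -- neighbours
  have hnb : ∀ v, v ∉ Z → ∀ x, ∃ y, H.Adj v y ∧ y ≠ x := by
    intro v hv x
    have h1 := hdeg v (hYZ v hv)
    rw [← SimpleGraph.card_neighborFinset_eq_degree] at h1
    obtain ⟨a, ha, b, hb, hab⟩ := Finset.one_lt_card.1 (lt_of_lt_of_le one_lt_two h1)
    rw [SimpleGraph.mem_neighborFinset] at ha hb
    by_cases hax : a = x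
    · exact ⟨b, hb, by rw [← hax]; exact hab.symm⟩
    · exact ⟨a, ha, hax⟩
  have hc3 : ∀ C : H.ConnectedComponent, (∀ v ∈ C.supp, v ∉ Z) → 3 ≤ C.supp.ncard := by
    intro C hC
    obtain ⟨v, hv⟩ := C.nonempty_supp
    have h1 := hC v hv
    obtain ⟨a, ha, -⟩ := hnb v h1 v
    obtain ⟨b, hb, hba⟩ := hnb v h1 a
    have hsub : (({v, a, b} : Finset W) : Set W) ⊆ C.supp := by
      intro x hx
      rw [SimpleGraph.ConnectedComponent.mem_supp_iff] at hv ⊢
      simp only [coe_insert, coe_singleton, Set.mem_insert_iff, Set.mem_singleton_iff] at hx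
      rw [← hv, SimpleGraph.ConnectedComponent.eq]
      rcases hx with rfl | rfl | rfl
      · exact SimpleGraph.Reachable.refl _
      · exact ha.symm.reachable
      · exact hb.symm.reachable
    have h2 : ({v, a, b} : Finset W).card = 3 := by
      rw [card_eq_three]
      exact ⟨v, a, b, ha.ne, hb.ne, hba.symm, rfl⟩
    rw [← h2, ← Set.ncard_coe_finset]
    exact Set.ncard_le_ncard hsub (Set.toFinite _)
  obtain ⟨prt, C⟩ := exists_ctx2 hR hs (K := K) (by omega) Z hZ hc3
  obtain ⟨X, hXt⟩ := C.exists_ext hnb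
  obtain ⟨Sp, hG, hSp⟩ := C.sel hXt hm (D0 := ⌈32 / c'⌉₊ + 1) (by omega)
  have hF := C.card_xF hXt
  have hX := C.card_top (X := univ.filter fun v => v ∉ Z ∧ p v ∉ Z ∧ p v ≠ v ∧ p v ∉ prt v)
    (fun v hv => (mem_filter.1 hv).2)
  have hB := card_many (F := xF p Z prt X) (d := ⌈32 / c'⌉₊ + 1)
    (X := univ.filter fun v => ⌈32 / c'⌉₊ + 1 < (slAt (xF p Z prt X) v).card)
    (fun v hv => (mem_filter.1 hv).2.le)
  have hR1 := C.card_big (R := univ.filter fun v => v ∉ Z ∧ p v = v ∧ K ≤ (prt v).card)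
    (fun v hv => (mem_filter.1 hv).2)
  have hR2 := C.card_near (R := univ.filter fun v => v ∉ Z ∧ p v = v ∧ ∃ x ∈ prt v, HasHub p Z x)
    (fun v hv => (mem_filter.1 hv).2)
  have hRR : (univ.filter fun v => p v = v ∧ v ∉ Z ∧ ¬ IsSm p Z prt K v).card ≤
      (univ.filter fun v => v ∉ Z ∧ p v = v ∧ K ≤ (prt v).card).card +
      (univ.filter fun v => v ∉ Z ∧ p v = v ∧ ∃ x ∈ prt v, HasHub p Z x).card := by
    refine le_trans (card_le_card ?_) (card_union_le _ _)
    intro v hv
    obtain ⟨h1, h2, h3⟩ := (mem_filter.1 hv).2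
    rw [mem_union, mem_filter, mem_filter]
    by_cases h4 : K ≤ (prt v).card
    · exact Or.inl ⟨mem_univ _, h2, h1, h4⟩
    · right
      refine ⟨mem_univ _, h2, h1, ?_⟩
      by_contra hc
      push Not at hc
      exact h3 ⟨h1, h2, by omega, hc⟩
  have hMc' := hmcard p hpm
  have hFn : (xF p Z prt X).card ≤ n := hXt.card_le
  set F := xF p Z prt X with hFdef
  set x := (univ.filter fun v => v ∉ Z ∧ p v ∉ Z ∧ p v ≠ v ∧ p v ∉ prt v).card with hx
  set b := (univ.filter fun v => ⌈32 / c'⌉₊ + 1 < (slAt F v).card).card with hb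
  set r := (univ.filter fun v => p v = v ∧ v ∉ Z ∧ ¬ IsSm p Z prt K v).card with hr
  set r1 := (univ.filter fun v => v ∉ Z ∧ p v = v ∧ K ≤ (prt v).card).card with hr1
  set r2 := (univ.filter fun v => v ∉ Z ∧ p v = v ∧ ∃ x ∈ prt v, HasHub p Z x).card with hr2
  -- real versions
  have hn0 : 12 / c' ≤ (n : ℝ) := (Nat.le_ceil _).trans (by exact_mod_cast hn)
  have hn12 : 12 ≤ c' * n := by
    rw [div_le_iff₀ hc'0] at hn0
    linarith
  have hnpos : (0 : ℝ) ≤ n := Nat.cast_nonneg _
  have hn12' : (12 : ℝ) ≤ n := by nlinarith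
  have hηn : 0 ≤ η * n := by positivity
  have hηn' : η * n ≤ c' * n := by gcongr
  have hηnε : η * n ≤ ε * n := by gcongr
  have hηn1 : η * n ≤ n := by nlinarith
  have aux : ∀ y : ℕ, K * y ≤ n → (y : ℝ) ≤ η * n / 16 := by
    intro y hy
    have h1 : (K : ℝ) * y ≤ n := by exact_mod_cast hy
    have h2 : (16 / η) * y ≤ n := by
      have : (0 : ℝ) ≤ y := Nat.cast_nonneg _
      calc (16 / η) * y ≤ (K : ℝ) * y := by gcongr
        _ ≤ n := h1
    rw [div_mul_eq_mul_div, div_le_iff₀ hη0] at h2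
    linarith
  have rZ0 : (Z0.card : ℝ) ≤ η * n / 16 := by
    apply aux
    refine le_trans ?_ hZ0
    exact Nat.mul_le_mul_right _ (Nat.le_succ _)
  have rZ : (Z.card : ℝ) ≤ η * n / 8 := by
    have h1 : (Z.card : ℝ) ≤ Z0.card + Yh.card := by exact_mod_cast card_union_le _ _
    linarith
  have rX : (x : ℝ) ≤ η * n / 16 := aux x hX
  have rR1 : (r1 : ℝ) ≤ η * n / 16 := aux r1 hR1
  have rR2 : (r2 : ℝ) ≤ η * n / 8 := by
    have h1 : (r2 : ℝ) ≤ Z.card := by exact_mod_cast hR2
    linarith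
  have rR : (r : ℝ) ≤ r1 + r2 := by exact_mod_cast hRR
  have rB : (b : ℝ) ≤ c' * n / 16 := by
    have h1 : (((⌈32 / c'⌉₊ + 1 : ℕ) : ℝ)) * b ≤ 2 * (F.card : ℝ) := by exact_mod_cast hB
    have h2 : (F.card : ℝ) ≤ n := by exact_mod_cast hFn
    have h3 : 32 / c' ≤ ((⌈32 / c'⌉₊ + 1 : ℕ) : ℝ) := by
      push_cast
      have := Nat.le_ceil (32 / c')
      linarith
    have h4 : (32 / c') * b ≤ 2 * n := by
      have : (0 : ℝ) ≤ b := Nat.cast_nonneg _
      calc (32 / c') * b ≤ ((⌈32 / c'⌉₊ + 1 : ℕ) : ℝ) * b := by gcongr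
        _ ≤ 2 * n := by linarith
    rw [div_mul_eq_mul_div, div_le_iff₀ hc'0] at h4
    linarith
  have rF : (n : ℝ) ≤ F.card + Z.card + r + x := by exact_mod_cast hF
  have rS : ((MV p m).card : ℝ) ≤ 3 * Sp.card + 2 * Z.card + x + 2 * b := by
    exact_mod_cast hSp
  have rM : c' * n ≤ ((MV p m).card : ℝ) := by
    have h1 : (M.edgeSet.ncard : ℝ) ≤ (MV p m).card := by exact_mod_cast hMc'
    have h2 : c' * n ≤ c * n := by gcongr
    linarith
  have rSp : c' / 12 * n + 1 ≤ (Sp.card : ℝ) := by linarith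
  have hceil : ⌈c' / 12 * n⌉₊ ≤ Sp.card := by
    have h1 : (⌈c' / 12 * n⌉₊ : ℝ) < c' / 12 * n + 1 := Nat.ceil_lt_add_one (by positivity)
    have h2 : (⌈c' / 12 * n⌉₊ : ℝ) < Sp.card := lt_of_lt_of_le h1 rSp
    exact_mod_cast h2.le
  obtain ⟨Sp', hsub, hcard'⟩ := Finset.exists_subset_card_eq hceil
  refine ⟨Z, F, ptOf prt Z, vpOf prt, Sp', subset_union_right, C.toSkel hXt (hG.mono hsub),
    ?_, ?_, hFn, ?_, ?_⟩
  · linarith
  · linarith
  · rw [hcard']
    exact Nat.le_ceil _
  · rw [hcard']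
    have h1 : (⌈c' / 12 * n⌉₊ : ℝ) < c' / 12 * n + 1 := Nat.ceil_lt_add_one (by positivity)
    have h2 : (3 : ℝ) * (⌈c' / 12 * n⌉₊ : ℝ) ≤ F.card := by nlinarith
    exact_mod_cast h2

end Pool.Agent.AMX
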