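import Pool.Agent.AMX.Br2
import Pool.Agent.AMA.Defs

/-!
# From part systems to systems of parts: the output

Values of forms as sums, key multiplicities, the structure `AMX.Out`.
-/

set_option autoImplicit false
set_option linter.unusedSectionVars false
set_option linter.unusedVariables false

namespace Pool.Agent.AMX

open Finset
open Pool.Agent.AMA (Frm val PSys PSOK Spec LamOK Occ GOK)

/-- extension of a partial injective labelling to a bijection -/
theorem exists_extend {F : Type*} [Fintype F] [DecidableEq F] (L : Finset ℕ)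
    (hL : L.card = Fintype.card F) (F0 : Finset F) (lab0 : F → ℕ)
    (hinj : ∀ f ∈ F0, ∀ g ∈ F0, lab0 f = lab0 g → f = g) (hmem : ∀ f ∈ F0, lab0 f ∈ L) :
    ∃ lab : F → ℕ, Function.Injective lab ∧ (∀ f, lab f ∈ L) ∧ ∀ f ∈ F0, lab f = lab0 f := by
  classical
  have h1 : (F0.image lab0).card = F0.card :=
    card_image_of_injOn fun f hf g hg h => hinj f hf g hg h
  have h2 : F0.image lab0 ⊆ L := by
    intro a ha
    obtain ⟨f, hf, rfl⟩ := mem_image.1 ha
    exact hmem f hf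
  have h3 : (univ \ F0 : Finset F).card = (L \ F0.image lab0).card := by
    rw [card_sdiff_of_subset (subset_univ _), card_sdiff_of_subset h2, h1, hL, card_univ]
  let e : (univ \ F0 : Finset F) ≃ (L \ F0.image lab0 : Finset ℕ) := Finset.equivOfCardEq h3
  refine ⟨fun f => if hf : f ∈ F0 then lab0 f else
    (e ⟨f, mem_sdiff.2 ⟨mem_univ _, hf⟩⟩ : ℕ), ?_, ?_, ?_⟩
  · intro f g h
    simp only at h
    by_cases hf : f ∈ F0 <;> by_cases hg : g ∈ F0
    · rw [dif_pos hf, dif_pos hg] at h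
      exact hinj f hf g hg h
    · rw [dif_pos hf, dif_neg hg] at h
      exfalso
      have h5 := (e ⟨g, mem_sdiff.2 ⟨mem_univ _, hg⟩⟩).2
      rw [← h, mem_sdiff] at h5
      exact h5.2 (mem_image_of_mem _ hf)
    · rw [dif_neg hf, dif_pos hg] at h
      exfalso
      have h5 := (e ⟨f, mem_sdiff.2 ⟨mem_univ _, hf⟩⟩).2
      rw [h, mem_sdiff] at h5
      exact h5.2 (mem_image_of_mem _ hg)
    · rw [dif_neg hf, dif_neg hg] at h
      have h5 := e.injective (Subtype.ext h)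
      exact congrArg Subtype.val h5
  · intro f
    by_cases hf : f ∈ F0
    · simp only [dif_pos hf]
      exact hmem f hf
    · simp only [dif_neg hf]
      exact (mem_sdiff.1 (e ⟨f, mem_sdiff.2 ⟨mem_univ _, hf⟩⟩).2).1
  · intro f hf
    simp [dif_pos hf]

/-- injections of the parts -/
theorem exists_iota {F I : Type} [Fintype F] [DecidableEq F] [DecidableEq I] (pt : F → I) (k s : ℕ)
    (hk : ∀ i, (univ.filter fun f => pt f = i).card ≤ k) (hs : k ≤ s) :
    ∃ ι : F → Fin s, ∀ f f', pt f = pt f' → ι f = ι f' → f = f' := by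
  classical
  let g : ∀ (i : I) (f : F), pt f = i → ℕ := fun i f hf =>
    ((univ.filter fun g => pt g = i).equivFin ⟨f, by simp [hf]⟩).val
  have hg : ∀ (i : I) (f : F) (hf : pt f = i), g i f hf < s := fun i f hf =>
    lt_of_lt_of_le (Fin.is_lt _) ((hk i).trans hs)
  refine ⟨fun f => ⟨g (pt f) f rfl, hg (pt f) f rfl⟩, ?_⟩
  intro f f' hp he
  have h1 : g (pt f) f rfl = g (pt f') f' rfl := congrArg Fin.val he
  have h2 : ∀ (i : I) (hi : pt f = i), g (pt f) f rfl = g i f hi := by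
    rintro _ rfl
    rfl
  rw [h2 (pt f') hp] at h1
  have h4 := (univ.filter fun g => pt g = pt f').equivFin.injective (Fin.ext h1)
  exact congrArg Subtype.val h4

variable {F W I : Type} [Fintype F] [DecidableEq F] [Fintype W] [DecidableEq W] [Fintype I]
  [DecidableEq I] {p : ℕ} {s : ℕ}
  {S : PS F W I p} {ι : F → Fin s} {lo : ℕ} {W0 : Finset W} {Sp : Finset F} {k D D0 B : ℕ}

/-- values modulo `p` as elements of `ZMod p` -/
theorem Br_mod_eq_iff {a b : ℕ} : a % p = b % p ↔ (a : ZMod p) = (b : ZMod p) :=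
  (ZMod.natCast_eq_natCast_iff' a b p).symm

theorem Br_mem_T [NeZero p] {T : Finset ℕ} (hT : ∀ a ∈ T, a < p) {a : ℕ} :
    a % p ∈ T ↔ (a : ZMod p) ∈ T.image (fun t : ℕ => (t : ZMod p)) := by
  rw [mem_image]
  constructor
  · intro h
    exact ⟨a % p, h, by simp⟩
  · rintro ⟨t, ht, h⟩
    rw [← Br_mod_eq_iff, Nat.mod_eq_of_lt (hT t ht)] at h
    rwa [← h]

/-- the value of a vertex form is the sum -/
theorem Br_OK.val_fm [NeZero p] (H : Br_OK S ι W0 Sp k D D0 B) (lab : F → ℕ) (x : Fin s → ℕ)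
    (w : W) (hx : ∀ f ∈ S.slots w, (lab f : ZMod p) = (x (ι f) : ZMod p) + ((lo : ZMod p) - 1)) :
    ((val (Br_fm S ι lo w) x : ℕ) : ZMod p) = S.sum lab w := by
  have h1 : val (Br_fm S ι lo w) x = Br_off S lo w + ∑ f ∈ S.slots w, x (ι f) := by
    unfold Pool.Agent.AMA.val
    congr 1
    exact sum_image fun f hf g hg h => H.inj f g ((H.pt_of_mem hf).trans (H.pt_of_mem hg).symm) h
  rw [h1]
  push_cast
  rw [Br_off, ZMod.natCast_zmod_val, PS.sum, sum_congr rfl hx, sum_add_distrib, sum_const,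
    nsmul_eq_mul]
  ring

/-- the value of a gadget end form -/
theorem Br_OK.val_fb [NeZero p] (H : Br_OK S ι W0 Sp k D D0 B) (lab : F → ℕ) (x : Fin s → ℕ)
    {f : F} {u : W} (hu : u ∈ S.en f)
    (hx : ∀ f ∈ S.slots u, (lab f : ZMod p) = (x (ι f) : ZMod p) + ((lo : ZMod p) - 1)) :
    ((val (Br_fb S ι lo f u) x : ℕ) : ZMod p) = S.sum lab u - lab f + ((lo : ZMod p) - 1) := by
  have hf : f ∈ S.slots u := Br_mem_slots.2 hu
  have h1 : val (Br_fm S ι lo u) x = val (Br_fb S ι lo f u) x + x (ι f) := by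
    have h2 := H.insert_fb (lo := lo) hu
    rw [← h2]
    unfold Pool.Agent.AMA.val
    simp only
    rw [sum_insert (H.notMem_fb hu)]
    ring
  have h3 := H.val_fm lab x u hx
  rw [h1] at h3
  push_cast at h3
  rw [← h3, hx f hf]
  ring

/-- what is extracted from the parts theorem -/
structure Br_Res (S : PS F W I p) (ι : F → Fin s) (lo : ℕ) (W0 : Finset W) (Sp : Finset F)
    (len : ℕ) (L : Finset ℕ) (T : Finset ℕ) (Pm : Finset I) (x : I → Fin s → ℕ) : Prop where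
  Tlt : ∀ a ∈ T, a < p
  lab : ∀ f, S.pt f ∈ Pm → 1 ≤ x (S.pt f) (ι f) ∧ x (S.pt f) (ι f) + lo - 1 ∈ L
  dist : ∀ Q ∈ Pm, ∀ Q' ∈ Pm, ∀ u ∈ (Br_sys S ι lo W0 Sp).cf Q,
    ∀ v ∈ (Br_sys S ι lo W0 Sp).cf Q', u.1 = v.1 →
    ((Pool.Agent.AMA.val u.2 (x Q) : ℕ) : ZMod p) = (Pool.Agent.AMA.val v.2 (x Q') : ℕ) →
    Q = Q' ∧ u = v
  nT : ∀ Q ∈ Pm, ∀ φ ∈ (Br_sys S ι lo W0 Sp).S Q, Pool.Agent.AMA.val φ (x Q) % p ∉ T

theorem Br_cf_lab {i : I} {f : F} (hf : S.pt f = i) :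
    ((0 : Fin 4), (({ι f} : Finset (Fin s)), 0)) ∈ (Br_sys S ι lo W0 Sp).cf i := by
  unfold PSys.cf
  refine mem_union_left _ (mem_union_left _ (mem_image.2 ⟨ι f, ?_, rfl⟩))
  rw [mem_filter]
  exact ⟨mem_univ _, Br_kd_ne.2 ⟨f, hf, rfl⟩⟩

theorem Br_cf_sum {w : W} (hw : w ∉ W0) :
    ((1 : Fin 4), Br_fm S ι lo w) ∈ (Br_sys S ι lo W0 Sp).cf (S.vp w) := by
  unfold PSys.cf
  exact mem_union_left _ (mem_union_right _ (mem_image.2 ⟨_, Br_mem_S.2 ⟨w, hw, rfl, rfl⟩, rfl⟩))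

theorem Br_cf_B {f : F} (hf : f ∈ Sp) {u : W} (hu : u ∈ S.en f)
    (h1 : (Br_fb S ι lo f u).1.Nonempty)
    (h2 : ¬ ((Br_fb S ι lo f u).1.card = 1 ∧
      (Br_fb S ι lo f u).2 = (Br_sys S ι lo W0 Sp).z)) :
    ((Br_sys S ι lo W0 Sp).tg (S.pt f) (Br_fb S ι lo f u), Br_fb S ι lo f u) ∈
      (Br_sys S ι lo W0 Sp).cf (S.pt f) := by
  unfold PSys.cf
  refine mem_union_right _ (mem_image.2 ⟨_, ?_, rfl⟩)
  unfold PSys.Bf
  rw [mem_filter, mem_biUnion]
  exact ⟨⟨_, Br_mem_Gd.2 ⟨f, hf, rfl, rfl⟩, mem_image_of_mem _ hu⟩, h1, h2⟩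

theorem Br_OK.tg_eq (H : Br_OK S ι W0 Sp k D D0 B) {f : F} (hf : f ∈ Sp) {u : W}
    (hu : u ∈ S.en f) (h1 : (Br_fb S ι lo f u).1.Nonempty) :
    (Br_sys S ι lo W0 Sp).tg (S.pt f) (Br_fb S ι lo f u) = 2 := by
  obtain ⟨i, hi⟩ := h1
  obtain ⟨g, hg, rfl⟩ := mem_image.1 hi
  have h4 : ∃ i ∈ (Br_fb S ι lo f u).1, (Br_sys S ι lo W0 Sp).kd (S.pt f) i = some true :=
    ⟨ι g, hi, Br_kd_some.2 ⟨g, (H.pt_of_mem (mem_of_mem_erase hg)).trans
      (H.ok.vp_eq f u hu).symm, rfl⟩⟩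
  rw [PSys.tg, if_pos h4]

theorem Br_Res.cast [NeZero p] (H : Br_OK S ι W0 Sp k D D0 B) {len : ℕ} {L : Finset ℕ}
    {T : Finset ℕ} {Pm : Finset I} {x : I → Fin s → ℕ}
    (hR : Br_Res S ι lo W0 Sp len L T Pm x) {lab : F → ℕ}
    (hlab : ∀ f, S.pt f ∈ Pm → lab f = x (S.pt f) (ι f) + lo - 1) {f : F} {i : I}
    (hf : S.pt f = i) (hi : i ∈ Pm) :
    (lab f : ZMod p) = (x i (ι f) : ZMod p) + ((lo : ZMod p) - 1) := by
  subst hf
  have h1 := (hR.lab f hi).1
  rw [hlab f hi, Nat.cast_sub (by omega)]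
  push_cast
  ring

/-- key multiplicities -/
theorem Br_key [NeZero p] (H : Br_OK S ι W0 Sp k D D0 B) {len : ℕ} {L : Finset ℕ}
    {T : Finset ℕ} {Pm : Finset I} {x : I → Fin s → ℕ}
    (hR : Br_Res S ι lo W0 Sp len L T Pm x) (lab : F → ℕ)
    (hlab : ∀ f, S.pt f ∈ Pm → lab f = x (S.pt f) (ι f) + lo - 1) (y : ZMod p) (K : Finset F)
    (hK : ∀ g ∈ K, g ∈ Sp ∧ S.pt g ∈ Pm ∧ ∃ u ∈ S.en g, S.sum lab u - lab g = y) :
    K.card ≤ B + 3 := by
  classical
  have hval : ∀ g ∈ Sp, S.pt g ∈ Pm → ∀ u ∈ S.en g, S.sum lab u - lab g = y →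
      ((Pool.Agent.AMA.val (Br_fb S ι lo g u) (x (S.pt g)) : ℕ) : ZMod p) =
        y + ((lo : ZMod p) - 1) := by
    intro g hg hp u hu h
    rw [H.val_fb lab (x (S.pt g)) hu, h]
    intro f hf
    exact hR.cast H hlab ((H.pt_of_mem hf).trans (H.ok.vp_eq g u hu).symm) hp
  have hch : ∀ g ∈ K, ∃ u ∈ S.en g, S.sum lab u - lab g = y := fun g hg => (hK g hg).2.2
  -- the three kinds
  set K1 := K.filter fun g => ∃ u ∈ S.en g, S.sum lab u - lab g = y ∧
    (Br_fb S ι lo g u).1 = ∅ with hK1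
  set K2 := K.filter fun g => ∃ u ∈ S.en g, S.sum lab u - lab g = y ∧
    ((Br_fb S ι lo g u).1.card = 1 ∧ (Br_fb S ι lo g u).2 = (Br_sys S ι lo W0 Sp).z) with hK2
  set K3 := K.filter fun g => ∃ u ∈ S.en g, S.sum lab u - lab g = y ∧
    (Br_fb S ι lo g u).1.Nonempty ∧
    ¬ ((Br_fb S ι lo g u).1.card = 1 ∧ (Br_fb S ι lo g u).2 = (Br_sys S ι lo W0 Sp).z) with hK3
  have hcov : K ⊆ K1 ∪ K2 ∪ K3 := by
    intro g hg
    obtain ⟨u, hu, hy⟩ := hch g hg
    by_cases h1 : (Br_fb S ι lo g u).1 = ∅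
    · exact mem_union_left _ (mem_union_left _ (mem_filter.2 ⟨hg, u, hu, hy, h1⟩))
    by_cases h2 : ((Br_fb S ι lo g u).1.card = 1 ∧
        (Br_fb S ι lo g u).2 = (Br_sys S ι lo W0 Sp).z)
    · exact mem_union_left _ (mem_union_right _ (mem_filter.2 ⟨hg, u, hu, hy, h2⟩))
    · exact mem_union_right _ (mem_filter.2 ⟨hg, u, hu, hy, nonempty_iff_ne_empty.2 h1, h2⟩)
  have hc1 : K1.card ≤ B := by
    have h0 : K1.card ≤ ∑ f ∈ K1, ((S.en f).filter
        fun u => S.sum lab u - lab f = y ∧ (Br_fb S ι lo f u).1 = ∅).card := by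
      rw [card_eq_sum_ones]
      refine sum_le_sum fun f hf => ?_
      obtain ⟨-, u, hu, h1, h2⟩ := mem_filter.1 hf
      exact card_pos.2 ⟨u, mem_filter.2 ⟨hu, h1, h2⟩⟩
    have h1 : ∑ f ∈ K1, ((S.en f).filter
        fun u => S.sum lab u - lab f = y ∧ (Br_fb S ι lo f u).1 = ∅).card ≤
        ∑ f ∈ Sp, ((S.en f).filter
        fun u => S.sum lab u - lab f = y ∧ (Br_fb S ι lo f u).1 = ∅).card := by
      refine sum_le_sum_of_subset fun f hf => (hK f (mem_filter.1 hf).1).1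
    refine h0.trans (h1.trans ((H.sum_ends_le _ (fun w => w ∉ S.zt ∧ S.c w = y) ?_).trans
      (H.ok.mult y)))
    intro f hf u hu ⟨h2, h3⟩
    have h4 := H.fb_card (lo := lo) hu
    rw [h3, card_empty] at h4
    have h5 : 1 ≤ (S.slots u).card := card_pos.2 (H.ok.has_slot u)
    have h6 : (S.slots u).card = 1 := by omega
    have h7 : S.slots u = {f} := by
      obtain ⟨g, hg⟩ := card_eq_one.1 h6
      have h8 : f ∈ S.slots u := Br_mem_slots.2 hu
      rw [hg] at h8 ⊢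
      rw [mem_singleton.1 h8]
    refine ⟨fun hz => ?_, ?_⟩
    · have := (H.ok.zt_zero u hz).2
      omega
    · rw [← h2, PS.sum, h7, sum_singleton]
      ring
  have hc2 : K2.card ≤ 1 := by
    rw [card_le_one]
    intro g hg g' hg'
    obtain ⟨hgK, u, hu, hy, hc, hz⟩ := mem_filter.1 hg
    obtain ⟨hgK', u', hu', hy', hc', hz'⟩ := mem_filter.1 hg'
    obtain ⟨hS, hP, -⟩ := hK g hgK
    obtain ⟨hS', hP', -⟩ := hK g' hgK'
    obtain ⟨j, hj⟩ := card_eq_one.1 hc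
    obtain ⟨j', hj'⟩ := card_eq_one.1 hc'
    have hv := hval g hS hP u hu hy
    have hv' := hval g' hS' hP' u' hu' hy'
    have e1 : Pool.Agent.AMA.val (Br_fb S ι lo g u) (x (S.pt g)) =
        (Br_sys S ι lo W0 Sp).z + x (S.pt g) j := by
      unfold Pool.Agent.AMA.val
      rw [hj, hz, sum_singleton]
    have e2 : Pool.Agent.AMA.val (Br_fb S ι lo g' u') (x (S.pt g')) =
        (Br_sys S ι lo W0 Sp).z + x (S.pt g') j' := by
      unfold Pool.Agent.AMA.val
      rw [hj', hz', sum_singleton]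
    rw [e1] at hv
    rw [e2, ← hv] at hv'
    push_cast at hv'
    have hxx : ((x (S.pt g') j' : ℕ) : ZMod p) = (x (S.pt g) j : ℕ) := add_left_cancel hv'
    -- the slots
    obtain ⟨f, hf, hfj⟩ := mem_image.1 (show j ∈ (Br_fb S ι lo g u).1 by rw [hj]; simp)
    obtain ⟨f', hf', hfj'⟩ := mem_image.1 (show j' ∈ (Br_fb S ι lo g' u').1 by rw [hj']; simp)
    have hpf : S.pt f = S.pt g := (H.pt_of_mem (mem_of_mem_erase hf)).trans
      (H.ok.vp_eq g u hu).symm
    have hpf' : S.pt f' = S.pt g' := (H.pt_of_mem (mem_of_mem_erase hf')).trans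
      (H.ok.vp_eq g' u' hu').symm
    have m1 := Br_cf_lab (lo := lo) (W0 := W0) (Sp := Sp) (ι := ι) hpf
    have m2 := Br_cf_lab (lo := lo) (W0 := W0) (Sp := Sp) (ι := ι) hpf'
    have hd := hR.dist (S.pt g) hP (S.pt g') hP' _ m1 _ m2 rfl (by
      simp only [Pool.Agent.AMA.val, sum_singleton, zero_add]
      rw [hfj, hfj']
      exact hxx.symm)
    obtain ⟨hQ, hu2⟩ := hd
    have hjj : j = j' := by
      have h3 := congrArg (fun z => z.2.1) hu2
      simp only at h3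
      rw [hfj, hfj'] at h3
      simpa using h3
    have h4 : (Br_fb S ι lo g u).1 = (Br_fb S ι lo g' u').1 := by rw [hj, hj', hjj]
    exact (H.fb_keys hS hS' hQ hu hu' h4 (by rw [hj]; simp)).2
  have hc3 : K3.card ≤ 1 := by
    rw [card_le_one]
    intro g hg g' hg'
    obtain ⟨hgK, u, hu, hy, hne, hz⟩ := mem_filter.1 hg
    obtain ⟨hgK', u', hu', hy', hne', hz'⟩ := mem_filter.1 hg'
    obtain ⟨hS, hP, -⟩ := hK g hgK
    obtain ⟨hS', hP', -⟩ := hK g' hgK'
    have hv := hval g hS hP u hu hy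
    have hv' := hval g' hS' hP' u' hu' hy'
    have m1 := Br_cf_B (W0 := W0) hS hu hne hz
    have m2 := Br_cf_B (W0 := W0) hS' hu' hne' hz'
    obtain ⟨hQ, h2⟩ := hR.dist (S.pt g) hP (S.pt g') hP' _ m1 _ m2
      ((H.tg_eq hS hu hne).trans (H.tg_eq hS' hu' hne').symm) (hv.trans hv'.symm)
    have h4 : (Br_fb S ι lo g u).1 = (Br_fb S ι lo g' u').1 :=
      congrArg (fun z => z.2.1) h2
    exact (H.fb_keys hS hS' hQ hu hu' h4 hne).2
  have h1 := card_le_card hcov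
  have h2 := card_union_le (K1 ∪ K2) K3
  have h3 := card_union_le K1 K2
  omega

open Classical in
/-- the output of the theorem for a labelling extending the labels of the parts -/
theorem Br_out [NeZero p] (H : Br_OK S ι W0 Sp k D D0 B) {len : ℕ} {L : Finset ℕ}
    {T : Finset ℕ} {Pm : Finset I} {x : I → Fin s → ℕ}
    (hR : Br_Res S ι lo W0 Sp len L T Pm x)
    (lab : F → ℕ) (hinj : Function.Injective lab) (hmem : ∀ f, lab f ∈ L)
    (hlab : ∀ f, S.pt f ∈ Pm → lab f = x (S.pt f) (ι f) + lo - 1) {q : ℝ}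
    (Win : Bool → Finset ℕ)
    (htest : ∀ y π1 π2 : ℕ, q ≤ ∑ Q ∈ Pm, ((((Br_sys S ι lo W0 Sp).Gd Q).filter
      (GOK (Br_sys S ι lo W0 Sp) Win p T Q (x Q) y π1 π2)).card : ℝ)) :
    Out S L Sp (T.image fun t : ℕ => (t : ZMod p)) lab
      (univ.filter fun w => w ∉ W0 ∧ S.vp w ∈ Pm) (Sp.filter fun f => S.pt f ∈ Pm) q (B + 3) := by
  have hcast : ∀ {f : F} {i : I}, S.pt f = i → i ∈ Pm →
      (lab f : ZMod p) = (x i (ι f) : ZMod p) + ((lo : ZMod p) - 1) := fun hf hi =>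
    hR.cast H hlab hf hi
  have hsum : ∀ w, S.vp w ∈ Pm →
      ((Pool.Agent.AMA.val (Br_fm S ι lo w) (x (S.vp w)) : ℕ) : ZMod p) = S.sum lab w := by
    intro w hw
    exact H.val_fm lab (x (S.vp w)) w fun f hf => hcast (H.pt_of_mem hf) hw
  refine
    { inj := hinj
      mem := hmem
      sinj := ?_
      nT := ?_
      gsub := filter_subset _ _
      gRg := ?_
      key := ?_
      test := ?_ }
  · intro w hw w' hw' h
    simp only [mem_filter, mem_univ, true_and] at hw hw'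
    rw [← hsum w hw.2, ← hsum w' hw'.2] at h
    obtain ⟨h1, h2⟩ := hR.dist _ hw.2 _ hw'.2 _ (Br_cf_sum hw.1) _ (Br_cf_sum hw'.1) rfl h
    exact H.fm_inj h1 (congrArg (fun z => z.2.1) h2)
  · intro w hw
    simp only [mem_filter, mem_univ, true_and] at hw
    rw [← hsum w hw.2, ← Br_mem_T hR.Tlt]
    exact hR.nT _ hw.2 _ (Br_mem_S.2 ⟨w, hw.1, rfl, rfl⟩)
  · intro g hg u hu
    rw [mem_filter] at hg
    simp only [mem_filter, mem_univ, true_and]
    exact ⟨H.w0 g hg.1 u hu, by rw [← H.ok.vp_eq g u hu]; exact hg.2⟩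
  · intro y
    refine Br_key H hR lab hlab y _ ?_
    intro g hg
    simp only [mem_filter] at hg
    exact ⟨hg.1.1, hg.1.2, hg.2⟩
  · intro C1 C2 l
    refine (htest ((l - ((lo : ZMod p) - 1)).val) ((C1 + ((lo : ZMod p) - 1)).val)
      ((C2 + ((lo : ZMod p) - 1)).val)).trans ?_
    have key : ∀ Q ∈ Pm, (((Br_sys S ι lo W0 Sp).Gd Q).filter
        (GOK (Br_sys S ι lo W0 Sp) Win p T Q (x Q) ((l - ((lo : ZMod p) - 1)).val)
          ((C1 + ((lo : ZMod p) - 1)).val) ((C2 + ((lo : ZMod p) - 1)).val))).card ≤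
        (((Sp.filter fun f => S.pt f ∈ Pm).filter fun g =>
          Vd S (T.image fun t : ℕ => (t : ZMod p)) lab C1 C2 l g).filter
            fun f => S.pt f = Q).card := by
      intro Q hQ
      refine (card_le_card ?_).trans (card_image_le (f := fun f =>
        (ι f, (S.en f).image (Br_fb S ι lo f))))
      intro g hg
      rw [mem_filter] at hg
      obtain ⟨hgG, hok⟩ := hg
      obtain ⟨f, hf, hfi, rfl⟩ := Br_mem_Gd.1 hgG
      refine mem_image.2 ⟨f, ?_, rfl⟩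
      simp only [mem_filter]
      refine ⟨⟨⟨hf, by rw [hfi]; exact hQ⟩, ?_⟩, hfi⟩
      obtain ⟨-, -, h3, h4, h5, h6, h7⟩ := hok
      simp only at h3 h4 h5 h6 h7
      have e1 : ∀ C : ZMod p, (((C + ((lo : ZMod p) - 1)).val + x Q (ι f) : ℕ) : ZMod p) =
          C + lab f := by
        intro C
        push_cast
        rw [ZMod.natCast_zmod_val, hcast hfi hQ]
        ring
      have e2 : ∀ u ∈ S.en f, ((Pool.Agent.AMA.val (Br_fb S ι lo f u) (x Q) +
          (l - ((lo : ZMod p) - 1)).val : ℕ) : ZMod p) = S.sum lab u - lab f + l := by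
        intro u hu
        push_cast
        rw [ZMod.natCast_zmod_val, H.val_fb lab (x Q) hu]
        · ring
        · intro g hg
          exact hcast ((H.pt_of_mem hg).trans ((H.ok.vp_eq f u hu).symm.trans hfi)) hQ
      refine ⟨?_, ?_, ?_⟩
      · rw [← e1 C1, ← Br_mem_T hR.Tlt]
        exact h5
      · rw [← e1 C2, ← Br_mem_T hR.Tlt]
        exact h6
      · intro u hu
        have hm : Br_fb S ι lo f u ∈ (S.en f).image (Br_fb S ι lo f) := mem_image_of_mem _ hu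
        refine ⟨?_, ?_, ?_⟩
        · rw [← e2 u hu, ← Br_mem_T hR.Tlt]
          exact h3 _ hm
        · intro h8
          rw [← e2 u hu, ← e1 C1, ← Br_mod_eq_iff] at h8
          exact (h7 _ hm).1 h8.symm
        · intro h8
          rw [← e2 u hu, ← e1 C2, ← Br_mod_eq_iff] at h8
          exact (h7 _ hm).2 h8.symm
    have h2 : ∑ Q ∈ Pm, (((Br_sys S ι lo W0 Sp).Gd Q).filter
        (GOK (Br_sys S ι lo W0 Sp) Win p T Q (x Q) ((l - ((lo : ZMod p) - 1)).val)
          ((C1 + ((lo : ZMod p) - 1)).val) ((C2 + ((lo : ZMod p) - 1)).val))).card ≤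
        ((Sp.filter fun f => S.pt f ∈ Pm).filter fun g =>
          Vd S (T.image fun t : ℕ => (t : ZMod p)) lab C1 C2 l g).card := by
      refine (sum_le_sum key).trans ?_
      rw [← Br_sum_filter_card ((Sp.filter fun f => S.pt f ∈ Pm).filter fun g =>
          Vd S (T.image fun t : ℕ => (t : ZMod p)) lab C1 C2 l g) S.pt]
      exact sum_le_sum_of_subset (subset_univ _)
    exact_mod_cast h2

end Pool.Agent.AMX
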