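import Pool.Agent.AMX.Defs
import Pool.Agent.AMA.Defs

/-!
# From part systems (`AMX.PS`) to systems of parts (`AMA.PSys`): definitions and basic facts
-/

set_option autoImplicit false
set_option linter.unusedSectionVars false
set_option linter.unusedVariables false

namespace Pool.Agent.AMX

open Finset
open Pool.Agent.AMA (Frm val PSys PSOK Spec LamOK Occ GOK)

section general

variable {A J K : Type*} [DecidableEq J] [Fintype J] [DecidableEq K]

theorem Br_sum_filter_card (s : Finset A) (c : A → J) :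
    ∑ i : J, (s.filter fun a => c a = i).card = s.card := by
  classical
  exact (card_eq_sum_card_fiberwise (f := c) (s := s) (t := univ) (fun _ _ => mem_coe.2 (mem_univ _))).symm

theorem Br_sum_image_le (s : Finset A) (c : A → J) (φ : A → K) (P : K → Prop) [DecidablePred P] :
    ∑ i : J, (((s.filter fun a => c a = i).image φ).filter P).card ≤
      (s.filter fun a => P (φ a)).card := by
  classical
  rw [← Br_sum_filter_card (s.filter fun a => P (φ a)) c]
  refine sum_le_sum fun i _ => ?_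
  have h : ((s.filter fun a => c a = i).image φ).filter P ⊆
      ((s.filter fun a => P (φ a)).filter fun a => c a = i).image φ := by
    intro x hx
    simp only [mem_filter, mem_image] at hx ⊢
    obtain ⟨⟨a, ⟨ha1, ha2⟩, rfl⟩, hp⟩ := hx
    exact ⟨a, ⟨⟨ha1, hp⟩, ha2⟩, rfl⟩
  exact (card_le_card h).trans card_image_le

theorem Br_sum_image_eq (s : Finset A) (c : A → J) (φ : A → K)
    (hφ : ∀ a ∈ s, ∀ a' ∈ s, c a = c a' → φ a = φ a' → a = a') :
    ∑ i : J, ((s.filter fun a => c a = i).image φ).card = s.card := by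
  classical
  rw [← Br_sum_filter_card s c]
  refine sum_congr rfl fun i _ => card_image_of_injOn ?_
  intro a ha a' ha' h
  simp only [coe_filter, Set.mem_ofPred_eq] at ha ha'
  exact hφ a ha.1 a' ha'.1 (ha.2.trans ha'.2.symm) h

/-- sum over an image -/
theorem Br_sum_over_image_le (s : Finset A) (φ : A → K) (g : K → ℕ) :
    ∑ x ∈ s.image φ, g x ≤ ∑ a ∈ s, g (φ a) := by
  classical
  rw [← sum_fiberwise_of_maps_to (s := s) (t := s.image φ) (g := φ)
    (fun a ha => mem_image_of_mem _ ha)]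
  refine sum_le_sum fun x hx => ?_
  obtain ⟨a, ha, rfl⟩ := mem_image.1 hx
  have : g (φ a) = ∑ b ∈ ({a} : Finset A), g (φ b) := by simp
  rw [this]
  exact sum_le_sum_of_subset (by simpa using ha)

end general

variable {F W I : Type} [Fintype F] [DecidableEq F] [Fintype W] [DecidableEq W] [Fintype I]
  [DecidableEq I] {p : ℕ} {s : ℕ}

/-- offset of a vertex form -/
def Br_off (S : PS F W I p) (lo : ℕ) (w : W) : ℕ :=
  (S.c w + (S.slots w).card * ((lo : ZMod p) - 1)).val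

/-- form of a vertex -/
def Br_fm (S : PS F W I p) (ι : F → Fin s) (lo : ℕ) (w : W) : Frm s :=
  ((S.slots w).image ι, Br_off S lo w)

/-- form of a gadget end without the gadget slot -/
def Br_fb (S : PS F W I p) (ι : F → Fin s) (lo : ℕ) (f : F) (u : W) : Frm s :=
  (((S.slots u).erase f).image ι, Br_off S lo u)

/-- the system of parts -/
def Br_sys (S : PS F W I p) (ι : F → Fin s) (lo : ℕ) (W0 : Finset W) (Sp : Finset F) :
    PSys I s where
  z := (2 * ((lo : ZMod p) - 1)).val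
  kd i j := if ∃ f, S.pt f = i ∧ ι f = j then some true else none
  S i := ((univ.filter fun w => w ∉ W0).filter fun w => S.vp w = i).image (Br_fm S ι lo)
  Gd i := (Sp.filter fun f => S.pt f = i).image fun f => (ι f, (S.en f).image (Br_fb S ι lo f))

/-- bundle of the hypotheses -/
structure Br_OK (S : PS F W I p) (ι : F → Fin s) (W0 : Finset W) (Sp : Finset F)
    (k D D0 B : ℕ) : Prop where
  ok : S.Ok k D B
  sp : S.SpOk Sp
  sp0 : ∀ f ∈ Sp, ∀ u ∈ S.en f, (S.slots u).card ≤ D0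
  inj : ∀ f f', S.pt f = S.pt f' → ι f = ι f' → f = f'
  w0 : ∀ f ∈ Sp, ∀ u ∈ S.en f, u ∉ W0

theorem Br_mem_slots {S : PS F W I p} {w : W} {f : F} : f ∈ S.slots w ↔ w ∈ S.en f := by
  simp [PS.slots]

variable {S : PS F W I p} {ι : F → Fin s} {lo : ℕ} {W0 : Finset W} {Sp : Finset F} {k D D0 B : ℕ}

theorem Br_OK.pt_of_mem (H : Br_OK S ι W0 Sp k D D0 B) {w : W} {f : F} (h : f ∈ S.slots w) :
    S.pt f = S.vp w := H.ok.vp_eq f w (Br_mem_slots.1 h)

theorem Br_OK.image_inj (H : Br_OK S ι W0 Sp k D D0 B) {A A' : Finset F} {i : I}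
    (hA : ∀ f ∈ A, S.pt f = i) (hA' : ∀ f ∈ A', S.pt f = i) (h : A.image ι = A'.image ι) :
    A = A' := by
  have key : ∀ X Y : Finset F, (∀ f ∈ X, S.pt f = i) → (∀ f ∈ Y, S.pt f = i) →
      X.image ι = Y.image ι → X ⊆ Y := by
    intro X Y hX hY h f hf
    have h1 : ι f ∈ Y.image ι := h ▸ mem_image_of_mem ι hf
    obtain ⟨g, hg, hgf⟩ := mem_image.1 h1
    have : g = f := H.inj g f ((hY g hg).trans (hX f hf).symm) hgf
    rwa [this] at hg
  exact subset_antisymm (key A A' hA hA' h) (key A' A hA' hA h.symm)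

theorem Br_OK.card_image (H : Br_OK S ι W0 Sp k D D0 B) {A : Finset F} {i : I}
    (hA : ∀ f ∈ A, S.pt f = i) : (A.image ι).card = A.card := by
  refine card_image_of_injOn ?_
  intro f hf g hg h
  exact H.inj f g ((hA f hf).trans (hA g hg).symm) h

theorem Br_OK.fm_card (H : Br_OK S ι W0 Sp k D D0 B) (w : W) :
    (Br_fm S ι lo w).1.card = (S.slots w).card :=
  H.card_image fun f hf => H.pt_of_mem hf

theorem Br_OK.fb_card (H : Br_OK S ι W0 Sp k D D0 B) {f : F} {u : W} (hu : u ∈ S.en f) :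
    (Br_fb S ι lo f u).1.card = (S.slots u).card - 1 := by
  have h1 := H.card_image (A := (S.slots u).erase f) (i := S.vp u)
    fun g hg => H.pt_of_mem (mem_of_mem_erase hg)
  have h2 : (Br_fb S ι lo f u).1 = ((S.slots u).erase f).image ι := rfl
  rw [h2, h1, card_erase_of_mem (Br_mem_slots.2 hu)]

theorem Br_OK.fm_inj (H : Br_OK S ι W0 Sp k D D0 B) {w w' : W} (hv : S.vp w = S.vp w')
    (h : (Br_fm S ι lo w).1 = (Br_fm S ι lo w').1) : w = w' := by
  by_contra hne
  refine H.ok.slots_ne w w' hne (H.image_inj (i := S.vp w) (fun f hf => H.pt_of_mem hf)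
    (fun f hf => (H.pt_of_mem hf).trans hv.symm) h)

theorem Br_OK.fb_ne_fm (H : Br_OK S ι W0 Sp k D D0 B) {f : F} (hf : f ∈ Sp) {u w : W}
    (hu : u ∈ S.en f) (hw : S.vp w = S.pt f) : (Br_fm S ι lo w).1 ≠ (Br_fb S ι lo f u).1 := by
  intro h
  have hpu : S.pt f = S.vp u := H.ok.vp_eq f u hu
  refine H.sp.star f hf u hu w (H.image_inj (i := S.pt f) (fun g hg => ?_) (fun g hg => ?_) h)
  · exact (H.pt_of_mem hg).trans hw
  · exact (H.pt_of_mem (mem_of_mem_erase hg)).trans hpu.symm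

theorem Br_OK.gad_eq (H : Br_OK S ι W0 Sp k D D0 B) {f g : F} (hf : f ∈ Sp) (hg : g ∈ Sp)
    {u : W} (hu : u ∈ S.en f) (hv : u ∈ S.en g) : f = g := by
  by_contra hne
  exact (Finset.disjoint_left.1 (H.sp.disj f hf g hg hne)) hu hv

theorem Br_OK.fb_keys (H : Br_OK S ι W0 Sp k D D0 B) {f g : F} (hf : f ∈ Sp) (hg : g ∈ Sp)
    (hfg : S.pt f = S.pt g) {u v : W} (hu : u ∈ S.en f) (hv : v ∈ S.en g)
    (h : (Br_fb S ι lo f u).1 = (Br_fb S ι lo g v).1) (hne : (Br_fb S ι lo f u).1.Nonempty) :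
    u = v ∧ f = g := by
  have hpu : S.pt f = S.vp u := H.ok.vp_eq f u hu
  have hpv : S.pt g = S.vp v := H.ok.vp_eq g v hv
  have h1 : (S.slots u).erase f = (S.slots v).erase g := by
    refine H.image_inj (i := S.pt f) (fun x hx => ?_) (fun x hx => ?_) h
    · exact (H.pt_of_mem (mem_of_mem_erase hx)).trans hpu.symm
    · exact (H.pt_of_mem (mem_of_mem_erase hx)).trans (hfg.trans hpv).symm
  by_cases huv : u = v
  · subst huv
    exact ⟨rfl, H.gad_eq hf hg hu hv⟩
  · exfalso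
    have h2 := H.sp.keys f hf g hg u hu v hv huv h1
    rw [Br_fb] at hne
    simp only at hne
    rw [h2] at hne
    simp at hne

/-- ends of a gadget -/
theorem Br_OK.fb_inj (H : Br_OK S ι W0 Sp k D D0 B) {f : F} (hf : f ∈ Sp) {u v : W}
    (hu : u ∈ S.en f) (hv : v ∈ S.en f) (h : (Br_fb S ι lo f u).1 = (Br_fb S ι lo f v).1) :
    u = v := by
  by_contra huv
  have hpu : S.pt f = S.vp u := H.ok.vp_eq f u hu
  have hpv : S.pt f = S.vp v := H.ok.vp_eq f v hv
  have h1 : (S.slots u).erase f = (S.slots v).erase f := by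
    refine H.image_inj (i := S.pt f) (fun x hx => ?_) (fun x hx => ?_) h
    · exact (H.pt_of_mem (mem_of_mem_erase hx)).trans hpu.symm
    · exact (H.pt_of_mem (mem_of_mem_erase hx)).trans hpv.symm
  refine H.ok.slots_ne u v huv ?_
  rw [← insert_erase (Br_mem_slots.2 hu), ← insert_erase (Br_mem_slots.2 hv), h1]

theorem Br_OK.insert_fb (H : Br_OK S ι W0 Sp k D D0 B) {f : F} {u : W} (hu : u ∈ S.en f) :
    (insert (ι f) (Br_fb S ι lo f u).1, (Br_fb S ι lo f u).2) = Br_fm S ι lo u := by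
  have : insert (ι f) (((S.slots u).erase f).image ι) = (S.slots u).image ι := by
    rw [← image_insert, insert_erase (Br_mem_slots.2 hu)]
  simp only [Br_fb, Br_fm, this]

theorem Br_OK.notMem_fb (H : Br_OK S ι W0 Sp k D D0 B) {f : F} {u : W} (hu : u ∈ S.en f) :
    ι f ∉ (Br_fb S ι lo f u).1 := by
  intro h
  obtain ⟨g, hg, hgf⟩ := mem_image.1 h
  have h1 := H.pt_of_mem (mem_of_mem_erase hg)
  have h2 := H.ok.vp_eq f u hu
  have : g = f := H.inj g f (h1.trans h2.symm) hgf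
  exact (ne_of_mem_erase hg) this

theorem Br_mem_S {i : I} {φ : Frm s} : φ ∈ (Br_sys S ι lo W0 Sp).S i ↔
    ∃ w, w ∉ W0 ∧ S.vp w = i ∧ Br_fm S ι lo w = φ := by
  simp [Br_sys, and_assoc]

theorem Br_mem_Gd {i : I} {g : Fin s × Finset (Frm s)} : g ∈ (Br_sys S ι lo W0 Sp).Gd i ↔
    ∃ f, f ∈ Sp ∧ S.pt f = i ∧ (ι f, (S.en f).image (Br_fb S ι lo f)) = g := by
  simp [Br_sys, and_assoc]

theorem Br_mem_Bf {i : I} {β : Frm s} (h : β ∈ (Br_sys S ι lo W0 Sp).Bf i) :
    ∃ f ∈ Sp, S.pt f = i ∧ ∃ u ∈ S.en f, Br_fb S ι lo f u = β ∧ β.1.Nonempty ∧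
      ¬ (β.1.card = 1 ∧ β.2 = (Br_sys S ι lo W0 Sp).z) := by
  rw [PSys.Bf, mem_filter, mem_biUnion] at h
  obtain ⟨⟨g, hg, hβ⟩, hne, hz⟩ := h
  obtain ⟨f, hf, hfi, rfl⟩ := Br_mem_Gd.1 hg
  obtain ⟨u, hu, rfl⟩ := mem_image.1 hβ
  exact ⟨f, hf, hfi, u, hu, rfl, hne, hz⟩

theorem Br_kd_some {i : I} {j : Fin s} : (Br_sys S ι lo W0 Sp).kd i j = some true ↔
    ∃ f, S.pt f = i ∧ ι f = j := by
  simp only [Br_sys]
  split_ifs with h <;> simp [h]

theorem Br_kd_ne {i : I} {j : Fin s} : (Br_sys S ι lo W0 Sp).kd i j ≠ none ↔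
    ∃ f, S.pt f = i ∧ ι f = j := by
  simp only [Br_sys]
  split_ifs with h <;> simp [h]

theorem Br_kd_false {i : I} {j : Fin s} : (Br_sys S ι lo W0 Sp).kd i j ≠ some false := by
  simp only [Br_sys]
  split_ifs with h <;> simp

/-- counting gadget ends by vertices -/
theorem Br_OK.sum_ends_le (H : Br_OK S ι W0 Sp k D D0 B) (P : F → W → Prop)
    [∀ f, DecidablePred (P f)] (Q : W → Prop) [DecidablePred Q]
    (h : ∀ f ∈ Sp, ∀ u ∈ S.en f, P f u → Q u) :
    ∑ f ∈ Sp, ((S.en f).filter (P f)).card ≤ (univ.filter Q).card := by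
  rw [← card_biUnion]
  · refine card_le_card fun u hu => ?_
    simp only [mem_biUnion, mem_filter] at hu
    obtain ⟨f, hf, hu1, hu2⟩ := hu
    simp [h f hf u hu1 hu2]
  · intro f hf g hg hfg
    exact (H.sp.disj f hf g hg hfg).mono (filter_subset _ _) (filter_subset _ _)

/-- sums over gadgets -/
theorem Br_sum_Gd_le (P : Frm s → Prop) [DecidablePred P] :
    ∑ Q, ∑ g ∈ (Br_sys S ι lo W0 Sp).Gd Q, (g.2.filter P).card ≤
      ∑ f ∈ Sp, ((S.en f).filter fun u => P (Br_fb S ι lo f u)).card := by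
  have h1 : ∀ Q, ∑ g ∈ (Br_sys S ι lo W0 Sp).Gd Q, (g.2.filter P).card ≤
      ∑ f ∈ Sp.filter (fun f => S.pt f = Q),
        ((S.en f).filter fun u => P (Br_fb S ι lo f u)).card := by
    intro Q
    refine (Br_sum_over_image_le (Sp.filter fun f => S.pt f = Q)
      (fun f => (ι f, (S.en f).image (Br_fb S ι lo f))) (fun g => (g.2.filter P).card)).trans ?_
    refine sum_le_sum fun f _ => ?_
    have : ((S.en f).image (Br_fb S ι lo f)).filter P ⊆
        ((S.en f).filter fun u => P (Br_fb S ι lo f u)).image (Br_fb S ι lo f) := by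
      intro x hx
      simp only [mem_filter, mem_image] at hx ⊢
      obtain ⟨⟨u, hu, rfl⟩, hp⟩ := hx
      exact ⟨u, ⟨hu, hp⟩, rfl⟩
    exact (card_le_card this).trans card_image_le
  refine (sum_le_sum fun Q _ => h1 Q).trans (le_of_eq ?_)
  exact sum_fiberwise_of_maps_to (s := Sp) (t := univ) (g := S.pt) (fun _ _ => mem_univ _) _

end Pool.Agent.AMX
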