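import Pool.Agent.AMX.Br1

/-!
# From part systems (`AMX.PS`) to systems of parts (`AMA.PSys`): the hypotheses `PSOK`
-/

set_option autoImplicit false
set_option linter.unusedSectionVars false
set_option linter.unusedVariables false

namespace Pool.Agent.AMX

open Finset
open Pool.Agent.AMA (Frm val PSys PSOK Spec LamOK Occ GOK)

/-- the `h` smallest elements -/
theorem Br_split (L : Finset ℕ) (h : ℕ) (hh : h ≤ L.card) :
    ∃ A ⊆ L, A.card = h ∧ ∀ a ∈ A, ∀ b ∈ L \ A, a < b := by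
  induction h with
  | zero => exact ⟨∅, by simp, by simp, by simp⟩
  | succ h ih =>
    obtain ⟨A, hAL, hA, hlt⟩ := ih (by omega)
    have hne : (L \ A).Nonempty := by
      rw [← card_pos, card_sdiff_of_subset hAL]
      omega
    set m := (L \ A).min' hne with hm
    have hmm : m ∈ L \ A := min'_mem _ _
    refine ⟨insert m A, insert_subset (mem_sdiff.1 hmm).1 hAL, ?_, ?_⟩
    · rw [card_insert_of_notMem (mem_sdiff.1 hmm).2, hA]
    · intro a ha b hb
      have hb' : b ∈ L \ A := by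
        rw [mem_sdiff] at hb ⊢
        exact ⟨hb.1, fun h => hb.2 (mem_insert_of_mem h)⟩
      rcases mem_insert.1 ha with rfl | ha
      · refine lt_of_le_of_ne (min'_le _ _ hb') ?_
        intro h
        apply (mem_sdiff.1 hb).2
        rw [← h]
        exact mem_insert_self _ _
      · exact hlt a ha b hb'

/-- the label sets -/
def Br_Lam (X A : Finset ℕ) (b : Bool) (md : Fin 3) : Finset ℕ :=
  if b = true then (if md = 0 then X else if md = 1 then A else X \ A) else ∅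

/-- half of the number of labels -/
def Br_h (h0 : ℕ) (b : Bool) : ℕ := if b = true then h0 else 0

theorem Br_LamOK {X A : Finset ℕ} {h0 R : ℕ} (hX : X.card = 2 * h0) (hA : A ⊆ X)
    (hAc : A.card = h0) (hlt : ∀ a ∈ A, ∀ b ∈ X \ A, a < b) (hpos : ∀ a ∈ X, 1 ≤ a)
    (hR : ∀ a ∈ X, a ≤ R) : LamOK (Br_Lam X A) (Br_h h0) R := by
  refine ⟨?_, ?_, ?_, ?_, ?_, ?_, ?_⟩
  · intro k
    cases k
    · simp [Br_Lam]
    · simp only [Br_Lam, if_true]
      simp only [show ((2 : Fin 3) = 0) = False by simp, show ((2 : Fin 3) = 1) = False by simp,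
        show ((1 : Fin 3) = 0) = False by simp, if_false]
      rw [union_sdiff_of_subset hA]
  · intro k
    cases k
    · simp [Br_Lam]
    · simp only [Br_Lam, if_true]
      simp only [show ((2 : Fin 3) = 0) = False by simp, show ((2 : Fin 3) = 1) = False by simp,
        show ((1 : Fin 3) = 0) = False by simp, if_false]
      exact hlt
  · intro k
    cases k
    · simp [Br_Lam, Br_h]
    · simp [Br_Lam, Br_h, hAc]
  · intro k
    cases k
    · simp [Br_Lam, Br_h]
    · simp only [Br_Lam, Br_h, if_true]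
      simp only [show ((2 : Fin 3) = 0) = False by simp, show ((2 : Fin 3) = 1) = False by simp,
        if_false]
      rw [card_sdiff_of_subset hA]
      omega
  · intro k
    cases k
    · simp [Br_Lam]
    · simpa [Br_Lam] using hpos
  · intro k
    cases k
    · simp [Br_Lam]
    · simpa [Br_Lam] using hR
  · simp [Br_Lam]

variable {F W I : Type} [Fintype F] [DecidableEq F] [Fintype W] [DecidableEq W] [Fintype I]
  [DecidableEq I] {p : ℕ} {s : ℕ}
  {S : PS F W I p} {ι : F → Fin s} {lo : ℕ} {W0 : Finset W} {Sp : Finset F} {k D D0 B : ℕ}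

/-- the special forms: gadget ends with at least two slots -/
def Br_Sp (S : PS F W I p) (ι : F → Fin s) (lo : ℕ) (Sp : Finset F) (i : I) : Finset (Frm s) :=
  ((univ.filter fun w => (∃ f ∈ Sp, w ∈ S.en f) ∧ 2 ≤ (S.slots w).card).filter
    fun w => S.vp w = i).image (Br_fm S ι lo)

theorem Br_OK.card_part (H : Br_OK S ι W0 Sp k D D0 B) (i : I) :
    (univ.filter fun f => S.pt f = i).card ≤ k := by
  have := H.ok.part_le i
  rwa [Set.ncard_eq_toFinset_card', Set.toFinset_ofPred] at this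

theorem Br_OK.card_vert (H : Br_OK S ι W0 Sp k D D0 B) (i : I) :
    (univ.filter fun w => S.vp w = i).card ≤ 2 * k := by
  have h1 : (univ.filter fun w => S.vp w = i) ⊆
      (univ.filter fun f => S.pt f = i).biUnion S.en := by
    intro w hw
    obtain ⟨f, hf⟩ := H.ok.has_slot w
    rw [mem_biUnion]
    refine ⟨f, ?_, Br_mem_slots.1 hf⟩
    simp only [mem_filter, mem_univ, true_and] at hw ⊢
    exact (H.pt_of_mem hf).trans hw
  refine (card_le_card h1).trans ?_
  refine (card_biUnion_le_card_mul _ _ 2 fun f _ => H.ok.en_le f).trans ?_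
  have := H.card_part i
  omega

theorem Br_OK.card_I (H : Br_OK S ι W0 Sp k D D0 B) : Fintype.card I ≤ Fintype.card F :=
  Fintype.card_le_of_surjective S.pt fun i => H.ok.part_pos i

/-- a gadget has an end with at least two slots -/
theorem Br_OK.two_slots (H : Br_OK S ι W0 Sp k D D0 B) {f : F} (hf : f ∈ Sp) :
    ∃ u ∈ S.en f, 2 ≤ (S.slots u).card := by
  by_contra hcon
  push Not at hcon
  obtain ⟨u, v, huv, hen⟩ := card_eq_two.1 (H.sp.two f hf)
  have hu : u ∈ S.en f := by rw [hen]; simp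
  have hv : v ∈ S.en f := by rw [hen]; simp
  have h1 : ∀ w ∈ S.en f, S.slots w = {f} := by
    intro w hw
    have h2 := hcon w hw
    have h3 : f ∈ S.slots w := Br_mem_slots.2 hw
    have h4 : (S.slots w).card = 1 := by
      have := card_pos.2 ⟨f, h3⟩
      omega
    obtain ⟨g, hg⟩ := card_eq_one.1 h4
    rw [hg] at h3 ⊢
    rw [mem_singleton.1 h3]
  exact H.ok.slots_ne u v huv ((h1 u hu).trans (h1 v hv).symm)

theorem Br_off_eq [NeZero p] {w : W} {δ : ℕ} (h : Br_off S lo w = δ) :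
    S.c w = (δ : ZMod p) - (S.slots w).card * ((lo : ZMod p) - 1) := by
  have h1 : ((Br_off S lo w : ℕ) : ZMod p) = δ := by rw [h]
  rw [Br_off, ZMod.natCast_zmod_val] at h1
  rw [← h1]
  ring

theorem Br_OK.card_Gd (H : Br_OK S ι W0 Sp k D D0 B) (i : I) :
    ((Br_sys S ι lo W0 Sp).Gd i).card ≤ (Sp.filter fun f => S.pt f = i).card := card_image_le

theorem Br_OK.card_Bf (H : Br_OK S ι W0 Sp k D D0 B) (i : I) :
    ((Br_sys S ι lo W0 Sp).Bf i).card ≤ 2 * (Sp.filter fun f => S.pt f = i).card := by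
  have h1 : ((Br_sys S ι lo W0 Sp).Bf i).card ≤
      (((Br_sys S ι lo W0 Sp).Gd i).biUnion fun g => g.2).card := card_filter_le _ _
  have h2 : (((Br_sys S ι lo W0 Sp).Gd i).biUnion fun g => g.2).card ≤
      ((Br_sys S ι lo W0 Sp).Gd i).card * 2 := by
    refine card_biUnion_le_card_mul _ _ _ fun g hg => ?_
    obtain ⟨f, hf, hfi, rfl⟩ := Br_mem_Gd.1 hg
    exact card_image_le.trans (H.ok.en_le f)
  have h3 := H.card_Gd (lo := lo) i
  omega

/-- **The hypotheses of the parts theorem.** -/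
theorem Br_PSOK [NeZero p] (H : Br_OK S ι W0 Sp k D D0 B) {X A : Finset ℕ} {h0 R : ℕ} {C β : ℝ}
    (hs : s = 2 * k)
    (hLam : LamOK (Br_Lam X A) (Br_h h0) R) (hR : R < p) (hsR : s * R < p)
    (hpC : (p : ℝ) ≤ C * Fintype.card F) (hh0 : Fintype.card F ≤ 2 * h0)
    (hh1 : 2 * h0 ≤ 2 * Fintype.card F) (hβ : 0 ≤ β) (hSp : β * Fintype.card F ≤ Sp.card)
    (hW0 : (univ.filter fun w => w ∉ W0).card ≤ Fintype.card F) :
    PSOK (Br_sys S ι lo W0 Sp) (Br_Lam X A) (Br_h h0) R p (Fintype.card F) D0 B (1 / 2) C (β / 2) β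
      (Br_Sp S ι lo Sp) (fun b => Br_Lam X A b 0) := by
  have hfm1 : ∀ w, (Br_fm S ι lo w).1 = (S.slots w).image ι := fun w => rfl
  have hfb1 : ∀ f u, (Br_fb S ι lo f u).1 = ((S.slots u).erase f).image ι := fun f u => rfl
  have hfm2 : ∀ w, (Br_fm S ι lo w).2 = Br_off S lo w := fun w => rfl
  have hfb2 : ∀ f u, (Br_fb S ι lo f u).2 = Br_off S lo u := fun f u => rfl
  have hhr : (Fintype.card F : ℝ) ≤ 2 * h0 := by exact_mod_cast hh0
  have hCF0 : (0 : ℝ) ≤ Fintype.card F := Nat.cast_nonneg _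
  have hactm : ∀ Q, ∀ w, S.vp w = Q → ∀ i ∈ (Br_fm S ι lo w).1,
      (Br_sys S ι lo W0 Sp).kd Q i = some true := by
    intro Q w hw i hi
    obtain ⟨f, hf, rfl⟩ := mem_image.1 hi
    exact Br_kd_some.2 ⟨f, (H.pt_of_mem hf).trans hw, rfl⟩
  have hactb : ∀ Q, ∀ f ∈ Sp, S.pt f = Q → ∀ u ∈ S.en f, ∀ i ∈ (Br_fb S ι lo f u).1,
      (Br_sys S ι lo W0 Sp).kd Q i = some true := by
    intro Q f hf hfQ u hu i hi
    obtain ⟨g, hg, rfl⟩ := mem_image.1 hi
    exact Br_kd_some.2 ⟨g, (H.pt_of_mem (mem_of_mem_erase hg)).trans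
      ((H.ok.vp_eq f u hu).symm.trans hfQ), rfl⟩
  have hmult : ∀ y : ZMod p, (univ.filter fun w => w ∉ S.zt ∧ S.c w = y).card ≤ B := H.ok.mult
  refine
    { lam := hLam
      cardP := H.card_I
      Rp := hR
      sRp := hsR
      pN := hpC
      hlow := ?_
      hhigh := ?_
      slH := ?_
      slL := ?_
      S_act := ?_
      S_hi := ?_
      S_inj := ?_
      S_lt := ?_
      S_card := ?_
      S_sum := ?_
      Sp_sub := ?_
      Sp_spec := ?_
      Sp_sum := ?_
      G_act := ?_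
      G_uniq := ?_
      G_card := ?_
      G_notin := ?_
      G_S := ?_
      G_ne := ?_
      B_card := ?_
      B_H := ?_
      B_L := ?_
      G_sum := ?_
      m1 := ?_
      m2 := ?_
      m2' := ?_
      m3 := ?_
      m4 := ?_
      W_sub := ?_
      W_card := ?_ }
  · -- hlow
    intro b hb
    obtain ⟨Q, i, hQ⟩ := hb
    cases b
    · exact absurd hQ Br_kd_false
    · simp only [Br_h, if_true]
      linarith
  · simp only [Br_h, if_true]
    linarith
  · -- slH
    have h1 : ∀ Q, (univ.filter fun i => (Br_sys S ι lo W0 Sp).kd Q i = some true).card ≤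
        (univ.filter fun f => S.pt f = Q).card := by
      intro Q
      have : (univ.filter fun i => (Br_sys S ι lo W0 Sp).kd Q i = some true) ⊆
          (univ.filter fun f => S.pt f = Q).image ι := by
        intro i hi
        rw [mem_filter, Br_kd_some] at hi
        obtain ⟨-, f, hf, rfl⟩ := hi
        exact mem_image_of_mem _ (by simp [hf])
      exact (card_le_card this).trans card_image_le
    refine (sum_le_sum fun Q _ => h1 Q).trans ?_
    rw [Br_sum_filter_card]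
    simpa [Br_h] using hh0
  · -- slL
    have h1 : ∀ Q, (univ.filter fun i => (Br_sys S ι lo W0 Sp).kd Q i = some false).card = 0 := by
      intro Q
      rw [card_eq_zero, filter_eq_empty_iff]
      intro i _
      exact Br_kd_false
    rw [sum_congr rfl fun Q _ => h1 Q]
    simp
  · -- S_act
    intro Q φ hφ i hi
    obtain ⟨w, -, hw, rfl⟩ := Br_mem_S.1 hφ
    rw [hactm Q w hw i hi]
    simp
  · -- S_hi
    intro Q φ hφ
    obtain ⟨w, -, hw, rfl⟩ := Br_mem_S.1 hφ
    obtain ⟨f, hf⟩ := H.ok.has_slot w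
    exact ⟨ι f, mem_image_of_mem _ hf, hactm Q w hw _ (mem_image_of_mem _ hf)⟩
  · -- S_inj
    intro Q φ hφ ψ hψ h
    obtain ⟨w, -, hw, rfl⟩ := Br_mem_S.1 hφ
    obtain ⟨w', -, hw', rfl⟩ := Br_mem_S.1 hψ
    rw [H.fm_inj (hw.trans hw'.symm) h]
  · -- S_lt
    intro Q φ hφ
    obtain ⟨w, -, hw, rfl⟩ := Br_mem_S.1 hφ
    exact ZMod.val_lt _
  · -- S_card
    intro Q
    refine (card_image_le.trans ((card_le_card ?_).trans (H.card_vert Q))).trans hs.ge
    intro w hw
    simp only [mem_filter, mem_univ, true_and] at hw ⊢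
    exact hw.2
  · -- S_sum
    have h1 : ∀ Q, ((Br_sys S ι lo W0 Sp).S Q).card ≤
        ((univ.filter fun w => w ∉ W0).filter fun w => S.vp w = Q).card := fun Q => card_image_le
    refine (sum_le_sum fun Q _ => h1 Q).trans ?_
    rw [Br_sum_filter_card]
    simp only [Br_h, if_true]
    exact hW0.trans hh0
  · -- Sp_sub
    intro Q φ hφ
    simp only [Br_Sp, mem_image, mem_filter, mem_univ, true_and] at hφ
    obtain ⟨w, ⟨⟨⟨f, hf, hwf⟩, hw2⟩, hw⟩, rfl⟩ := hφ
    exact Br_mem_S.2 ⟨w, H.w0 f hf w hwf, hw, rfl⟩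
  · -- Sp_spec
    intro Q φ hφ
    simp only [Br_Sp, mem_image, mem_filter, mem_univ, true_and] at hφ
    obtain ⟨w, ⟨⟨⟨f, hf, hwf⟩, hw2⟩, hw⟩, rfl⟩ := hφ
    refine ⟨?_, ?_⟩
    · rw [H.fm_card]
      have := H.sp0 f hf w hwf
      omega
    · have h2 : 1 < (Br_fm S ι lo w).1.card := by
        rw [H.fm_card]
        omega
      obtain ⟨i, hi, j, hj, hij⟩ := one_lt_card.1 h2
      exact ⟨i, hi, j, hj, hij, hactm Q w hw i hi, Or.inl (hactm Q w hw j hj)⟩
  · -- Sp_sum
    have h1 : ∑ Q, (Br_Sp S ι lo Sp Q).card =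
        (univ.filter fun w => (∃ f ∈ Sp, w ∈ S.en f) ∧ 2 ≤ (S.slots w).card).card := by
      refine Br_sum_image_eq _ _ _ ?_
      intro a _ a' _ h1 h2
      exact H.fm_inj h1 (by rw [h2])
    have h2 : Sp.card ≤
        (univ.filter fun w => (∃ f ∈ Sp, w ∈ S.en f) ∧ 2 ≤ (S.slots w).card).card := by
      have h0 : Sp.card ≤ ∑ f ∈ Sp, ((S.en f).filter fun w => 2 ≤ (S.slots w).card).card := by
        rw [card_eq_sum_ones]
        refine sum_le_sum fun f hf => ?_
        obtain ⟨u, hu, hu2⟩ := H.two_slots hf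
        exact card_pos.2 ⟨u, mem_filter.2 ⟨hu, hu2⟩⟩
      exact h0.trans (H.sum_ends_le _ _ fun f hf u hu h => ⟨⟨f, hf, hu⟩, h⟩)
    have h3 : ((∑ Q, (Br_Sp S ι lo Sp Q).card : ℕ) : ℝ) = ∑ Q, ((Br_Sp S ι lo Sp Q).card : ℝ) := by
      push_cast
      rfl
    rw [← h3, h1]
    have h4 : ((Sp.card : ℕ) : ℝ) ≤ ((univ.filter fun w =>
      (∃ f ∈ Sp, w ∈ S.en f) ∧ 2 ≤ (S.slots w).card).card : ℕ) := by exact_mod_cast h2
    refine le_trans ?_ h4
    refine le_trans ?_ hSp
    have h5 : ((2 * Br_h h0 true : ℕ) : ℝ) ≤ 2 * Fintype.card F := by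
      simp only [Br_h, if_true]
      exact_mod_cast hh1
    nlinarith
  · -- G_act
    intro Q g hg
    obtain ⟨f, hf, hfi, rfl⟩ := Br_mem_Gd.1 hg
    exact Br_kd_ne.2 ⟨f, hfi, rfl⟩
  · -- G_uniq
    intro Q g hg g' hg' h
    obtain ⟨f, hf, hfi, rfl⟩ := Br_mem_Gd.1 hg
    obtain ⟨f', hf', hfi', rfl⟩ := Br_mem_Gd.1 hg'
    have : f = f' := H.inj f f' (hfi.trans hfi'.symm) h
    rw [this]
  · -- G_card
    intro Q g hg
    obtain ⟨f, hf, hfi, rfl⟩ := Br_mem_Gd.1 hg
    exact ⟨(H.ok.en_pos f).image _, card_image_le.trans (H.ok.en_le f)⟩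
  · -- G_notin
    intro Q g hg β hβ
    obtain ⟨f, hf, hfi, rfl⟩ := Br_mem_Gd.1 hg
    obtain ⟨u, hu, rfl⟩ := mem_image.1 hβ
    exact H.notMem_fb hu
  · -- G_S
    intro Q g hg β hβ
    obtain ⟨f, hf, hfi, rfl⟩ := Br_mem_Gd.1 hg
    obtain ⟨u, hu, rfl⟩ := mem_image.1 hβ
    rw [H.insert_fb hu]
    exact Br_mem_S.2 ⟨u, H.w0 f hf u hu, (H.ok.vp_eq f u hu).symm.trans hfi, rfl⟩
  · -- G_ne
    intro Q g hg β hβ β' hβ' h
    obtain ⟨f, hf, hfi, rfl⟩ := Br_mem_Gd.1 hg
    obtain ⟨u, hu, rfl⟩ := mem_image.1 hβ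
    obtain ⟨v, hv, rfl⟩ := mem_image.1 hβ'
    rw [H.fb_inj hf hu hv h]
  · -- B_card
    intro Q
    refine (H.card_Bf Q).trans ?_
    have h1 : (Sp.filter fun f => S.pt f = Q).card ≤ (univ.filter fun f => S.pt f = Q).card :=
      card_le_card (filter_subset_filter _ (subset_univ _))
    have := H.card_part Q
    omega
  · -- B_H
    have h1 : ∀ Q, (((Br_sys S ι lo W0 Sp).Bf Q).filter
        fun β => (Br_sys S ι lo W0 Sp).tg Q β = 2).card ≤
        2 * (Sp.filter fun f => S.pt f = Q).card := fun Q =>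
      (card_filter_le _ _).trans (H.card_Bf Q)
    refine (sum_le_sum fun Q _ => h1 Q).trans ?_
    rw [← mul_sum, Br_sum_filter_card]
    have := H.sp.le
    simp only [Br_h, if_true]
    omega
  · -- B_L
    have h1 : ∀ Q, (((Br_sys S ι lo W0 Sp).Bf Q).filter
        fun β => (Br_sys S ι lo W0 Sp).tg Q β = 3).card = 0 := by
      intro Q
      rw [card_eq_zero, filter_eq_empty_iff]
      intro β hβ h3
      obtain ⟨f, hf, hfi, u, hu, rfl, hne, -⟩ := Br_mem_Bf hβ
      obtain ⟨i, hi⟩ := hne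
      have h4 : ∃ i ∈ (Br_fb S ι lo f u).1, (Br_sys S ι lo W0 Sp).kd Q i = some true :=
        ⟨i, hi, hactb Q f hf hfi u hu i hi⟩
      rw [PSys.tg, if_pos h4] at h3
      exact absurd h3 (by decide)
    rw [sum_congr rfl fun Q _ => h1 Q]
    simp
  · -- G_sum
    have h1 : ∑ Q, ((Br_sys S ι lo W0 Sp).Gd Q).card = Sp.card := by
      refine Br_sum_image_eq _ _ _ ?_
      intro a _ a' _ h1 h2
      exact H.inj a a' h1 (Prod.ext_iff.1 h2).1
    have h3 : ((∑ Q, ((Br_sys S ι lo W0 Sp).Gd Q).card : ℕ) : ℝ) =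
        ∑ Q, (((Br_sys S ι lo W0 Sp).Gd Q).card : ℝ) := by
      push_cast
      rfl
    rw [← h3, h1]
    exact hSp
  · -- m1
    intro δ
    refine (Br_sum_image_le _ _ _ _).trans ((card_le_card ?_).trans
      (hmult ((δ : ZMod p) - ((lo : ZMod p) - 1))))
    intro w hw
    simp only [mem_filter, mem_univ, true_and] at hw ⊢
    obtain ⟨-, hw1, hw2⟩ := hw
    rw [H.fm_card] at hw1
    refine ⟨fun hz => ?_, ?_⟩
    · have := (H.ok.zt_zero w hz).2
      omega
    · have := Br_off_eq hw2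
      rw [this, hw1]
      simp
  · -- m2
    intro δ
    refine (Br_sum_Gd_le _).trans ((H.sum_ends_le _ (fun w => w ∉ S.zt ∧
      S.c w = (δ : ZMod p) - ((lo : ZMod p) - 1)) ?_).trans (hmult _))
    intro f hf u hu ⟨h1, h2⟩
    have h3 := H.fb_card (lo := lo) hu
    rw [h1, card_empty] at h3
    have h4 : 1 ≤ (S.slots u).card := card_pos.2 (H.ok.has_slot u)
    have h5 : (S.slots u).card = 1 := by omega
    refine ⟨fun hz => ?_, ?_⟩
    · have := (H.ok.zt_zero u hz).2
      omega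
    · have := Br_off_eq h2
      rw [this, h5]
      simp
  · -- m2'
    intro δ hδ
    refine (Br_sum_Gd_le _).trans ((H.sum_ends_le _ (fun w => w ∉ S.zt ∧
      S.c w = (δ : ZMod p) - 2 * ((lo : ZMod p) - 1)) ?_).trans (hmult _))
    intro f hf u hu ⟨h1, h2⟩
    have h3 := H.fb_card (lo := lo) hu
    rw [h1] at h3
    have h5 : (S.slots u).card = 2 := by omega
    refine ⟨fun hz => ?_, ?_⟩
    · have h6 := (H.ok.zt_zero u hz).1
      apply hδ
      rw [← h2, hfb2]
      simp only [Br_off, Br_sys, h6, h5]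
      norm_num
    · have := Br_off_eq h2
      rw [this, h5]
      norm_num
  · -- m3
    intro δ
    have h1 : ∀ Q, ((((Br_sys S ι lo W0 Sp).S Q) ×ˢ ((Br_sys S ι lo W0 Sp).Bf Q)).filter fun u =>
        u.1.1 = u.2.1 ∧ u.1.2 % p = (u.2.2 + δ) % p).card = 0 := by
      intro Q
      rw [card_eq_zero, filter_eq_empty_iff]
      rintro ⟨φ, β⟩ h ⟨h1, -⟩
      rw [mem_product] at h
      obtain ⟨w, -, hw, hφ⟩ := Br_mem_S.1 h.1
      obtain ⟨f, hf, hfi, u, hu, hβ, -⟩ := Br_mem_Bf h.2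
      simp only at h1 hφ hβ
      rw [← hφ, ← hβ] at h1
      exact H.fb_ne_fm hf hu (hw.trans hfi.symm) h1
    rw [sum_congr rfl fun Q _ => h1 Q]
    simp
  · -- m4
    intro δ
    have h1 : ∀ Q, ((((Br_sys S ι lo W0 Sp).Bf Q) ×ˢ ((Br_sys S ι lo W0 Sp).Bf Q)).filter fun u =>
        u.1 ≠ u.2 ∧ u.1.1 = u.2.1 ∧ u.1.2 % p = (u.2.2 + δ) % p).card = 0 := by
      intro Q
      rw [card_eq_zero, filter_eq_empty_iff]
      rintro ⟨φ, β⟩ h ⟨h0, h1, -⟩
      rw [mem_product] at h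
      obtain ⟨g, hg, hgi, v, hv, hφ, hne, -⟩ := Br_mem_Bf h.1
      obtain ⟨f, hf, hfi, u, hu, hβ, -⟩ := Br_mem_Bf h.2
      simp only at h0 h1 hφ hβ hne
      rw [← hφ] at hne
      rw [← hφ, ← hβ] at h1
      obtain ⟨rfl, rfl⟩ := H.fb_keys hg hf (hgi.trans hfi.symm) hv hu h1 hne
      exact h0 (hφ.symm.trans hβ)
    rw [sum_congr rfl fun Q _ => h1 Q]
    simp
  · -- W_sub
    intro b
    exact subset_refl _
  · -- W_card
    intro b
    have h1 := hLam.union b
    cases b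
    · simp [Br_h, Br_Lam]
    · have h2 := hLam.card1 true
      have h3 : (Br_Lam X A true 1).card ≤ (Br_Lam X A true 0).card := by
        rw [h1]
        exact card_le_card subset_union_left
      omega

end Pool.Agent.AMX
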