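import Mathlib

/-!
# Part systems (the interface of the theorem PT)

`F`: slots (inner tree edges in parts), `W`: vertices that are no hubs, `I`: parts. All sums are
taken modulo `p`. `c w` is the offset of `w` (labels of leaf edges and background edges),
`zt` the vertices without leaf edges and background edges.
-/

set_option autoImplicit false
set_option linter.unusedSectionVars false
set_option linter.unusedVariables false

namespace Pool.Agent.AMX

open Finset

/-- A part system. -/
structure PS (F W I : Type) (p : ℕ) where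
  /-- the ends of a slot that are no hubs (one or two) -/
  en : F → Finset W
  /-- part of a slot -/
  pt : F → I
  /-- part of a vertex -/
  vp : W → I
  /-- offset of a vertex -/
  c : W → ZMod p
  /-- vertices of zero type -/
  zt : Finset W

section

variable {F W I : Type} [Fintype F] [DecidableEq F] [Fintype W] [DecidableEq W] {p : ℕ}

/-- the slots at a vertex -/
def PS.slots (S : PS F W I p) (w : W) : Finset F := univ.filter fun f => w ∈ S.en f

/-- the sum at a vertex -/
def PS.sum (S : PS F W I p) (lab : F → ℕ) (w : W) : ZMod p :=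
  S.c w + ∑ f ∈ S.slots w, (lab f : ZMod p)

/-- Admissible part systems: parts with at most `k` slots, vertices with at most `D` slots, offsets
of multiplicity at most `B` (apart from the vertices of zero type). -/
structure PS.Ok (S : PS F W I p) (k D B : ℕ) : Prop where
  part_le : ∀ i, Set.ncard {f | S.pt f = i} ≤ k
  part_pos : ∀ i, ∃ f, S.pt f = i
  en_pos : ∀ f, (S.en f).Nonempty
  en_le : ∀ f, (S.en f).card ≤ 2
  vp_eq : ∀ f, ∀ w ∈ S.en f, S.pt f = S.vp w
  has_slot : ∀ w, (S.slots w).Nonempty
  slots_ne : ∀ w w', w ≠ w' → S.slots w ≠ S.slots w'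
  slots_le : ∀ w, (S.slots w).card ≤ D
  zt_zero : ∀ w ∈ S.zt, S.c w = 0 ∧ 2 ≤ (S.slots w).card
  mult : ∀ y, (univ.filter fun w => w ∉ S.zt ∧ S.c w = y).card ≤ B

/-- Admissible sets of gadget slots. -/
structure PS.SpOk (S : PS F W I p) (Sp : Finset F) : Prop where
  two : ∀ f ∈ Sp, (S.en f).card = 2
  disj : ∀ f ∈ Sp, ∀ g ∈ Sp, f ≠ g → Disjoint (S.en f) (S.en g)
  star : ∀ f ∈ Sp, ∀ u ∈ S.en f, ∀ w, S.slots w ≠ (S.slots u).erase f
  keys : ∀ f ∈ Sp, ∀ g ∈ Sp, ∀ u ∈ S.en f, ∀ v ∈ S.en g, u ≠ v →
    (S.slots u).erase f = (S.slots v).erase g → (S.slots u).erase f = ∅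
  le : 3 * Sp.card ≤ Fintype.card F

end

/-- Admissible label sets: `n` labels in an interval of length `len`, sums of at most `D` labels do
not wrap around modulo `p`. -/
structure LOk (L : Finset ℕ) (n D p lo len : ℕ) : Prop where
  card : L.card = n
  lo : ∀ a ∈ L, lo ≤ a ∧ a < lo + len
  wrap : (D + 1) * len ≤ p

/-- the lower half of `L` -/
def lowH (L : Finset ℕ) : Finset ℕ := L.filter fun a => (L.filter (· < a)).card < L.card / 2

/-- the upper half of `L` -/
def highH (L : Finset ℕ) : Finset ℕ := L \ lowH L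

/-- number of tuples of elements of `A` with sum `t` modulo `p` -/
def cnt (p : ℕ) (A : Finset ℕ) (d : ℕ) (t : ZMod p) : ℕ :=
  ((Fintype.piFinset fun _ : Fin d => A).filter fun l => ∑ i, ((l i : ℕ) : ZMod p) = t).card

/-- Probability that the sum of `d` labels is `t`: with probability `1/2` all labels are uniform in
`L`, otherwise all are uniform in the same half of `L`. -/
noncomputable def pd (p : ℕ) (L : Finset ℕ) (d : ℕ) (t : ZMod p) : ℝ :=
  1 / 2 * ((cnt p L d t : ℝ) / (L.card : ℝ) ^ d) +
  1 / 2 * (((lowH L).card : ℝ) / L.card) * ((cnt p (lowH L) d t : ℝ) / ((lowH L).card : ℝ) ^ d) +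
  1 / 2 * (((highH L).card : ℝ) / L.card) * ((cnt p (highH L) d t : ℝ) / ((highH L).card : ℝ) ^ d)

section

variable {F W I : Type} [Fintype F] [DecidableEq F] [Fintype W] [DecidableEq W] {p : ℕ}

/-- The gadget `g` is valid for the test `(C1, C2, l)`: when the label `lab g` goes to a slot with
partial sums `C1, C2` and is replaced by `l`, all four new sums are in `T`, and the new sums at the
two slots are different from each other. -/
def Vd (S : PS F W I p) (T : Finset (ZMod p)) (lab : F → ℕ) (C1 C2 l : ZMod p) (g : F) : Prop :=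
  C1 + lab g ∈ T ∧ C2 + lab g ∈ T ∧ ∀ u ∈ S.en g, S.sum lab u - lab g + l ∈ T ∧
    S.sum lab u - lab g + l ≠ C1 + lab g ∧ S.sum lab u - lab g + l ≠ C2 + lab g

/-- What the hypergraph part provides: a bijection `lab` between slots and labels, a set `Rg` of
regular vertices with distinct sums outside `T`, gadgets `Gd` with ends in `Rg`, at least `q` valid
gadgets for every test, at most `B` gadgets with a given key. -/
structure Out (S : PS F W I p) (L : Finset ℕ) (Sp : Finset F) (T : Finset (ZMod p)) (lab : F → ℕ)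
    (Rg : Finset W) (Gd : Finset F) (q : ℝ) (B : ℕ) : Prop where
  inj : Function.Injective lab
  mem : ∀ f, lab f ∈ L
  sinj : ∀ w ∈ Rg, ∀ w' ∈ Rg, S.sum lab w = S.sum lab w' → w = w'
  nT : ∀ w ∈ Rg, S.sum lab w ∉ T
  gsub : Gd ⊆ Sp
  gRg : ∀ g ∈ Gd, S.en g ⊆ Rg
  key : ∀ y : ZMod p, (open Classical in (Gd.filter fun g => ∃ u ∈ S.en g, S.sum lab u - lab g = y).card) ≤ B
  test : ∀ C1 C2 l : ZMod p, q ≤ (open Classical in ((Gd.filter fun g => Vd S T lab C1 C2 l g).card : ℝ))

end

end Pool.Agent.AMX
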