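import Pool.Agent.AMX.Sk2Slot

/-!
# The slots with extra slots in small components; gadgets
-/

set_option autoImplicit false
set_option linter.unusedSectionVars false
set_option linter.unusedVariables false

namespace Pool.Agent.AMX

open Finset Pool.Agent.MP6be45b.TreePart

variable {W : Type*} [Fintype W] [DecidableEq W] {H : SimpleGraph W} {p : W → W}
  {h : W → ℕ} {Z : Finset W} {prt : W → Finset W} {K k0 D : ℕ} {X : Finset (Sym2 W)}

/-- the slots: slots in the forest and extra slots -/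
noncomputable def xF (p : W → W) (Z : Finset W) (prt : W → Finset W) (X : Finset (Sym2 W)) :
    Finset (Sym2 W) := slF p Z prt ∪ X

theorem mem_xF {e : Sym2 W} : e ∈ xF p Z prt X ↔ e ∈ slF p Z prt ∨ e ∈ X := mem_union

theorem SkCtx2.xhas_slot (C : SkCtx2 H p h Z prt K k0 D) {w : W} (hw : w ∉ Z) :
    ∃ e ∈ slF p Z prt, w ∈ e := by
  obtain ⟨e, he⟩ := C.has_slot hw
  exact ⟨e, mem_slAt.1 he⟩

theorem SkCtx2.x_slots_ne (C : SkCtx2 H p h Z prt K k0 D) {w w' : W} (hw : w ∉ Z) (hw' : w' ∉ Z)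
    (hne : w ≠ w') : slAt (xF p Z prt X) w ≠ slAt (xF p Z prt X) w' := by
  intro heq
  obtain ⟨e, he1, he2⟩ := C.xhas_slot hw
  have hall : ∀ f ∈ slAt (xF p Z prt X) w, f = s(w, w') := fun f hf =>
    two_eq hne hf (heq ▸ hf)
  have hall' : ∀ f ∈ slAt (xF p Z prt X) w', f = s(w, w') := fun f hf => hall f (heq ▸ hf)
  have he' := hall e (mem_slAt.2 ⟨mem_xF.2 (Or.inl he1), he2⟩)
  rw [he'] at he1
  have hmem : w' ∈ prt w := by
    rcases C.edge_cases hw he1 with h1 | h1
    · exact h1.2.1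
    · exact absurd h1.1 hw'
  have := C.tight hw (S := {w, w'}) (by
      intro x hx
      rw [mem_insert, mem_singleton] at hx
      rcases hx with rfl | rfl
      · exact C.mem _ hw
      · exact hmem) ⟨w, by simp⟩
    (by
      intro x hx y hy
      rw [mem_insert, mem_singleton] at hx ⊢
      rcases hx with rfl | rfl
      · have h2 := hall _ (mem_slAt.2 ⟨mem_xF.2 (Or.inl hy), Sym2.mem_mk_left _ _⟩)
        rcases Sym2.eq_iff.1 h2 with ⟨-, h3⟩ | ⟨h3, h4⟩
        · exact Or.inr h3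
        · exact Or.inl h4
      · have h2 := hall' _ (mem_slAt.2 ⟨mem_xF.2 (Or.inl hy), Sym2.mem_mk_left _ _⟩)
        rcases Sym2.eq_iff.1 h2 with ⟨h3, h4⟩ | ⟨h3, h4⟩
        · exact Or.inr h4
        · exact Or.inl h4) (by rw [card_pair hne]; have := C.hK; omega)
  have h3 := this.2.1
  rw [card_pair hne] at h3
  omega

theorem SkExt.at_le (hX : SkExt H p Z prt K X) (w : W) : (X.filter fun e => w ∈ e).card ≤ 1 := by
  rw [card_le_one]
  intro e he e' he'
  obtain ⟨h1, h2⟩ := mem_filter.1 he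
  obtain ⟨h3, h4⟩ := mem_filter.1 he'
  exact hX.uniq e h1 e' h3 w h2 w h4 rfl

theorem SkCtx2.x_slots_le (C : SkCtx2 H p h Z prt K k0 D) (hX : SkExt H p Z prt K X) {w : W}
    (hw : w ∉ Z) : (slAt (xF p Z prt X) w).card ≤ D + 2 := by
  have h1 : slAt (xF p Z prt X) w = slAt (slF p Z prt) w ∪ X.filter fun e => w ∈ e := by
    unfold slAt xF
    exact filter_union _ _ _
  rw [h1]
  have h2 := C.slots_le hw
  have h3 := hX.at_le w
  exact (card_union_le _ _).trans (by omega)

theorem SkCtx2.vp_eq (C : SkCtx2 H p h Z prt K k0 D) (hX : SkExt H p Z prt K X) {e : Sym2 W}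
    (he : e ∈ xF p Z prt X) {w : W} (hw : w ∈ e) (hwZ : w ∉ Z) :
    ptOf prt Z e = vpOf prt w := by
  have hx : ∃ w, w ∈ e ∧ w ∉ Z := ⟨w, hw, hwZ⟩
  have h1 : ptOf prt Z e = vpOf prt hx.choose := dif_pos hx
  rw [h1]
  obtain ⟨h2, h3⟩ := hx.choose_spec
  rcases mem_xF.1 he with he | he
  · by_cases hne : w = hx.choose
    · rw [← hne]
    · have h4 : e = s(w, hx.choose) := (Sym2.mem_and_mem_iff hne).1 ⟨hw, h2⟩
      rw [h4] at he
      rcases C.edge_cases hwZ he with h5 | h5
      · show (Fintype.equivFin (Finset W) (prt _)).val = (Fintype.equivFin (Finset W) (prt _)).val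
        rw [(C.eq w _ hwZ h5.2.1).2]
      · exact absurd h5.1 h3
  · show (Fintype.equivFin (Finset W) (prt _)).val = (Fintype.equivFin (Finset W) (prt _)).val
    rw [hX.same e he _ h2 w hw]

theorem SkCtx2.part_le (C : SkCtx2 H p h Z prt K k0 D) (hX : SkExt H p Z prt K X) (i : ℕ) :
    ((xF p Z prt X).filter fun e => ptOf prt Z e = i).card ≤ 2 * k0 + 1 := by
  have hsplit : ((xF p Z prt X).filter fun e => ptOf prt Z e = i) =
      ((slF p Z prt).filter fun e => ptOf prt Z e = i) ∪ (X.filter fun e => ptOf prt Z e = i) := by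
    unfold xF
    exact filter_union _ _ _
  have hXi : (X.filter fun e => ptOf prt Z e = i).card ≤ 1 := by
    rw [card_le_one]
    intro e he e' he'
    obtain ⟨h1, h2⟩ := mem_filter.1 he
    obtain ⟨h3, h4⟩ := mem_filter.1 he'
    obtain ⟨a, ha⟩ : ∃ a, a ∈ e := by
      induction e using Sym2.ind with
      | _ a b => exact ⟨a, Sym2.mem_mk_left _ _⟩
    obtain ⟨b, hb⟩ : ∃ b, b ∈ e' := by
      induction e' using Sym2.ind with
      | _ a b => exact ⟨a, Sym2.mem_mk_left _ _⟩
    have h5 := C.vp_eq hX (mem_xF.2 (Or.inr h1)) ha (hX.nonhub e h1 a ha)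
    have h6 := C.vp_eq hX (mem_xF.2 (Or.inr h3)) hb (hX.nonhub e' h3 b hb)
    exact hX.uniq e h1 e' h3 a ha b hb (vpOf_inj (by rw [← h5, ← h6, h2, h4]))
  have hFi : ((slF p Z prt).filter fun e => ptOf prt Z e = i).card ≤ 2 * k0 := by
    rcases ((slF p Z prt).filter fun e => ptOf prt Z e = i).eq_empty_or_nonempty with he | ⟨e, he⟩
    · rw [he, card_empty]
      exact Nat.zero_le _
    obtain ⟨he1, he2⟩ := mem_filter.1 he
    have key : ∀ e ∈ slF p Z prt, ∃ v, v ∉ Z ∧ v ∈ e ∧ (e = s(v, p v) ∨ e = s(v, hn p Z v)) := by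
      intro e he
      rcases mem_slF.1 he with ⟨v, h1, h2, h3, rfl⟩ | ⟨v, h1, h2, rfl⟩
      · exact ⟨v, h1, Sym2.mem_mk_left _ _, Or.inl rfl⟩
      · exact ⟨v, h1, Sym2.mem_mk_left _ _, Or.inr rfl⟩
    obtain ⟨w, hw1, hw2, -⟩ := key e he1
    have hw3 := C.vp_eq hX (mem_xF.2 (Or.inl he1)) hw2 hw1
    have hsub : ((slF p Z prt).filter fun e => ptOf prt Z e = i) ⊆
        ((prt w).image fun v => s(v, p v)) ∪ ((prt w).image fun v => s(v, hn p Z v)) := by
      intro e' he'
      obtain ⟨h1, h2⟩ := mem_filter.1 he'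
      obtain ⟨v, h3, h4, h5⟩ := key e' h1
      have h6 := C.vp_eq hX (mem_xF.2 (Or.inl h1)) h4 h3
      have h7 : prt v = prt w := vpOf_inj (by rw [← h6, h2, ← hw3, he2])
      have h8 : v ∈ prt w := h7 ▸ C.mem v h3
      rw [mem_union, mem_image, mem_image]
      rcases h5 with h5 | h5
      · exact Or.inl ⟨v, h8, h5.symm⟩
      · exact Or.inr ⟨v, h8, h5.symm⟩
    calc _ ≤ _ := card_le_card hsub
      _ ≤ ((prt w).image fun v => s(v, p v)).card + ((prt w).image fun v => s(v, hn p Z v)).card :=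
          card_union_le _ _
      _ ≤ (prt w).card + (prt w).card := Nat.add_le_add card_image_le card_image_le
      _ ≤ 2 * k0 := by have := C.card_le w hw1; omega
  rw [hsplit]
  exact (card_union_le _ _).trans (by omega)

/-- a good gadget at the edge `s(v, p v)` -/
structure Gad2 (F : Finset (Sym2 W)) (p : W → W) (Z : Finset W) (D0 : ℕ) (v : W) (e : Sym2 W) :
    Prop where
  mem : e ∈ F
  nonhub : ∀ w ∈ e, w ∉ Z
  le : ∀ w ∈ e, (slAt F w).card ≤ D0
  star : ∀ u ∈ e, ∀ w, w ∉ Z → slAt F w ≠ (slAt F u).erase e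
  near : ∀ x ∈ e, x ∈ s(v, p v) ∨ ∃ u ∈ s(v, p v), slAt F x = {s(u, x)}

theorem SkCtx2.exists_gad (C : SkCtx2 H p h Z prt K k0 D) (hX : SkExt H p Z prt K X) {D0 : ℕ}
    (hD0 : 1 ≤ D0) {v : W} (hv : v ∉ Z) (hpv : p v ≠ v) (hmem : p v ∈ prt v)
    (h1 : (slAt (xF p Z prt X) v).card ≤ D0) (h2 : (slAt (xF p Z prt X) (p v)).card ≤ D0) :
    ∃ e, Gad2 (xF p Z prt X) p Z D0 v e := by
  set F := xF p Z prt X with hF
  have hpZ : p v ∉ Z := (C.eq v (p v) hv hmem).1
  have heF0 : s(v, p v) ∈ slF p Z prt := C.mk1 hv hmem (Ne.symm hpv) (Or.inl rfl)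
  have heF : s(v, p v) ∈ F := mem_xF.2 (Or.inl heF0)
  have hE : ∀ w ∈ s(v, p v), w ∉ Z ∧ (slAt F w).card ≤ D0 ∧ w ∈ prt v := by
    intro w hw
    rcases Sym2.mem_iff.1 hw with rfl | rfl
    · exact ⟨hv, h1, C.mem _ hv⟩
    · exact ⟨hpZ, h2, hmem⟩
  by_cases hA : ∀ u ∈ s(v, p v), ∀ w, w ∉ Z → slAt F w ≠ (slAt F u).erase s(v, p v)
  · exact ⟨s(v, p v), heF, fun w hw => (hE w hw).1, fun w hw => (hE w hw).2.1, hA,
      fun x hx => Or.inl hx⟩
  push Not at hA
  obtain ⟨u, hu, w, hw, heq⟩ := hA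
  obtain ⟨y, hy⟩ := Sym2.mem_iff_exists.1 hu
  obtain ⟨huZ, huD, hup⟩ := hE u hu
  have hym : y ∈ s(v, p v) := by rw [hy]; exact Sym2.mem_mk_right _ _
  obtain ⟨hyZ, hyD, hyp⟩ := hE y hym
  have huy : u ≠ y := by
    intro hc
    rw [← hc] at hy
    have h4 : v = u := by
      have : v ∈ s(u, u) := by rw [← hy]; exact Sym2.mem_mk_left _ _
      simpa using this
    have h5 : p v = u := by
      have : p v ∈ s(u, u) := by rw [← hy]; exact Sym2.mem_mk_right _ _
      simpa using this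
    exact hpv (h5.trans h4.symm)
  have heu : s(v, p v) ∈ slAt F u := mem_slAt.2 ⟨heF, hu⟩
  have hwu : w ≠ u := by
    intro hc
    rw [hc] at heq
    have := heu
    rw [heq] at this
    exact (mem_erase.1 this).1 rfl
  have hwy : w ≠ y := by
    intro hc
    have : s(v, p v) ∈ slAt F w := by rw [hc]; exact mem_slAt.2 ⟨heF, hym⟩
    rw [heq] at this
    exact (mem_erase.1 this).1 rfl
  have hall : ∀ f ∈ slAt F w, f = s(u, w) := by
    intro f hf
    have hf' := hf
    rw [heq] at hf'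
    exact two_eq hwu.symm (mem_erase.1 hf').2 hf
  obtain ⟨f0, hf0, hf0w⟩ := C.xhas_slot hw
  have hf0F : f0 ∈ slAt F w := mem_slAt.2 ⟨mem_xF.2 (Or.inl hf0), hf0w⟩
  have hf0e := hall f0 hf0F
  have hsw : slAt F w = {s(u, w)} := by
    ext g
    rw [mem_singleton]
    constructor
    · exact hall g
    · intro hg
      rw [hg, ← hf0e]
      exact hf0F
  have huw0 : s(u, w) ∈ slF p Z prt := by rw [← hf0e]; exact hf0
  have huwF : s(u, w) ∈ F := mem_xF.2 (Or.inl huw0)
  have huwu : s(u, w) ∈ slAt F u := mem_slAt.2 ⟨huwF, Sym2.mem_mk_left _ _⟩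
  have hne : s(u, w) ≠ s(v, p v) := by
    rw [hy]
    intro hc
    rcases Sym2.eq_iff.1 hc with ⟨-, h4⟩ | ⟨h4, -⟩
    · exact hwy h4
    · exact huy h4
  have hsu : ∀ f ∈ slAt F u, f = s(v, p v) ∨ f = s(u, w) := by
    intro f hf
    by_cases hfe : f = s(v, p v)
    · exact Or.inl hfe
    · right
      apply hall
      rw [heq]
      exact mem_erase.2 ⟨hfe, hf⟩
  refine ⟨s(u, w), huwF, ?_, ?_, ?_, ?_⟩
  · intro x hx
    rcases Sym2.mem_iff.1 hx with rfl | rfl
    · exact huZ
    · exact hw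
  · intro x hx
    rcases Sym2.mem_iff.1 hx with rfl | rfl
    · exact huD
    · rw [hsw, card_singleton]
      exact hD0
  · intro x hx w' hw' hc
    rcases Sym2.mem_iff.1 hx with rfl | rfl
    · -- the star at `u`
      have h4 : (slAt F x).erase s(x, w) = {s(v, p v)} := by
        ext g
        rw [mem_erase, mem_singleton]
        constructor
        · rintro ⟨h5, h6⟩
          rcases hsu g h6 with h7 | h7
          · exact h7
          · exact absurd h7 h5
        · intro hg
          rw [hg]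
          exact ⟨hne.symm, heu⟩
      rw [h4] at hc
      have h5 : w' ∈ s(v, p v) := by
        have : s(v, p v) ∈ slAt F w' := by rw [hc]; exact mem_singleton_self _
        exact (mem_slAt.1 this).2
      rw [hy] at h5
      have h6 : w' = y := by
        rcases Sym2.mem_iff.1 h5 with h6 | h6
        · exfalso
          rw [h6] at hc
          rw [hc] at huwu
          exact hne (mem_singleton.1 huwu)
        · exact h6
      subst h6
      -- the three vertices form a component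
      have hwp : w ∈ prt v := by
        rcases C.edge_cases huZ huw0 with h7 | h7
        · rw [← (C.eq v x hv hup).2]
          exact h7.2.1
        · exact absurd h7.1 hw
      have hcard : ({x, w', w} : Finset W).card ≤ 3 := card_le_three
      have hS : ({x, w', w} : Finset W) ⊆ prt v := by
        intro z hz
        simp only [mem_insert, mem_singleton] at hz
        rcases hz with rfl | rfl | rfl
        · exact hup
        · exact hyp
        · exact hwp
      have hclF : ∀ z ∈ ({x, w', w} : Finset W), ∀ f ∈ slAt F z, f = s(v, p v) ∨ f = s(x, w) := by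
        intro z hz f hf
        simp only [mem_insert, mem_singleton] at hz
        rcases hz with rfl | rfl | rfl
        · exact hsu f hf
        · rw [hc, mem_singleton] at hf
          exact Or.inl hf
        · rw [hsw, mem_singleton] at hf
          exact Or.inr hf
      obtain ⟨hSeq, -, t, ht, hpt⟩ := C.tight hv hS ⟨x, by simp⟩ (by
          intro z hz y hzy
          have h8 := hclF z hz _ (mem_slAt.2 ⟨mem_xF.2 (Or.inl hzy), Sym2.mem_mk_left _ _⟩)
          have h9 : y ∈ s(v, p v) ∨ y ∈ s(x, w) := by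
            rcases h8 with h8 | h8
            · left; rw [← h8]; exact Sym2.mem_mk_right _ _
            · right; rw [← h8]; exact Sym2.mem_mk_right _ _
          rw [hy] at h9
          simp only [mem_insert, mem_singleton]
          rcases h9 with h9 | h9
          · rcases Sym2.mem_iff.1 h9 with rfl | rfl
            · exact Or.inl rfl
            · exact Or.inr (Or.inl rfl)
          · rcases Sym2.mem_iff.1 h9 with rfl | rfl
            · exact Or.inl rfl
            · exact Or.inr (Or.inr rfl)) (by have := C.hK; omega)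
      obtain ⟨htZ, htp⟩ := C.eq v t hv ht
      have hSt : prt t = ({x, w', w} : Finset W) := by rw [htp, hSeq]
      have hsm : IsSm p Z prt K t := by
        refine ⟨hpt, htZ, by rw [hSt]; have := C.hK; omega, ?_⟩
        intro z hz hh
        have hzZ : z ∉ Z := (C.eq t z htZ hz).1
        rw [hSt] at hz
        have h8 := hclF z hz _ (mem_slAt.2 ⟨mem_xF.2 (Or.inl (mk2 hzZ hh)), Sym2.mem_mk_left _ _⟩)
        have h9 := (hn_spec hzZ hh).1
        have h10 : hn p Z z ∈ s(v, p v) ∨ hn p Z z ∈ s(x, w) := by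
          rcases h8 with h8 | h8
          · left; rw [← h8]; exact Sym2.mem_mk_right _ _
          · right; rw [← h8]; exact Sym2.mem_mk_right _ _
        rw [hy] at h10
        rcases h10 with h10 | h10
        · rcases Sym2.mem_iff.1 h10 with h11 | h11
          · rw [h11] at h9; exact huZ h9
          · rw [h11] at h9; exact hyZ h9
        · rcases Sym2.mem_iff.1 h10 with h11 | h11
          · rw [h11] at h9; exact huZ h9
          · rw [h11] at h9; exact hw h9
      obtain ⟨e, he, hep⟩ := hX.ex t hsm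
      obtain ⟨a, ha⟩ : ∃ a, a ∈ e := by
        induction e using Sym2.ind with
        | _ a b => exact ⟨a, Sym2.mem_mk_left _ _⟩
      have haS := hep a ha
      rw [hSt] at haS
      rcases hclF a haS e (mem_slAt.2 ⟨mem_xF.2 (Or.inr he), ha⟩) with h8 | h8
      · exact hX.ntree e he v h8
      · obtain ⟨b, hb1, hb2⟩ := slF_tree huw0
        exact hX.ntree e he b (h8.trans hb2)
    · -- the star at `w`
      rw [hsw] at hc
      have h4 : ({s(u, x)} : Finset (Sym2 W)).erase s(u, x) = ∅ := by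
        ext g
        simp
      rw [h4] at hc
      obtain ⟨f, hf, hfw⟩ := C.xhas_slot hw'
      have h5 : f ∈ slAt F w' := mem_slAt.2 ⟨mem_xF.2 (Or.inl hf), hfw⟩
      rw [hc] at h5
      exact absurd h5 (notMem_empty _)
  · intro x hx
    rcases Sym2.mem_iff.1 hx with rfl | rfl
    · exact Or.inl hu
    · exact Or.inr ⟨u, hu, hsw⟩

/-- vertices near different gadget edges are different -/
theorem gad_disj2 (hR : Rooted H p h) {m : W → W} (hm : ∀ v, m (m v) = v) {D0 : ℕ} {v w : W}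
    {F : Finset (Sym2 W)} (hv : v ∈ MV p m) (hw : w ∈ MV p m) (hne : v ≠ w)
    (hvF : s(v, p v) ∈ F) (hwF : s(w, p w) ∈ F) {e f : Sym2 W} (he : Gad2 F p Z D0 v e)
    (hf : Gad2 F p Z D0 w f) : ∀ x ∈ e, x ∉ f := by
  intro x hxe hxf
  rcases he.near x hxe with h1 | ⟨u, hu, h1⟩ <;> rcases hf.near x hxf with h2 | ⟨u', hu', h2⟩
  · exact hne (MV_disj hR hm hv hw h1 h2)
  · have h3 : s(v, p v) ∈ slAt F x := mem_slAt.2 ⟨hvF, h1⟩
    rw [h2, mem_singleton] at h3
    have h4 : u' ∈ s(v, p v) := by rw [h3]; exact Sym2.mem_mk_left _ _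
    exact hne (MV_disj hR hm hv hw h4 hu')
  · have h3 : s(w, p w) ∈ slAt F x := mem_slAt.2 ⟨hwF, h2⟩
    rw [h1, mem_singleton] at h3
    have h4 : u ∈ s(w, p w) := by rw [h3]; exact Sym2.mem_mk_left _ _
    exact hne (MV_disj hR hm hv hw hu h4)
  · rw [h1] at h2
    have h3 : s(u, x) = s(u', x) := singleton_injective h2
    have h4 : u = u' := by
      rcases Sym2.eq_iff.1 h3 with ⟨h4, -⟩ | ⟨h4, h5⟩
      · exact h4
      · exact h4.trans h5
    subst h4
    exact hne (MV_disj hR hm hv hw hu hu')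

/-- **Selection.** -/
theorem SkCtx2.sel (C : SkCtx2 H p h Z prt K k0 D) (hXt : SkExt H p Z prt K X) {m : W → W}
    (hm : ∀ v, m (m v) = v) {D0 : ℕ} (hD0 : 1 ≤ D0) : ∃ Sp, Gads (xF p Z prt X) Z D0 Sp ∧
      (MV p m).card ≤ 3 * Sp.card + 2 * Z.card +
        (univ.filter fun v => v ∉ Z ∧ p v ∉ Z ∧ p v ≠ v ∧ p v ∉ prt v).card +
        2 * (univ.filter fun v => D0 < (slAt (xF p Z prt X) v).card).card := by
  classical
  set F := xF p Z prt X with hF
  set T := univ.filter fun v => v ∉ Z ∧ p v ∉ Z ∧ p v ≠ v ∧ p v ∉ prt v with hT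
  set B := univ.filter fun v => D0 < (slAt F v).card with hB
  let C1 : Finset W := (MV p m).filter fun v => v ∉ Z ∧ p v ∈ prt v ∧ (slAt F v).card ≤ D0 ∧
    (slAt F (p v)).card ≤ D0
  have hmv : ∀ v ∈ MV p m, p v ≠ v := fun v hv => by
    rw [(mem_MV.1 hv).2]
    exact (mem_MV.1 hv).1
  have hex : ∀ v ∈ C1, ∃ e, Gad2 F p Z D0 v e := by
    intro v hv
    obtain ⟨h1, h2, h3, h4, h5⟩ := mem_filter.1 hv
    exact C.exists_gad hXt hD0 h2 (hmv v h1) h3 h4 h5
  have hC1F : ∀ v ∈ C1, s(v, p v) ∈ F := by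
    intro v hv
    obtain ⟨h1, h2, h3, h4, h5⟩ := mem_filter.1 hv
    exact mem_xF.2 (Or.inl (C.mk1 h2 h3 (Ne.symm (hmv v h1)) (Or.inl rfl)))
  have hC1M : ∀ v ∈ C1, v ∈ MV p m := fun v hv => (mem_filter.1 hv).1
  let g : W → Sym2 W := fun v => if hv : ∃ e, Gad2 F p Z D0 v e then hv.choose else s(v, v)
  have hg : ∀ v ∈ C1, Gad2 F p Z D0 v (g v) := by
    intro v hv
    have h1 : g v = (hex v hv).choose := dif_pos (hex v hv)
    rw [h1]
    exact (hex v hv).choose_spec
  have hgd : ∀ v ∈ C1, ∀ w ∈ C1, v ≠ w → ∀ x ∈ g v, x ∉ g w := fun v hv w hw hne =>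
    gad_disj2 C.rooted hm (hC1M v hv) (hC1M w hw) hne (hC1F v hv) (hC1F w hw) (hg v hv) (hg w hw)
  have hginj : Set.InjOn g (C1 : Set W) := by
    intro v hv w hw he
    by_contra hne
    obtain ⟨x, hx⟩ : ∃ x, x ∈ g v := by
      induction hgv : g v using Sym2.ind with
      | _ a b => exact ⟨a, Sym2.mem_mk_left _ _⟩
    exact hgd v hv w hw hne x hx (he ▸ hx)
  obtain ⟨Sp, hSp, hcard⟩ := exists_gads F Z D0 (C1.image g)
    (by
      intro e he
      obtain ⟨v, hv, rfl⟩ := mem_image.1 he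
      exact (hg v hv).mem)
    (by
      intro e he
      obtain ⟨v, hv, rfl⟩ := mem_image.1 he
      exact (hg v hv).nonhub)
    (by
      intro e he e' he' hne
      obtain ⟨v, hv, rfl⟩ := mem_image.1 he
      obtain ⟨w, hw, rfl⟩ := mem_image.1 he'
      exact hgd v hv w hw fun hc => hne (by rw [hc]))
    (by
      intro e he
      obtain ⟨v, hv, rfl⟩ := mem_image.1 he
      exact (hg v hv).le)
    (by
      intro e he
      obtain ⟨v, hv, rfl⟩ := mem_image.1 he
      exact (hg v hv).star)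
  rw [card_image_of_injOn hginj] at hcard
  refine ⟨Sp, hSp, ?_⟩
  -- the other vertices
  let MZ : Finset W := (MV p m).filter fun v => p v ∈ Z
  let MB : Finset W := (MV p m).filter fun v => p v ∈ B
  have hpinj : ∀ v ∈ MV p m, ∀ w ∈ MV p m, p v = p w → v = w := fun v hv w hw he =>
    MV_disj C.rooted hm hv hw (Sym2.mem_mk_right _ _) (he ▸ Sym2.mem_mk_right _ _)
  have hMZ : MZ.card ≤ Z.card := by
    apply Finset.card_le_card_of_injOn p
    · intro v hv
      exact (mem_filter.1 (mem_coe.1 hv)).2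
    · intro v hv w hw he
      exact hpinj v (mem_filter.1 (mem_coe.1 hv)).1 w (mem_filter.1 (mem_coe.1 hw)).1 he
  have hMB : MB.card ≤ B.card := by
    apply Finset.card_le_card_of_injOn p
    · intro v hv
      exact (mem_filter.1 (mem_coe.1 hv)).2
    · intro v hv w hw he
      exact hpinj v (mem_filter.1 (mem_coe.1 hv)).1 w (mem_filter.1 (mem_coe.1 hw)).1 he
  have hcov : MV p m ⊆ C1 ∪ Z ∪ MZ ∪ T ∪ B ∪ MB := by
    intro v hv
    by_cases h1 : v ∈ Z
    · simp [h1]
    by_cases h2 : p v ∈ Z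
    · have : v ∈ MZ := mem_filter.2 ⟨hv, h2⟩
      simp [this]
    by_cases h3 : p v ∈ prt v
    · by_cases h4 : D0 < (slAt F v).card
      · have : v ∈ B := mem_filter.2 ⟨mem_univ _, h4⟩
        simp [this]
      by_cases h5 : D0 < (slAt F (p v)).card
      · have : v ∈ MB := mem_filter.2 ⟨hv, mem_filter.2 ⟨mem_univ _, h5⟩⟩
        simp [this]
      have : v ∈ C1 := mem_filter.2 ⟨hv, h1, h3, by omega, by omega⟩
      simp [this]
    · have : v ∈ T := mem_filter.2 ⟨mem_univ _, h1, h2, hmv v hv, h3⟩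
      simp [this]
  have h1 := card_le_card hcov
  have h3 := card_union_le (C1 ∪ Z ∪ MZ ∪ T ∪ B) MB
  have h4 := card_union_le (C1 ∪ Z ∪ MZ ∪ T) B
  have h5 := card_union_le (C1 ∪ Z ∪ MZ) T
  have h6 := card_union_le (C1 ∪ Z) MZ
  have h7 := card_union_le C1 Z
  omega

end Pool.Agent.AMX
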