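import Pool.Agent.AMX.SkPart

/-!
# Hubs and parts of a rooted spanning forest, with prescribed hubs
-/

set_option autoImplicit false
set_option linter.unusedSectionVars false
set_option linter.unusedVariables false

namespace Pool.Agent.AMX

open Finset Pool.Agent.MP6be45b.TreePart

/-- A rooted spanning forest with few children outside the set `Z` of hubs, and a partition of the
other vertices into parts `prt v` hanging below top vertices, which are large or closed. -/
structure SkCtx2 {W : Type*} [Fintype W] [DecidableEq W] (H : SimpleGraph W) (p : W → W)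
    (h : W → ℕ) (Z : Finset W) (prt : W → Finset W) (K k0 D : ℕ) : Prop where
  rooted : Rooted H p h
  span : ∀ v w, p v = v → H.Reachable v w → Desc p v w
  chl_le : ∀ v, v ∉ Z → (chl p v).card ≤ D
  mem : ∀ v, v ∉ Z → v ∈ prt v
  eq : ∀ v w, v ∉ Z → w ∈ prt v → w ∉ Z ∧ prt w = prt v
  card_le : ∀ v, v ∉ Z → (prt v).card ≤ k0
  top : ∀ v, v ∉ Z → ∃ t ∈ prt v, (∀ w ∈ prt v, w ≠ t → p w ∈ prt v ∧ p w ≠ w) ∧
    (K ≤ (prt v).card ∨ ((p t = t ∨ p t ∈ Z) ∧ ∀ w, w ∉ Z → p w ∈ prt v → w ∈ prt v))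
  comp3 : ∀ C : H.ConnectedComponent, (∀ v ∈ C.supp, v ∉ Z) → 3 ≤ C.supp.ncard
  hK : 4 ≤ K

theorem exists_ctx2 {W : Type*} [Fintype W] [DecidableEq W] {H : SimpleGraph W} {p : W → W}
    {h : W → ℕ} (hR : Rooted H p h) (hs : ∀ v w, p v = v → H.Reachable v w → Desc p v w)
    {K : ℕ} (hK : 4 ≤ K) {D : ℕ} (Z : Finset W) (hZ : ∀ v, v ∉ Z → (chl p v).card ≤ D)
    (hc3 : ∀ C : H.ConnectedComponent, (∀ v ∈ C.supp, v ∉ Z) → 3 ≤ C.supp.ncard) :
    ∃ prt : W → Finset W, SkCtx2 H p h Z prt K ((D + 1) * (K - 1) + 1) D := by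
  classical
  let q : W → W := fun v => if v ∉ Z ∧ p v ∉ Z then p v else v
  have hq1 : ∀ v, v ∉ Z → p v ∉ Z → q v = p v := fun v h1 h2 => if_pos ⟨h1, h2⟩
  have hq2 : ∀ v, q v ≠ v → v ∉ Z ∧ p v ∉ Z ∧ q v = p v := by
    intro v hv
    by_cases hc : v ∉ Z ∧ p v ∉ Z
    · exact ⟨hc.1, hc.2, if_pos hc⟩
    · exact absurd (if_neg hc) hv
  have hRq : Rooted H q h := by
    constructor
    · intro v hv
      obtain ⟨h1, h2, h3⟩ := hq2 v hv
      rw [h3] at hv ⊢
      exact hR.adj v hv
    · intro v hv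
      obtain ⟨h1, h2, h3⟩ := hq2 v hv
      rw [h3] at hv ⊢
      exact hR.lt v hv
  have hqD : ∀ v, (chl q v).card ≤ D := by
    intro v
    by_cases hv : v ∈ Z
    · have : chl q v = ∅ := by
        rw [Finset.eq_empty_iff_forall_notMem]
        intro c hc
        obtain ⟨h1, h2⟩ := (mem_filter.1 hc).2
        obtain ⟨h3, h4, h5⟩ := hq2 c (by rw [h1]; exact h2.symm)
        rw [← h5, h1] at h4
        exact h4 hv
      rw [this, card_empty]
      exact Nat.zero_le _
    · refine le_trans (card_le_card ?_) (hZ v hv)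
      intro c hc
      obtain ⟨h1, h2⟩ := (mem_filter.1 hc).2
      obtain ⟨h3, h4, h5⟩ := hq2 c (by rw [h1]; exact h2.symm)
      exact mem_filter.2 ⟨mem_univ _, by rw [← h5, h1], h2⟩
  -- vertices whose root has many descendants
  let A : Finset W := univ.filter fun v => v ∉ Z ∧ ∃ r, q r = r ∧ Desc q r v ∧
    K ≤ (dsc q univ r).card
  have hA : ∀ v, v ∈ A ↔ v ∉ Z ∧ ∃ r, q r = r ∧ Desc q r v ∧ K ≤ (dsc q univ r).card :=
    fun v => by simp [A]
  have hAcl : ∀ w ∈ A, q w ∈ A := by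
    intro w hw
    by_cases hqw : q w = w
    · rwa [hqw]
    · obtain ⟨h1, h2, h3⟩ := hq2 w hqw
      obtain ⟨h4, r, h5, h6, h7⟩ := (hA w).1 hw
      rw [hA, h3]
      refine ⟨h2, r, h5, ?_, h7⟩
      rw [← h3]
      apply par_desc h6
      intro hwr
      rw [hwr] at hqw
      exact hqw h5
  have hZq : ∀ v ∈ Z, q v = v := by
    intro v hv
    by_contra hc
    exact (hq2 v hc).1 hv
  -- descendants of a root that is not in `Z` are not in `Z`
  have hdZ : ∀ r w, r ∉ Z → Desc q r w → w ∉ Z := by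
    intro r w hr hd hw
    have := desc_fix (hZq w hw) hd
    rw [this] at hw
    exact hr hw
  have hAroot : ∀ r ∈ A, q r = r → K ≤ (dsc q A r).card := by
    intro r hr hqr
    obtain ⟨h4, r', h5, h6, h7⟩ := (hA r).1 hr
    have h8 : r = r' := desc_fix hqr h6
    subst h8
    refine h7.trans (card_le_card ?_)
    intro w hw
    have h9 := (mem_dsc.1 hw).2
    rw [mem_dsc]
    refine ⟨(hA w).2 ⟨hdZ r w h4 h9, r, h5, h9, h7⟩, h9⟩
  obtain ⟨P1, hP1, hP2, hP3⟩ := main2 hRq (D := D + 1) (K := K) (by omega)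
    (fun v => ⟨(hqD v).trans (Nat.le_succ _), fun _ => Nat.succ_le_succ (hqD v)⟩) _ A rfl hAcl
    hAroot
  -- the part of a vertex
  have hex : ∀ v, v ∉ Z → ∃ B : Finset W, v ∈ B ∧ (B ∈ P1 ∨
      ∃ r, r ∉ Z ∧ q r = r ∧ (dsc q univ r).card < K ∧ B = dsc q univ r) := by
    intro v hv
    by_cases hvA : v ∈ A
    · obtain ⟨B, hB, hvB⟩ := (hP3 v).1 hvA
      exact ⟨B, hvB, Or.inl hB⟩
    · obtain ⟨r, hr, hd⟩ := exists_root hRq v
      refine ⟨dsc q univ r, mem_dsc.2 ⟨mem_univ _, hd⟩, Or.inr ⟨r, ?_, hr, ?_, rfl⟩⟩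
      · intro hrZ
        by_cases hvr : v = r
        · rw [hvr] at hv
          exact hv hrZ
        · -- the last step before r
          have key : ∀ k w, w ∉ Z → q^[k] w = r → False := by
            intro k
            induction k with
            | zero =>
              intro w hw hk
              have : w = r := hk
              rw [this] at hw
              exact hw hrZ
            | succ k ih =>
              intro w hw hk
              by_cases hqw : q w = w
              · rw [Function.iterate_succ_apply, hqw] at hk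
                exact ih w hw hk
              · obtain ⟨h1, h2, h3⟩ := hq2 w hqw
                rw [Function.iterate_succ_apply, h3] at hk
                exact ih (p w) h2 hk
          obtain ⟨k, hk⟩ := hd
          exact key k v hv hk
      · by_contra hc
        push Not at hc
        exact hvA ((hA v).2 ⟨hv, r, hr, hd, hc⟩)
  -- uniqueness
  have huniq : ∀ (B B' : Finset W) (v : W), v ∈ B → v ∈ B' → (B ∈ P1 ∨
      ∃ r, r ∉ Z ∧ q r = r ∧ (dsc q univ r).card < K ∧ B = dsc q univ r) → (B' ∈ P1 ∨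
      ∃ r, r ∉ Z ∧ q r = r ∧ (dsc q univ r).card < K ∧ B' = dsc q univ r) → B = B' := by
    have mixed : ∀ (B : Finset W) (v r : W), v ∈ B → B ∈ P1 → q r = r → Desc q r v →
        (dsc q univ r).card < K → False := by
      intro B v r hv hB hr hd hlt
      obtain ⟨h1, r', h2, h3, h4⟩ := (hA v).1 ((hP3 v).2 ⟨B, hB, hv⟩)
      have h5 : r = r' := desc_root_unique hr h2 hd h3
      subst h5
      omega
    intro B B' v hv hv' hB hB'
    rcases hB with hB | ⟨r, h1, h2, h3, rfl⟩ <;> rcases hB' with hB' | ⟨r', h1', h2', h3', rfl⟩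
    · by_contra hne
      exact Finset.disjoint_left.1 (hP2 B hB B' hB' hne) hv hv'
    · exact (mixed B v r' hv hB h2' (mem_dsc.1 hv').2 h3').elim
    · exact (mixed B' v r hv' hB' h2 (mem_dsc.1 hv).2 h3).elim
    · rw [desc_root_unique h2 h2' (mem_dsc.1 hv).2 (mem_dsc.1 hv').2]
  let prt : W → Finset W := fun v => if hv : v ∉ Z then (hex v hv).choose else ∅
  have hprt : ∀ v (hv : v ∉ Z), v ∈ prt v ∧ (prt v ∈ P1 ∨
      ∃ r, r ∉ Z ∧ q r = r ∧ (dsc q univ r).card < K ∧ prt v = dsc q univ r) := by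
    intro v hv
    have : prt v = (hex v hv).choose := dif_pos hv
    rw [this]
    exact (hex v hv).choose_spec
  have hnotZ : ∀ v, v ∉ Z → ∀ w ∈ prt v, w ∉ Z := by
    intro v hv w hw
    rcases (hprt v hv).2 with hB | ⟨r, h1, h2, h3, h4⟩
    · exact ((hA w).1 ((hP3 w).2 ⟨_, hB, hw⟩)).1
    · rw [h4] at hw
      exact hdZ r w h1 (mem_dsc.1 hw).2
  refine ⟨prt, ⟨hR, hs, hZ, fun v hv => (hprt v hv).1, ?_, ?_, ?_, hc3, hK⟩⟩
  · intro v w hv hw
    have hwZ := hnotZ v hv w hw
    exact ⟨hwZ, huniq _ _ w (hprt w hwZ).1 hw (hprt w hwZ).2 (hprt v hv).2⟩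
  · intro v hv
    rcases (hprt v hv).2 with hB | ⟨r, h1, h2, h3, h4⟩
    · exact (hP1 _ hB).2.2
    · rw [h4]
      have : K - 1 ≤ (D + 1) * (K - 1) := Nat.le_mul_of_pos_left _ (Nat.succ_pos _)
      omega
  · intro v hv
    have hnZ := hnotZ v hv
    rcases (hprt v hv).2 with hB | ⟨r, h1, h2, h3, h4⟩
    · obtain ⟨⟨t, ht⟩, h5, h6⟩ := hP1 _ hB
      refine ⟨t, ht.mem, ?_, Or.inl h5⟩
      intro w hw hne
      obtain ⟨h7, h8⟩ := ht.par w hw hne
      obtain ⟨h9, h10, h11⟩ := hq2 w h8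
      rw [h11] at h7 h8
      exact ⟨h7, h8⟩
    · have ht : IsTop q (dsc q univ r) r := isTop_dsc (fun _ _ => mem_univ _) (mem_univ _)
      rw [← h4] at ht
      refine ⟨r, ht.mem, ?_, Or.inr ⟨?_, ?_⟩⟩
      · intro w hw hne
        obtain ⟨h7, h8⟩ := ht.par w hw hne
        obtain ⟨h9, h10, h11⟩ := hq2 w h8
        rw [h11] at h7 h8
        exact ⟨h7, h8⟩
      · by_cases hpr : p r ∈ Z
        · exact Or.inr hpr
        · left
          rw [← hq1 r h1 hpr]
          exact h2
      · intro w hw hpw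
        have hpwZ := hnZ _ hpw
        rw [h4] at hpw ⊢
        rw [← hq1 w hw hpwZ] at hpw
        exact mem_dsc.2 ⟨mem_univ _, desc_of_par (mem_dsc.1 hpw).2⟩

variable {W : Type*} [Fintype W] [DecidableEq W] {H : SimpleGraph W} {p : W → W}
  {h : W → ℕ} {Z : Finset W} {prt : W → Finset W} {K k0 D : ℕ}

/-- a nonempty subset of a part that is closed under parents and children is the part -/
theorem SkCtx2.whole (C : SkCtx2 H p h Z prt K k0 D) {v : W} (hv : v ∉ Z) {S : Finset W}
    (hS : S ⊆ prt v) (hne : S.Nonempty)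
    (hcl : ∀ x ∈ S, ∀ y ∈ prt v, p x = y ∨ p y = x → y ∈ S) : S = prt v := by
  obtain ⟨t, ht, htop, -⟩ := C.top v hv
  obtain ⟨x, hx, hmin⟩ := exists_min_image S h hne
  have hxt : x = t := by
    by_contra hc
    obtain ⟨h1, h2⟩ := htop x (hS hx) hc
    have h3 := hcl x hx (p x) h1 (Or.inl rfl)
    have h4 := hmin _ h3
    have h5 := C.rooted.lt x h2
    omega
  subst hxt
  apply Finset.Subset.antisymm hS
  intro y
  induction hn : h y using Nat.strong_induction_on generalizing y with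
  | _ n ih =>
    intro hy
    by_cases hyx : y = x
    · rwa [hyx]
    · obtain ⟨h1, h2⟩ := htop y hy hyx
      have h3 := C.rooted.lt y h2
      have h4 := ih (h (p y)) (by omega) rfl h1
      exact hcl _ h4 y hy (Or.inr rfl)

/-- a small part without vertices adjacent to hubs is a component -/
theorem SkCtx2.comp (C : SkCtx2 H p h Z prt K k0 D) {v : W} (hv : v ∉ Z)
    (hlt : (prt v).card < K) (hnb : ∀ x ∈ prt v, p x ∉ Z) (hnc : ∀ z ∈ Z, p z ∉ prt v) :
    ∃ t ∈ prt v, p t = t ∧ ∀ w, H.Reachable t w → w ∈ prt v := by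
  obtain ⟨t, ht, htop, hor⟩ := C.top v hv
  rcases hor with hor | ⟨h1, h2⟩
  · omega
  have hpt : p t = t := by
    rcases h1 with h1 | h1
    · exact h1
    · exact absurd h1 (hnb t ht)
  refine ⟨t, ht, hpt, ?_⟩
  have hcl : ∀ k w, p^[k] w = t → w ∈ prt v := by
    intro k
    induction k with
    | zero =>
      intro w hw
      have : w = t := hw
      rwa [this]
    | succ k ih =>
      intro w hw
      rw [Function.iterate_succ_apply] at hw
      have h3 := ih _ hw
      by_cases hwZ : w ∈ Z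
      · exact absurd h3 (hnc w hwZ)
      · exact h2 w hwZ h3
  intro w hw
  obtain ⟨k, hk⟩ := C.span t w hpt hw
  exact hcl k w hk

/-- a small part without vertices adjacent to hubs has a root and at least three vertices -/
theorem SkCtx2.small (C : SkCtx2 H p h Z prt K k0 D) {v : W} (hv : v ∉ Z)
    (hlt : (prt v).card < K) (hnb : ∀ x ∈ prt v, p x ∉ Z) (hnc : ∀ z ∈ Z, p z ∉ prt v) :
    (∃ t ∈ prt v, p t = t) ∧ 3 ≤ (prt v).card := by
  obtain ⟨t, ht, hpt, hcomp⟩ := C.comp hv hlt hnb hnc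
  refine ⟨⟨t, ht, hpt⟩, ?_⟩
  have hmem : ∀ w ∈ (H.connectedComponentMk t).supp, w ∈ prt v := by
    intro w hw
    rw [SimpleGraph.ConnectedComponent.mem_supp_iff] at hw
    exact hcomp w (SimpleGraph.ConnectedComponent.exact hw).symm
  refine (C.comp3 (H.connectedComponentMk t) fun w hw => (C.eq v w hv (hmem w hw)).1).trans ?_
  rw [← Set.ncard_coe_finset]
  exact Set.ncard_le_ncard (fun w hw => mem_coe.2 (hmem w hw)) (Finset.finite_toSet _)

end Pool.Agent.AMX
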