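import Pool.Agent.AMX.Sk2Part
import Pool.Agent.AMX.SkSel

/-!
# The slots of a rooted spanning forest with hubs and parts; extra slots in small components
-/

set_option autoImplicit false
set_option linter.unusedSectionVars false
set_option linter.unusedVariables false

namespace Pool.Agent.AMX

open Finset Pool.Agent.MP6be45b.TreePart

variable {W : Type*} [Fintype W] [DecidableEq W] {H : SimpleGraph W} {p : W → W}
  {h : W → ℕ} {Z : Finset W} {prt : W → Finset W} {K k0 D : ℕ}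

theorem SkCtx2.edge_cases (C : SkCtx2 H p h Z prt K k0 D) {w w' : W} (hw : w ∉ Z)
    (he : s(w, w') ∈ slF p Z prt) :
    (w' ∉ Z ∧ w' ∈ prt w ∧ w ≠ w' ∧ (p w = w' ∨ p w' = w)) ∨
    (w' ∈ Z ∧ HasHub p Z w ∧ w' = hn p Z w) := by
  rcases mem_slF.1 he with ⟨v, h1, h2, h3, h4⟩ | ⟨v, h1, h2, h4⟩
  · left
    obtain ⟨h5, h6⟩ := C.eq v (p v) h1 h3
    rcases Sym2.eq_iff.1 h4 with ⟨rfl, rfl⟩ | ⟨rfl, rfl⟩
    · exact ⟨h5, h3, h2.symm, Or.inl rfl⟩
    · refine ⟨h1, ?_, h2, Or.inr rfl⟩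
      rw [h6]
      exact C.mem _ h1
  · right
    rcases Sym2.eq_iff.1 h4 with ⟨rfl, rfl⟩ | ⟨rfl, rfl⟩
    · exact ⟨(hn_spec h1 h2).1, h2, rfl⟩
    · exact absurd (hn_spec h1 h2).1 hw

theorem SkCtx2.mk1 (C : SkCtx2 H p h Z prt K k0 D) {w w' : W} (hw : w ∉ Z) (h' : w' ∈ prt w)
    (hne : w ≠ w') (hadj : p w = w' ∨ p w' = w) : s(w, w') ∈ slF p Z prt := by
  obtain ⟨h5, h6⟩ := C.eq w w' hw h'
  rw [mem_slF]
  left
  rcases hadj with rfl | hadj
  · exact ⟨w, hw, hne.symm, h', rfl⟩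
  · refine ⟨w', h5, by rw [hadj]; exact hne, ?_, by rw [hadj, Sym2.eq_swap]⟩
    rw [hadj, h6]
    exact C.mem w hw

/-- a small subset of a part closed under slots is a component -/
theorem SkCtx2.tight (C : SkCtx2 H p h Z prt K k0 D) {v : W} (hv : v ∉ Z) {S : Finset W}
    (hS : S ⊆ prt v) (hne : S.Nonempty) (hcl : ∀ x ∈ S, ∀ y, s(x, y) ∈ slF p Z prt → y ∈ S)
    (hcard : S.card < K) : S = prt v ∧ 3 ≤ S.card ∧ ∃ t ∈ prt v, p t = t := by
  have hSZ : ∀ x ∈ S, x ∉ Z := fun x hx => (C.eq v x hv (hS hx)).1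
  have hno : ∀ x ∈ S, ¬ HasHub p Z x := by
    intro x hx hh
    have h1 := hcl x hx _ (mk2 (hSZ x hx) hh)
    exact hSZ _ h1 (hn_spec (hSZ x hx) hh).1
  have hw : S = prt v := by
    apply C.whole hv hS hne
    intro x hx y hy hxy
    by_cases hxy' : x = y
    · rwa [← hxy']
    · apply hcl x hx
      apply C.mk1 (hSZ x hx) _ hxy' hxy
      rw [(C.eq v x hv (hS hx)).2]
      exact hy
  have h3 := C.small hv (by rw [← hw]; exact hcard)
    (fun x hx hc => hno x (by rw [hw]; exact hx) (Or.inl hc))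
    (fun z hz hc => hno (p z) (by rw [hw]; exact hc) (Or.inr ⟨z, hz, rfl⟩))
  refine ⟨hw, ?_, h3.1⟩
  rw [hw]
  exact h3.2

theorem SkCtx2.has_slot (C : SkCtx2 H p h Z prt K k0 D) {w : W} (hw : w ∉ Z) :
    (slAt (slF p Z prt) w).Nonempty := by
  by_contra hne
  rw [not_nonempty_iff_eq_empty] at hne
  have hno : ∀ y, s(w, y) ∉ slF p Z prt := by
    intro y hy
    have : s(w, y) ∈ slAt (slF p Z prt) w := mem_slAt.2 ⟨hy, Sym2.mem_mk_left _ _⟩
    rw [hne] at this
    exact absurd this (notMem_empty _)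
  have := C.tight hw (S := {w}) (singleton_subset_iff.2 (C.mem w hw)) (singleton_nonempty _)
    (by
      intro x hx y hy
      rw [mem_singleton] at hx
      subst hx
      exact absurd hy (hno y)) (by rw [card_singleton]; have := C.hK; omega)
  have h3 := this.2.1
  rw [card_singleton] at h3
  omega

theorem SkCtx2.slots_le (C : SkCtx2 H p h Z prt K k0 D) {w : W} (hw : w ∉ Z) :
    (slAt (slF p Z prt) w).card ≤ D + 1 := by
  have hsub : slAt (slF p Z prt) w ⊆ (insert w (chl p w)).image fun x => s(x, p x) := by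
    intro e he
    obtain ⟨h1, h2⟩ := mem_slAt.1 he
    obtain ⟨x, h3, rfl⟩ := slF_tree h1
    refine mem_image.2 ⟨x, ?_, rfl⟩
    rcases Sym2.mem_iff.1 h2 with rfl | h4
    · exact mem_insert_self _ _
    · apply mem_insert_of_mem
      refine mem_filter.2 ⟨mem_univ _, h4.symm, ?_⟩
      rw [h4]
      exact h3.symm
  calc _ ≤ _ := card_le_card hsub
    _ ≤ (insert w (chl p w)).card := card_image_le
    _ ≤ (chl p w).card + 1 := card_insert_le _ _
    _ ≤ D + 1 := Nat.succ_le_succ (C.chl_le w hw)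

/-- tops of large parts -/
theorem SkCtx2.card_top (C : SkCtx2 H p h Z prt K k0 D) {X : Finset W}
    (hX : ∀ v ∈ X, v ∉ Z ∧ p v ∉ Z ∧ p v ≠ v ∧ p v ∉ prt v) : K * X.card ≤ Fintype.card W := by
  have h1 : ∀ v ∈ X, K ≤ (prt v).card := by
    intro v hv
    obtain ⟨h2, h3, h4, h5⟩ := hX v hv
    obtain ⟨t, ht, htop, hor⟩ := C.top v h2
    have hvt : v = t := by
      by_contra hc
      exact h5 (htop v (C.mem v h2) hc).1
    subst hvt
    rcases hor with hor | ⟨h6, -⟩
    · exact hor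
    · rcases h6 with h6 | h6
      · exact absurd h6 h4
      · exact absurd h6 h3
  have hdisj : Set.PairwiseDisjoint (X : Set W) prt := by
    intro v hv w hw hne
    rw [Function.onFun, Finset.disjoint_left]
    intro x hx hx'
    obtain ⟨h2, h3, h4, h5⟩ := hX v hv
    obtain ⟨h2', h3', h4', h5'⟩ := hX w hw
    have heq : prt v = prt w := (C.eq v x h2 hx).2.symm.trans (C.eq w x h2' hx').2
    obtain ⟨t, ht, htop, -⟩ := C.top w h2'
    have hwt : w = t := by
      by_contra hc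
      exact h5' (htop w (C.mem w h2') hc).1
    have hvt : v = t := by
      by_contra hc
      have hvw : v ∈ prt w := heq ▸ C.mem v h2
      exact h5 (heq ▸ (htop v hvw hc).1)
    exact hne (hvt.trans hwt.symm)
  calc K * X.card = ∑ v ∈ X, K := by rw [Finset.sum_const, smul_eq_mul, mul_comm]
    _ ≤ ∑ v ∈ X, (prt v).card := Finset.sum_le_sum h1
    _ = (X.biUnion prt).card := (Finset.card_biUnion hdisj).symm
    _ ≤ Fintype.card W := Finset.card_le_univ _


/-- the root of a part without slots to hubs and with fewer than `K` vertices -/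
def IsSm (p : W → W) (Z : Finset W) (prt : W → Finset W) (K : ℕ) (t : W) : Prop :=
  p t = t ∧ t ∉ Z ∧ (prt t).card < K ∧ ∀ x ∈ prt t, ¬ HasHub p Z x

/-- two roots in the same part are equal -/
theorem SkCtx2.root_eq (C : SkCtx2 H p h Z prt K k0 D) {t t' : W} (ht : p t = t) (htZ : t ∉ Z)
    (ht' : p t' = t') (hmem : t' ∈ prt t) : t' = t := by
  obtain ⟨u, hu, htop, -⟩ := C.top t htZ
  have h1 : t = u := by
    by_contra hc
    exact (htop t (C.mem t htZ) hc).2 ht
  have h2 : t' = u := by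
    by_contra hc
    exact (htop t' hmem hc).2 ht'
  rw [h1, h2]

/-- the part of a small root is a component -/
theorem SkCtx2.sm_comp (C : SkCtx2 H p h Z prt K k0 D) {t : W} (ht : IsSm p Z prt K t) {w : W}
    (hw : H.Reachable t w) : w ∈ prt t := by
  obtain ⟨h1, h2, h3, h4⟩ := ht
  obtain ⟨u, hu, hpu, hcomp⟩ := C.comp h2 h3 (fun x hx hc => h4 x hx (Or.inl hc))
    (fun z hz hc => h4 (p z) hc (Or.inr ⟨z, hz, rfl⟩))
  have h5 : u = t := C.root_eq h1 h2 hpu hu
  subst h5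
  exact hcomp w hw

/-- everything in a part below a root is reachable -/
theorem SkCtx2.reach (C : SkCtx2 H p h Z prt K k0 D) {t : W} (ht : p t = t) (htZ : t ∉ Z) {w : W}
    (hw : w ∈ prt t) : H.Reachable t w := by
  obtain ⟨u, hu, htop, -⟩ := C.top t htZ
  have h1 : t = u := by
    by_contra hc
    exact (htop t (C.mem t htZ) hc).2 ht
  subst h1
  induction hn : h w using Nat.strong_induction_on generalizing w with
  | _ n ih =>
    by_cases hwt : w = t
    · rw [hwt]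
    · obtain ⟨h2, h3⟩ := htop w hw hwt
      have h4 := C.rooted.lt w h3
      exact (ih (h (p w)) (by omega) h2 rfl).trans (C.rooted.adj w h3).symm.reachable

/-- extra slots: one edge outside the forest in every small part that is a component -/
structure SkExt (H : SimpleGraph W) (p : W → W) (Z : Finset W) (prt : W → Finset W) (K : ℕ)
    (X : Finset (Sym2 W)) : Prop where
  edge : ∀ e ∈ X, e ∈ H.edgeSet
  ntree : ∀ e ∈ X, ∀ x, e ≠ s(x, p x)
  nonhub : ∀ e ∈ X, ∀ a ∈ e, a ∉ Z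
  same : ∀ e ∈ X, ∀ a ∈ e, ∀ b ∈ e, prt a = prt b
  uniq : ∀ e ∈ X, ∀ e' ∈ X, ∀ a ∈ e, ∀ b ∈ e', prt a = prt b → e = e'
  ex : ∀ t, IsSm p Z prt K t → ∃ e ∈ X, ∀ a ∈ e, a ∈ prt t
  le : X.card ≤ (univ.filter fun v => p v = v).card

open Classical in
theorem SkCtx2.exists_ext (C : SkCtx2 H p h Z prt K k0 D)
    (hdeg : ∀ v, v ∉ Z → ∀ x, ∃ y, H.Adj v y ∧ y ≠ x) : ∃ X, SkExt H p Z prt K X := by
  have key : ∀ t, IsSm p Z prt K t → ∃ e : Sym2 W, e ∈ H.edgeSet ∧ (∀ x, e ≠ s(x, p x)) ∧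
      ∀ a ∈ e, a ∈ prt t := by
    intro t ht
    have htm := C.mem t ht.2.1
    obtain ⟨l, hl, hmax⟩ := exists_max_image (prt t) h ⟨t, htm⟩
    have hlZ := (C.eq t l ht.2.1 hl).1
    obtain ⟨y, hy, hyp⟩ := hdeg l hlZ (p l)
    have hyr : y ∈ prt t := C.sm_comp ht ((C.reach ht.1 ht.2.1 hl).trans hy.reachable)
    refine ⟨s(l, y), hy, ?_, ?_⟩
    · intro x hx
      rcases Sym2.eq_iff.1 hx with ⟨h1, h2⟩ | ⟨h1, h2⟩
      · rw [← h1] at h2
        exact hyp h2
      · -- `y` is a child of `l`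
        rw [← h2] at h1
        have h3 : p y ≠ y := by rw [← h1]; exact hy.ne
        have h4 := C.rooted.lt y h3
        rw [← h1] at h4
        have h5 := hmax y hyr
        omega
    · intro a ha
      rcases Sym2.mem_iff.1 ha with rfl | rfl
      · exact hl
      · exact hyr
  let f : W → Sym2 W := fun t => if ht : IsSm p Z prt K t then (key t ht).choose else s(t, t)
  have hf : ∀ t, IsSm p Z prt K t → f t ∈ H.edgeSet ∧ (∀ x, f t ≠ s(x, p x)) ∧
      ∀ a ∈ f t, a ∈ prt t := by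
    intro t ht
    have h1 : f t = (key t ht).choose := dif_pos ht
    rw [h1]
    exact (key t ht).choose_spec
  have hX : ∀ e, e ∈ ((univ.filter fun t => IsSm p Z prt K t).image f) ↔
      ∃ t, IsSm p Z prt K t ∧ f t = e := by
    intro e
    simp
  refine ⟨(univ.filter fun t => IsSm p Z prt K t).image f, ?_, ?_, ?_, ?_, ?_, ?_, ?_⟩
  · intro e he
    obtain ⟨t, ht, rfl⟩ := (hX e).1 he
    exact (hf t ht).1
  · intro e he
    obtain ⟨t, ht, rfl⟩ := (hX e).1 he
    exact (hf t ht).2.1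
  · intro e he a ha
    obtain ⟨t, ht, rfl⟩ := (hX e).1 he
    exact (C.eq t a ht.2.1 ((hf t ht).2.2 a ha)).1
  · intro e he a ha b hb
    obtain ⟨t, ht, rfl⟩ := (hX e).1 he
    rw [(C.eq t a ht.2.1 ((hf t ht).2.2 a ha)).2, (C.eq t b ht.2.1 ((hf t ht).2.2 b hb)).2]
  · intro e he e' he' a ha b hb hab
    obtain ⟨t, ht, rfl⟩ := (hX e).1 he
    obtain ⟨t', ht', rfl⟩ := (hX e').1 he'
    rw [(C.eq t a ht.2.1 ((hf t ht).2.2 a ha)).2,
      (C.eq t' b ht'.2.1 ((hf t' ht').2.2 b hb)).2] at hab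
    have h1 : t' ∈ prt t := by
      rw [hab]
      exact C.mem t' ht'.2.1
    rw [C.root_eq ht.1 ht.2.1 ht'.1 h1]
  · intro t ht
    exact ⟨f t, (hX _).2 ⟨t, ht, rfl⟩, (hf t ht).2.2⟩
  · refine card_image_le.trans (card_le_card ?_)
    intro t ht
    exact mem_filter.2 ⟨mem_univ _, (mem_filter.1 ht).2.1⟩

end Pool.Agent.AMX
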