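import Pool.Agent.AMX.SkSlot

/-!
# Gadgets of the skeleton
-/

set_option autoImplicit false
set_option linter.unusedSectionVars false
set_option linter.unusedVariables false

namespace Pool.Agent.AMX

open Finset Pool.Agent.MP6be45b.TreePart

variable {W : Type*} [Fintype W] [DecidableEq W] {H : SimpleGraph W} {p : W → W}
  {h : W → ℕ} {Z : Finset W} {prt : W → Finset W} {K k0 D : ℕ}

/-- number of the part of a vertex -/
noncomputable def vpOf (prt : W → Finset W) (v : W) : ℕ :=
  (Fintype.equivFin (Finset W) (prt v)).val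

theorem vpOf_inj {v w : W} (he : vpOf prt v = vpOf prt w) : prt v = prt w :=
  (Fintype.equivFin (Finset W)).injective (Fin.ext he)

open Classical in
/-- number of the part of a slot -/
noncomputable def ptOf (prt : W → Finset W) (Z : Finset W) (e : Sym2 W) : ℕ :=
  if hx : ∃ w, w ∈ e ∧ w ∉ Z then vpOf prt hx.choose else 0

theorem SkCtx.vp_eq (C : SkCtx H p h Z prt K k0 D) {e : Sym2 W} (he : e ∈ slF p Z prt) {w : W}
    (hw : w ∈ e) (hwZ : w ∉ Z) : ptOf prt Z e = vpOf prt w := by
  have hx : ∃ w, w ∈ e ∧ w ∉ Z := ⟨w, hw, hwZ⟩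
  have h1 : ptOf prt Z e = vpOf prt hx.choose := dif_pos hx
  rw [h1]
  obtain ⟨h2, h3⟩ := hx.choose_spec
  by_cases hne : w = hx.choose
  · rw [← hne]
  · have h4 : e = s(w, hx.choose) := (Sym2.mem_and_mem_iff hne).1 ⟨hw, h2⟩
    rw [h4] at he
    rcases C.edge_cases hwZ he with h5 | h5
    · show (Fintype.equivFin (Finset W) (prt _)).val = (Fintype.equivFin (Finset W) (prt _)).val
      rw [(C.eq w _ hwZ h5.2.1).2]
    · exact absurd h5.1 h3

theorem SkCtx.part_le (C : SkCtx H p h Z prt K k0 D) (i : ℕ) :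
    ((slF p Z prt).filter fun e => ptOf prt Z e = i).card ≤ 2 * k0 := by
  rcases ((slF p Z prt).filter fun e => ptOf prt Z e = i).eq_empty_or_nonempty with he | ⟨e, he⟩
  · rw [he, card_empty]
    exact Nat.zero_le _
  obtain ⟨he1, he2⟩ := mem_filter.1 he
  have key : ∀ e ∈ slF p Z prt, ∃ v, v ∉ Z ∧ v ∈ e ∧ (e = s(v, p v) ∨ e = s(v, hn p Z v)) := by
    intro e he
    rcases mem_slF.1 he with ⟨v, h1, h2, h3, rfl⟩ | ⟨v, h1, h2, rfl⟩
    · exact ⟨v, h1, Sym2.mem_mk_left _ _, Or.inl rfl⟩
    · exact ⟨v, h1, Sym2.mem_mk_left _ _, Or.inr rfl⟩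
  obtain ⟨w, hw1, hw2, -⟩ := key e he1
  have hw3 := C.vp_eq he1 hw2 hw1
  have hsub : ((slF p Z prt).filter fun e => ptOf prt Z e = i) ⊆
      ((prt w).image fun v => s(v, p v)) ∪ ((prt w).image fun v => s(v, hn p Z v)) := by
    intro e' he'
    obtain ⟨h1, h2⟩ := mem_filter.1 he'
    obtain ⟨v, h3, h4, h5⟩ := key e' h1
    have h6 := C.vp_eq h1 h4 h3
    have h7 : prt v = prt w := vpOf_inj (by rw [← h6, h2, ← hw3, he2])
    have h8 : v ∈ prt w := h7 ▸ C.mem v h3
    rw [mem_union, mem_image, mem_image]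
    rcases h5 with h5 | h5
    · exact Or.inl ⟨v, h8, h5.symm⟩
    · exact Or.inr ⟨v, h8, h5.symm⟩
  calc _ ≤ _ := card_le_card hsub
    _ ≤ ((prt w).image fun v => s(v, p v)).card + ((prt w).image fun v => s(v, hn p Z v)).card :=
        card_union_le _ _
    _ ≤ (prt w).card + (prt w).card := Nat.add_le_add card_image_le card_image_le
    _ ≤ 2 * k0 := by have := C.card_le w hw1; omega

/-- a good gadget at the edge `s(v, p v)` -/
structure Gad (p : W → W) (Z : Finset W) (prt : W → Finset W) (D0 : ℕ) (v : W) (e : Sym2 W) :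
    Prop where
  mem : e ∈ slF p Z prt
  nonhub : ∀ w ∈ e, w ∉ Z
  le : ∀ w ∈ e, (slAt (slF p Z prt) w).card ≤ D0
  star : ∀ u ∈ e, ∀ w, w ∉ Z → slAt (slF p Z prt) w ≠ (slAt (slF p Z prt) u).erase e
  near : ∀ x ∈ e, x ∈ s(v, p v) ∨ ∃ u ∈ s(v, p v), slAt (slF p Z prt) x = {s(u, x)}

theorem SkCtx.exists_gad (C : SkCtx H p h Z prt K k0 D) {D0 : ℕ} (hD0 : 1 ≤ D0) {v : W}
    (hv : v ∉ Z) (hpv : p v ≠ v) (hmem : p v ∈ prt v)
    (h1 : (slAt (slF p Z prt) v).card ≤ D0) (h2 : (slAt (slF p Z prt) (p v)).card ≤ D0)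
    (h3 : ¬ ((prt v).card ≤ 3 ∧ ∃ t ∈ prt v, p t = t)) : ∃ e, Gad p Z prt D0 v e := by
  set F := slF p Z prt with hF
  have hpZ : p v ∉ Z := (C.eq v (p v) hv hmem).1
  have heF : s(v, p v) ∈ F := C.mk1 hv hmem (Ne.symm hpv) (Or.inl rfl)
  have hE : ∀ w ∈ s(v, p v), w ∉ Z ∧ (slAt F w).card ≤ D0 ∧ w ∈ prt v := by
    intro w hw
    rcases Sym2.mem_iff.1 hw with rfl | rfl
    · exact ⟨hv, h1, C.mem _ hv⟩
    · exact ⟨hpZ, h2, hmem⟩
  by_cases hA : ∀ u ∈ s(v, p v), ∀ w, w ∉ Z → slAt F w ≠ (slAt F u).erase s(v, p v)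
  · exact ⟨s(v, p v), heF, fun w hw => (hE w hw).1, fun w hw => (hE w hw).2.1, hA,
      fun x hx => Or.inl hx⟩
  push Not at hA
  obtain ⟨u, hu, w, hw, heq⟩ := hA
  obtain ⟨y, hy⟩ := Sym2.mem_iff_exists.1 hu
  obtain ⟨huZ, huD, hup⟩ := hE u hu
  have hym : y ∈ s(v, p v) := by rw [hy]; exact Sym2.mem_mk_right _ _
  obtain ⟨hyZ, hyD, hyp⟩ := hE y hym
  have huy : u ≠ y := by
    intro hc
    rw [← hc] at hy
    have h4 : v = u := by
      have : v ∈ s(u, u) := by rw [← hy]; exact Sym2.mem_mk_left _ _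
      simpa using this
    have h5 : p v = u := by
      have : p v ∈ s(u, u) := by rw [← hy]; exact Sym2.mem_mk_right _ _
      simpa using this
    exact hpv (h5.trans h4.symm)
  have heu : s(v, p v) ∈ slAt F u := mem_slAt.2 ⟨heF, hu⟩
  have hwu : w ≠ u := by
    intro hc
    rw [hc] at heq
    have := heu
    rw [heq] at this
    exact (mem_erase.1 this).1 rfl
  have hwy : w ≠ y := by
    intro hc
    have : s(v, p v) ∈ slAt F w := by rw [hc]; exact mem_slAt.2 ⟨heF, hym⟩
    rw [heq] at this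
    exact (mem_erase.1 this).1 rfl
  have hall : ∀ f ∈ slAt F w, f = s(u, w) := by
    intro f hf
    have hf' := hf
    rw [heq] at hf'
    exact two_eq hwu.symm (mem_erase.1 hf').2 hf
  have hwne := C.has_slot hw
  have hsw : slAt F w = {s(u, w)} := by
    obtain ⟨f, hf⟩ := hwne
    ext g
    rw [mem_singleton]
    constructor
    · exact hall g
    · intro hg
      rw [hg, ← hall f hf]
      exact hf
  have huw : s(u, w) ∈ slAt F w := by rw [hsw]; exact mem_singleton_self _
  have huwF : s(u, w) ∈ F := (mem_slAt.1 huw).1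
  have huwu : s(u, w) ∈ slAt F u := mem_slAt.2 ⟨huwF, Sym2.mem_mk_left _ _⟩
  have hne : s(u, w) ≠ s(v, p v) := by
    rw [hy]
    intro hc
    rcases Sym2.eq_iff.1 hc with ⟨-, h4⟩ | ⟨h4, -⟩
    · exact hwy h4
    · exact huy h4
  have hsu : ∀ f ∈ slAt F u, f = s(v, p v) ∨ f = s(u, w) := by
    intro f hf
    by_cases hfe : f = s(v, p v)
    · exact Or.inl hfe
    · right
      apply hall
      rw [heq]
      exact mem_erase.2 ⟨hfe, hf⟩
  refine ⟨s(u, w), huwF, ?_, ?_, ?_, ?_⟩
  · intro x hx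
    rcases Sym2.mem_iff.1 hx with rfl | rfl
    · exact huZ
    · exact hw
  · intro x hx
    rcases Sym2.mem_iff.1 hx with rfl | rfl
    · exact huD
    · rw [← hF, hsw, card_singleton]
      exact hD0
  · intro x hx w' hw' hc
    rw [← hF] at hc
    rcases Sym2.mem_iff.1 hx with rfl | rfl
    · -- the star at `u`
      have h4 : (slAt F x).erase s(x, w) = {s(v, p v)} := by
        ext g
        rw [mem_erase, mem_singleton]
        constructor
        · rintro ⟨h5, h6⟩
          rcases hsu g h6 with h7 | h7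
          · exact h7
          · exact absurd h7 h5
        · intro hg
          rw [hg]
          exact ⟨hne.symm, heu⟩
      rw [h4] at hc
      have h5 : w' ∈ s(v, p v) := by
        have : s(v, p v) ∈ slAt F w' := by rw [hc]; exact mem_singleton_self _
        exact (mem_slAt.1 this).2
      rw [hy] at h5
      have h6 : w' = y := by
        rcases Sym2.mem_iff.1 h5 with h6 | h6
        · exfalso
          rw [h6] at hc
          rw [hc] at huwu
          exact hne (mem_singleton.1 huwu)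
        · exact h6
      subst h6
      -- the three vertices form a component
      have hwp : w ∈ prt v := by
        rcases C.edge_cases huZ huwF with h7 | h7
        · rw [← (C.eq v x hv hup).2]
          exact h7.2.1
        · exact absurd h7.1 hw
      have hcard : ({x, w', w} : Finset W).card ≤ 3 := card_le_three
      have hS : ({x, w', w} : Finset W) ⊆ prt v := by
        intro z hz
        simp only [mem_insert, mem_singleton] at hz
        rcases hz with rfl | rfl | rfl
        · exact hup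
        · exact hyp
        · exact hwp
      have := C.tight hv hS ⟨x, by simp⟩ (by
          intro z hz y hzy
          simp only [mem_insert, mem_singleton] at hz ⊢
          rcases hz with rfl | rfl | rfl
          · rcases hsu _ (mem_slAt.2 ⟨hzy, Sym2.mem_mk_left _ _⟩) with h8 | h8
            · rw [hy] at h8
              rcases Sym2.eq_iff.1 h8 with ⟨-, h9⟩ | ⟨-, h9⟩
              · exact Or.inr (Or.inl h9)
              · exact Or.inl h9
            · rcases Sym2.eq_iff.1 h8 with ⟨-, h9⟩ | ⟨-, h9⟩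
              · exact Or.inr (Or.inr h9)
              · exact Or.inl h9
          · have h8 : s(z, y) ∈ slAt F z := mem_slAt.2 ⟨hzy, Sym2.mem_mk_left _ _⟩
            rw [hc, mem_singleton, hy] at h8
            rcases Sym2.eq_iff.1 h8 with ⟨-, h9⟩ | ⟨-, h9⟩
            · exact Or.inr (Or.inl h9)
            · exact Or.inl h9
          · have h8 : s(z, y) ∈ slAt F z := mem_slAt.2 ⟨hzy, Sym2.mem_mk_left _ _⟩
            rw [hsw, mem_singleton] at h8
            rcases Sym2.eq_iff.1 h8 with ⟨-, h9⟩ | ⟨-, h9⟩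
            · exact Or.inr (Or.inr h9)
            · exact Or.inl h9) (by have := C.hK; omega)
      exact h3 ⟨by rw [← this.1]; exact hcard, this.2.2⟩
    · -- the star at `w`
      rw [hsw] at hc
      have h4 : ({s(u, x)} : Finset (Sym2 W)).erase s(u, x) = ∅ := by
        ext g
        simp
      rw [h4] at hc
      have h5 := C.has_slot hw'
      rw [← hF, hc] at h5
      exact absurd h5 (by simp)
  · intro x hx
    rcases Sym2.mem_iff.1 hx with rfl | rfl
    · exact Or.inl hu
    · exact Or.inr ⟨u, hu, hsw⟩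

/-- a large independent set in a graph of degrees at most two -/
theorem indep_third {α : Type*} [DecidableEq α] (X : Finset α) (R : α → α → Prop)
    [DecidableRel R] (hsymm : ∀ x y, R x y → R y x) (hirr : ∀ x, ¬ R x x)
    (hdeg : ∀ x ∈ X, (X.filter (R x)).card ≤ 2) :
    ∃ Y ⊆ X, (∀ x ∈ Y, ∀ y ∈ Y, ¬ R x y) ∧ X.card ≤ 3 * Y.card := by
  obtain ⟨Y, hY, hmax⟩ := exists_max_image
    (X.powerset.filter fun Y => ∀ x ∈ Y, ∀ y ∈ Y, ¬ R x y) (fun Y => Y.card)
    ⟨∅, mem_filter.2 ⟨by simp, by simp⟩⟩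
  obtain ⟨hY1, hY2⟩ := mem_filter.1 hY
  rw [mem_powerset] at hY1
  refine ⟨Y, hY1, hY2, ?_⟩
  have hsub : X ⊆ Y.biUnion fun y => insert y (X.filter (R y)) := by
    intro x hx
    rw [mem_biUnion]
    by_cases hxY : x ∈ Y
    · exact ⟨x, hxY, mem_insert_self _ _⟩
    · by_contra hc
      push Not at hc
      have h1 : ∀ y ∈ Y, ¬ R y x := fun y hy hR =>
        hc y hy (mem_insert_of_mem (mem_filter.2 ⟨hx, hR⟩))
      have h2 := hmax (insert x Y) (mem_filter.2 ⟨mem_powerset.2 (insert_subset hx hY1), by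
        intro a ha b hb hab
        rcases mem_insert.1 ha with ha | ha <;> rcases mem_insert.1 hb with hb | hb
        · rw [ha, hb] at hab
          exact hirr _ hab
        · rw [ha] at hab
          exact h1 b hb (hsymm _ _ hab)
        · rw [hb] at hab
          exact h1 a ha hab
        · exact hY2 a ha b hb hab⟩)
      have h3 : (insert x Y).card ≤ Y.card := h2
      rw [card_insert_of_notMem hxY] at h3
      omega
  calc X.card ≤ _ := card_le_card hsub
    _ ≤ Y.card * 3 := Finset.card_biUnion_le_card_mul _ _ _ (by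
        intro y hy
        refine (card_insert_le _ _).trans ?_
        have := hdeg y (hY1 hy)
        omega)
    _ = 3 * Y.card := mul_comm _ _

end Pool.Agent.AMX
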