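import Pool.Agent.MP6be45b.TreePart

/-!
# Rooted spanning forests containing a given matching
-/

set_option autoImplicit false
set_option linter.unusedSectionVars false
set_option linter.unusedVariables false

namespace Pool.Agent.AMX

open Finset Pool.Agent.MP6be45b.TreePart

variable {V : Type*} [Fintype V] [DecidableEq V] {G : SimpleGraph V} {p : V → V} {h : V → ℕ}

theorem reach_of_desc (hR : Rooted G p h) {v w : V} (hd : Desc p v w) : G.Reachable v w := by
  obtain ⟨k, hk⟩ := hd
  induction k generalizing w with
  | zero =>
    have : w = v := hk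
    subst this
    exact SimpleGraph.Reachable.refl _
  | succ k ih =>
    have h1 := ih (w := p w) hk
    by_cases hw : p w = w
    · rwa [hw] at h1
    · exact h1.trans (hR.adj w hw).symm.reachable

/-- **Forest containing a matching.** For every matching, given by an involution `m`, there is a
rooted spanning forest containing all edges `s(v, m v)`. -/
theorem exists_rooted_matching (H : SimpleGraph V) (m : V → V) (hm : ∀ v, m (m v) = v)
    (hadj : ∀ v, m v ≠ v → H.Adj v (m v)) :
    ∃ (p : V → V) (h : V → ℕ), Rooted H p h ∧
      (∀ v w, p v = v → H.Reachable v w → Desc p v w) ∧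
      ∀ v, m v ≠ v → p v = m v ∨ p (m v) = v := by
  classical
  obtain ⟨p0, h0, hR0, hs0⟩ := exists_rooted H
  let idx : V → ℕ := fun v => (Fintype.equivFin V v).val
  have hidx : ∀ v, idx v < Fintype.card V := fun v => (Fintype.equivFin V v).isLt
  have hinj : ∀ v w, idx v = idx w → v = w := fun v w he =>
    (Fintype.equivFin V).injective (Fin.ext he)
  let h1 : V → ℕ := fun v => h0 v * Fintype.card V + idx v
  have h1lt : ∀ v w, h0 v < h0 w → h1 v < h1 w := by
    intro v w hvw
    have e1 : (h0 v + 1) * Fintype.card V ≤ h0 w * Fintype.card V := Nat.mul_le_mul_right _ hvw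
    have e2 := hidx v
    show h0 v * Fintype.card V + idx v < h0 w * Fintype.card V + idx w
    rw [Nat.add_mul, Nat.one_mul] at e1
    omega
  have h1inj : ∀ v w, h1 v = h1 w → v = w := by
    intro v w he
    rcases lt_trichotomy (h0 v) (h0 w) with h | h | h
    · exact absurd he (h1lt v w h).ne
    · apply hinj
      have : h0 v * Fintype.card V + idx v = h0 w * Fintype.card V + idx w := he
      rw [h] at this
      exact Nat.add_left_cancel this
    · exact absurd he (h1lt w v h).ne'
  let p : V → V := fun v => if m v ≠ v ∧ h1 (m v) < h1 v then m v else p0 v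
  have hpR : ∀ v, (m v ≠ v ∧ h1 (m v) < h1 v) → p v = m v := fun v hv => if_pos hv
  have hpN : ∀ v, ¬ (m v ≠ v ∧ h1 (m v) < h1 v) → p v = p0 v := fun v hv => if_neg hv
  have hroot : ∀ v, p v = v → p0 v = v := by
    intro v hv
    by_cases hc : m v ≠ v ∧ h1 (m v) < h1 v
    · rw [hpR v hc] at hv
      exact absurd hv hc.1
    · rwa [hpN v hc] at hv
  have hR : Rooted H p h1 := by
    constructor
    · intro v hv
      by_cases hc : m v ≠ v ∧ h1 (m v) < h1 v
      · rw [hpR v hc]
        exact hadj v hc.1
      · rw [hpN v hc] at hv ⊢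
        exact hR0.adj v hv
    · intro v hv
      by_cases hc : m v ≠ v ∧ h1 (m v) < h1 v
      · rw [hpR v hc]
        exact hc.2
      · rw [hpN v hc] at hv ⊢
        exact h1lt _ _ (hR0.lt v hv)
  refine ⟨p, h1, hR, ?_, ?_⟩
  · intro v w hv hvw
    obtain ⟨r, hr, hd⟩ := exists_root hR w
    have e1 : H.Reachable v r := hvw.trans (reach_of_desc hR hd).symm
    have e2 := hs0 v r (hroot v hv) e1
    have e3 := desc_fix (hroot r hr) e2
    rw [← e3]
    exact hd
  · intro v hv
    rcases lt_trichotomy (h1 (m v)) (h1 v) with h | h | h
    · exact Or.inl (hpR v ⟨hv, h⟩)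
    · exact absurd (h1inj _ _ h) hv
    · right
      have := hpR (m v) (by rw [hm]; exact ⟨hv.symm, h⟩)
      rw [this, hm]

/-- the number of roots is at most the number of components -/
theorem card_roots_le (hs : ∀ v w, p v = v → G.Reachable v w → Desc p v w) :
    (univ.filter fun v => p v = v).card ≤ Nat.card G.ConnectedComponent := by
  classical
  have : Finite G.ConnectedComponent := Quot.finite _
  have := Fintype.ofFinite G.ConnectedComponent
  rw [Nat.card_eq_fintype_card]
  rw [← Finset.card_univ]
  apply Finset.card_le_card_of_injOn (fun v => G.connectedComponentMk v)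
  · intro v _
    exact mem_coe.2 (mem_univ _)
  · intro v hv w hw he
    have hv' : p v = v := (mem_filter.1 (mem_coe.1 hv)).2
    have hw' : p w = w := (mem_filter.1 (mem_coe.1 hw)).2
    have h1 := hs v w hv' (SimpleGraph.ConnectedComponent.exact he)
    exact (desc_fix hw' h1).symm

/-- the sets of children are disjoint -/
theorem sum_chl_le (p : V → V) (Z : Finset V) : ∑ v ∈ Z, (chl p v).card ≤ Fintype.card V := by
  rw [← Finset.card_biUnion]
  · exact Finset.card_le_univ _
  · intro v _ w _ hne
    rw [Function.onFun, Finset.disjoint_left]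
    intro x hx hx'
    have e1 := (mem_filter.1 hx).2.1
    have e2 := (mem_filter.1 hx').2.1
    exact hne (e1.symm.trans e2)

end Pool.Agent.AMX
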