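import Pool.Agent.AMX.SkPart

/-!
# The slots of a rooted spanning forest with hubs and parts
-/

set_option autoImplicit false
set_option linter.unusedSectionVars false
set_option linter.unusedVariables false

namespace Pool.Agent.AMX

open Finset Pool.Agent.MP6be45b.TreePart

/-- the slots (edges of `F`) at `w` -/
def slAt {W : Type*} [DecidableEq W] (F : Finset (Sym2 W)) (w : W) : Finset (Sym2 W) :=
  F.filter fun e => w ∈ e

variable {W : Type*} [Fintype W] [DecidableEq W] {H : SimpleGraph W} {p : W → W}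
  {h : W → ℕ} {Z : Finset W} {prt : W → Finset W} {K k0 D : ℕ}

/-- `v` has a hub as neighbour in the forest -/
def HasHub (p : W → W) (Z : Finset W) (v : W) : Prop := p v ∈ Z ∨ ∃ c ∈ Z, p c = v

open Classical in
/-- a hub adjacent to `v` in the forest -/
noncomputable def hn (p : W → W) (Z : Finset W) (v : W) : W :=
  if p v ∈ Z then p v else if hx : ∃ c ∈ Z, p c = v then hx.choose else v

theorem hn_spec {v : W} (hv : v ∉ Z) (hh : HasHub p Z v) : hn p Z v ∈ Z ∧
    (p v = hn p Z v ∨ p (hn p Z v) = v) := by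
  unfold hn
  by_cases h1 : p v ∈ Z
  · rw [if_pos h1]
    exact ⟨h1, Or.inl rfl⟩
  · rw [if_neg h1]
    have h2 : ∃ c ∈ Z, p c = v := hh.resolve_left h1
    rw [dif_pos h2]
    exact ⟨h2.choose_spec.1, Or.inr h2.choose_spec.2⟩

theorem hn_par {v : W} (h1 : p v ∈ Z) : hn p Z v = p v := by
  unfold hn
  rw [if_pos h1]

open Classical in
/-- the slots: edges of the forest inside parts, and for each vertex one edge to a hub -/
noncomputable def slF (p : W → W) (Z : Finset W) (prt : W → Finset W) : Finset (Sym2 W) :=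
  ((univ.filter fun v => v ∉ Z ∧ p v ≠ v ∧ p v ∈ prt v).image fun v => s(v, p v)) ∪
  ((univ.filter fun v => v ∉ Z ∧ HasHub p Z v).image fun v => s(v, hn p Z v))

theorem mem_slF {e : Sym2 W} : e ∈ slF p Z prt ↔
    (∃ v, v ∉ Z ∧ p v ≠ v ∧ p v ∈ prt v ∧ e = s(v, p v)) ∨
    (∃ v, v ∉ Z ∧ HasHub p Z v ∧ e = s(v, hn p Z v)) := by
  classical
  unfold slF
  rw [mem_union, mem_image, mem_image]
  constructor
  · rintro (⟨v, hv, rfl⟩ | ⟨v, hv, rfl⟩)
    · obtain ⟨h1, h2, h3⟩ := (mem_filter.1 hv).2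
      exact Or.inl ⟨v, h1, h2, h3, rfl⟩
    · obtain ⟨h1, h2⟩ := (mem_filter.1 hv).2
      exact Or.inr ⟨v, h1, h2, rfl⟩
  · rintro (⟨v, h1, h2, h3, rfl⟩ | ⟨v, h1, h2, rfl⟩)
    · exact Or.inl ⟨v, mem_filter.2 ⟨mem_univ _, h1, h2, h3⟩, rfl⟩
    · exact Or.inr ⟨v, mem_filter.2 ⟨mem_univ _, h1, h2⟩, rfl⟩

/-- every slot is an edge of the forest -/
theorem slF_tree {e : Sym2 W} (he : e ∈ slF p Z prt) : ∃ x, p x ≠ x ∧ e = s(x, p x) := by
  rcases mem_slF.1 he with ⟨v, h1, h2, h3, rfl⟩ | ⟨v, h1, h2, rfl⟩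
  · exact ⟨v, h2, rfl⟩
  · obtain ⟨h3, h4⟩ := hn_spec h1 h2
    have hne : hn p Z v ≠ v := fun hc => h1 (hc ▸ h3)
    rcases h4 with h4 | h4
    · exact ⟨v, by rw [h4]; exact hne, by rw [h4]⟩
    · exact ⟨hn p Z v, by rw [h4]; exact hne.symm, by rw [h4, Sym2.eq_swap]⟩

theorem SkCtx.edge_cases (C : SkCtx H p h Z prt K k0 D) {w w' : W} (hw : w ∉ Z)
    (he : s(w, w') ∈ slF p Z prt) :
    (w' ∉ Z ∧ w' ∈ prt w ∧ w ≠ w' ∧ (p w = w' ∨ p w' = w)) ∨
    (w' ∈ Z ∧ HasHub p Z w ∧ w' = hn p Z w) := by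
  rcases mem_slF.1 he with ⟨v, h1, h2, h3, h4⟩ | ⟨v, h1, h2, h4⟩
  · left
    obtain ⟨h5, h6⟩ := C.eq v (p v) h1 h3
    rcases Sym2.eq_iff.1 h4 with ⟨rfl, rfl⟩ | ⟨rfl, rfl⟩
    · exact ⟨h5, h3, h2.symm, Or.inl rfl⟩
    · refine ⟨h1, ?_, h2, Or.inr rfl⟩
      rw [h6]
      exact C.mem _ h1
  · right
    rcases Sym2.eq_iff.1 h4 with ⟨rfl, rfl⟩ | ⟨rfl, rfl⟩
    · exact ⟨(hn_spec h1 h2).1, h2, rfl⟩
    · exact absurd (hn_spec h1 h2).1 hw

theorem SkCtx.mk1 (C : SkCtx H p h Z prt K k0 D) {w w' : W} (hw : w ∉ Z) (h' : w' ∈ prt w)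
    (hne : w ≠ w') (hadj : p w = w' ∨ p w' = w) : s(w, w') ∈ slF p Z prt := by
  obtain ⟨h5, h6⟩ := C.eq w w' hw h'
  rw [mem_slF]
  left
  rcases hadj with rfl | hadj
  · exact ⟨w, hw, hne.symm, h', rfl⟩
  · refine ⟨w', h5, by rw [hadj]; exact hne, ?_, by rw [hadj, Sym2.eq_swap]⟩
    rw [hadj, h6]
    exact C.mem w hw

theorem mk2 {w : W} (hw : w ∉ Z) (hh : HasHub p Z w) :
    s(w, hn p Z w) ∈ slF p Z prt := mem_slF.2 (Or.inr ⟨w, hw, hh, rfl⟩)

/-- a small subset of a part closed under slots is a component -/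
theorem SkCtx.tight (C : SkCtx H p h Z prt K k0 D) {v : W} (hv : v ∉ Z) {S : Finset W}
    (hS : S ⊆ prt v) (hne : S.Nonempty) (hcl : ∀ x ∈ S, ∀ y, s(x, y) ∈ slF p Z prt → y ∈ S)
    (hcard : S.card < K) : S = prt v ∧ 3 ≤ S.card ∧ ∃ t ∈ prt v, p t = t := by
  have hSZ : ∀ x ∈ S, x ∉ Z := fun x hx => (C.eq v x hv (hS hx)).1
  have hno : ∀ x ∈ S, ¬ HasHub p Z x := by
    intro x hx hh
    have h1 := hcl x hx _ (mk2 (hSZ x hx) hh)
    exact hSZ _ h1 (hn_spec (hSZ x hx) hh).1
  have hw : S = prt v := by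
    apply C.whole hv hS hne
    intro x hx y hy hxy
    by_cases hxy' : x = y
    · rwa [← hxy']
    · apply hcl x hx
      apply C.mk1 (hSZ x hx) _ hxy' hxy
      rw [(C.eq v x hv (hS hx)).2]
      exact hy
  have h3 := C.small hv (by rw [← hw]; exact hcard)
    (fun x hx hc => hno x (by rw [hw]; exact hx) (Or.inl hc))
    (fun z hz hc => hno (p z) (by rw [hw]; exact hc) (Or.inr ⟨z, hz, rfl⟩))
  refine ⟨hw, ?_, h3.1⟩
  rw [hw]
  exact h3.2

theorem mem_slAt {F : Finset (Sym2 W)} {w : W} {e : Sym2 W} : e ∈ slAt F w ↔ e ∈ F ∧ w ∈ e :=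
  mem_filter

theorem SkCtx.has_slot (C : SkCtx H p h Z prt K k0 D) {w : W} (hw : w ∉ Z) :
    (slAt (slF p Z prt) w).Nonempty := by
  by_contra hne
  rw [not_nonempty_iff_eq_empty] at hne
  have hno : ∀ y, s(w, y) ∉ slF p Z prt := by
    intro y hy
    have : s(w, y) ∈ slAt (slF p Z prt) w := mem_slAt.2 ⟨hy, Sym2.mem_mk_left _ _⟩
    rw [hne] at this
    exact absurd this (notMem_empty _)
  have := C.tight hw (S := {w}) (singleton_subset_iff.2 (C.mem w hw)) (singleton_nonempty _)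
    (by
      intro x hx y hy
      rw [mem_singleton] at hx
      subst hx
      exact absurd hy (hno y)) (by rw [card_singleton]; have := C.hK; omega)
  have h3 := this.2.1
  rw [card_singleton] at h3
  omega

/-- two vertices with the same slot -/
theorem two_eq {F : Finset (Sym2 W)} {w w' : W} {e : Sym2 W} (hne : w ≠ w') (h1 : e ∈ slAt F w)
    (h2 : e ∈ slAt F w') : e = s(w, w') :=
  (Sym2.mem_and_mem_iff hne).1 ⟨(mem_slAt.1 h1).2, (mem_slAt.1 h2).2⟩

theorem SkCtx.slots_ne (C : SkCtx H p h Z prt K k0 D) {w w' : W} (hw : w ∉ Z) (hw' : w' ∉ Z)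
    (hne : w ≠ w') : slAt (slF p Z prt) w ≠ slAt (slF p Z prt) w' := by
  intro heq
  obtain ⟨e, he⟩ := C.has_slot hw
  have hall : ∀ f ∈ slAt (slF p Z prt) w, f = s(w, w') := fun f hf =>
    two_eq hne hf (heq ▸ hf)
  have hall' : ∀ f ∈ slAt (slF p Z prt) w', f = s(w, w') := fun f hf => hall f (heq ▸ hf)
  have he' := he
  rw [hall e he] at he'
  have hmem : w' ∈ prt w := by
    rcases C.edge_cases hw (mem_slAt.1 he').1 with h1 | h1
    · exact h1.2.1
    · exact absurd h1.1 hw'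
  have := C.tight hw (S := {w, w'}) (by
      intro x hx
      rw [mem_insert, mem_singleton] at hx
      rcases hx with rfl | rfl
      · exact C.mem _ hw
      · exact hmem) ⟨w, by simp⟩
    (by
      intro x hx y hy
      rw [mem_insert, mem_singleton] at hx ⊢
      rcases hx with rfl | rfl
      · have h2 := hall _ (mem_slAt.2 ⟨hy, Sym2.mem_mk_left _ _⟩)
        rcases Sym2.eq_iff.1 h2 with ⟨-, h3⟩ | ⟨h3, h4⟩
        · exact Or.inr h3
        · exact Or.inl h4
      · have h2 := hall' _ (mem_slAt.2 ⟨hy, Sym2.mem_mk_left _ _⟩)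
        rcases Sym2.eq_iff.1 h2 with ⟨h3, h4⟩ | ⟨h3, h4⟩
        · exact Or.inr h4
        · exact Or.inl h4) (by rw [card_pair hne]; have := C.hK; omega)
  have h3 := this.2.1
  rw [card_pair hne] at h3
  omega

theorem SkCtx.slots_le (C : SkCtx H p h Z prt K k0 D) {w : W} (hw : w ∉ Z) :
    (slAt (slF p Z prt) w).card ≤ D + 1 := by
  have hsub : slAt (slF p Z prt) w ⊆ (insert w (chl p w)).image fun x => s(x, p x) := by
    intro e he
    obtain ⟨h1, h2⟩ := mem_slAt.1 he
    obtain ⟨x, h3, rfl⟩ := slF_tree h1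
    refine mem_image.2 ⟨x, ?_, rfl⟩
    rcases Sym2.mem_iff.1 h2 with rfl | h4
    · exact mem_insert_self _ _
    · apply mem_insert_of_mem
      refine mem_filter.2 ⟨mem_univ _, h4.symm, ?_⟩
      rw [h4]
      exact h3.symm
  calc _ ≤ _ := card_le_card hsub
    _ ≤ (insert w (chl p w)).card := card_image_le
    _ ≤ (chl p w).card + 1 := card_insert_le _ _
    _ ≤ D + 1 := Nat.succ_le_succ (C.chl_le w hw)

theorem card_slF_le : (slF p Z prt).card ≤ Fintype.card W := by
  have hsub : slF p Z prt ⊆ (univ : Finset W).image fun x => s(x, p x) := by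
    intro e he
    obtain ⟨x, h3, rfl⟩ := slF_tree he
    exact mem_image.2 ⟨x, mem_univ _, rfl⟩
  exact (card_le_card hsub).trans card_image_le

/-- tops of large parts -/
theorem SkCtx.card_top (C : SkCtx H p h Z prt K k0 D) {X : Finset W}
    (hX : ∀ v ∈ X, v ∉ Z ∧ p v ∉ Z ∧ p v ≠ v ∧ p v ∉ prt v) : K * X.card ≤ Fintype.card W := by
  have h1 : ∀ v ∈ X, K ≤ (prt v).card := by
    intro v hv
    obtain ⟨h2, h3, h4, h5⟩ := hX v hv
    obtain ⟨t, ht, htop, hor⟩ := C.top v h2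
    have hvt : v = t := by
      by_contra hc
      exact h5 (htop v (C.mem v h2) hc).1
    subst hvt
    rcases hor with hor | ⟨h6, -⟩
    · exact hor
    · rcases h6 with h6 | h6
      · exact absurd h6 h4
      · exact absurd h6 h3
  have hdisj : Set.PairwiseDisjoint (X : Set W) prt := by
    intro v hv w hw hne
    rw [Function.onFun, Finset.disjoint_left]
    intro x hx hx'
    obtain ⟨h2, h3, h4, h5⟩ := hX v hv
    obtain ⟨h2', h3', h4', h5'⟩ := hX w hw
    have heq : prt v = prt w := (C.eq v x h2 hx).2.symm.trans (C.eq w x h2' hx').2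
    obtain ⟨t, ht, htop, -⟩ := C.top w h2'
    have hwt : w = t := by
      by_contra hc
      exact h5' (htop w (C.mem w h2') hc).1
    have hvt : v = t := by
      by_contra hc
      have hvw : v ∈ prt w := heq ▸ C.mem v h2
      exact h5 (heq ▸ (htop v hvw hc).1)
    exact hne (hvt.trans hwt.symm)
  calc K * X.card = ∑ v ∈ X, K := by rw [Finset.sum_const, smul_eq_mul, mul_comm]
    _ ≤ ∑ v ∈ X, (prt v).card := Finset.sum_le_sum h1
    _ = (X.biUnion prt).card := (Finset.card_biUnion hdisj).symm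
    _ ≤ Fintype.card W := Finset.card_le_univ _

theorem tree_inj (hR : Rooted H p h) {v w : W} (hv : p v ≠ v) (hw : p w ≠ w)
    (he : s(v, p v) = s(w, p w)) : v = w := by
  rcases Sym2.eq_iff.1 he with ⟨h1, -⟩ | ⟨h1, h2⟩
  · exact h1
  · have h3 := hR.lt v hv
    have h4 := hR.lt w hw
    rw [h2] at h3
    rw [← h1] at h4
    omega

/-- there are almost `|W|` slots -/
theorem SkCtx.card_slF (C : SkCtx H p h Z prt K k0 D) : Fintype.card W ≤ (slF p Z prt).card +
    Z.card + (univ.filter fun v => p v = v).card +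
    (univ.filter fun v => v ∉ Z ∧ p v ∉ Z ∧ p v ≠ v ∧ p v ∉ prt v).card := by
  classical
  set X := univ.filter fun v => v ∉ Z ∧ p v ∉ Z ∧ p v ≠ v ∧ p v ∉ prt v with hXdef
  set R := univ.filter fun v => p v = v with hRdef
  let Y : Finset W := univ.filter fun v => v ∉ Z ∧ p v ≠ v ∧ v ∉ X
  have h1 : (univ : Finset W) ⊆ Y ∪ Z ∪ R ∪ X := by
    intro v _
    by_cases h1 : v ∈ X
    · exact mem_union_right _ h1
    · by_cases h2 : p v = v
      · exact mem_union_left _ (mem_union_right _ (mem_filter.2 ⟨mem_univ _, h2⟩))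
      · by_cases h3 : v ∈ Z
        · exact mem_union_left _ (mem_union_left _ (mem_union_right _ h3))
        · exact mem_union_left _ (mem_union_left _ (mem_union_left _
            (mem_filter.2 ⟨mem_univ _, h3, h2, h1⟩)))
  have h2 : Y.card ≤ (slF p Z prt).card := by
    apply Finset.card_le_card_of_injOn (fun v => s(v, p v))
    · intro v hv
      obtain ⟨h3, h4, h5⟩ := (mem_filter.1 (mem_coe.1 hv)).2
      rw [mem_coe]
      by_cases h6 : p v ∈ Z
      · have h7 : HasHub p Z v := Or.inl h6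
        have h8 := mk2 (prt := prt) h3 h7
        rwa [hn_par h6] at h8
      · have h7 : p v ∈ prt v := by
          by_contra hc
          exact h5 (mem_filter.2 ⟨mem_univ _, h3, h6, h4, hc⟩)
        exact C.mk1 h3 h7 (Ne.symm h4) (Or.inl rfl)
    · intro v hv w hw he
      exact tree_inj C.rooted (mem_filter.1 (mem_coe.1 hv)).2.2.1
        (mem_filter.1 (mem_coe.1 hw)).2.2.1 he
  calc Fintype.card W = (univ : Finset W).card := card_univ.symm
    _ ≤ (Y ∪ Z ∪ R ∪ X).card := card_le_card h1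
    _ ≤ (Y ∪ Z ∪ R).card + X.card := card_union_le _ _
    _ ≤ (Y ∪ Z).card + R.card + X.card := by gcongr; exact card_union_le _ _
    _ ≤ Y.card + Z.card + R.card + X.card := by gcongr; exact card_union_le _ _
    _ ≤ _ := by gcongr

/-- few vertices have many slots -/
theorem card_many {F : Finset (Sym2 W)} {X : Finset W} {d : ℕ}
    (hX : ∀ v ∈ X, d ≤ (slAt F v).card) : d * X.card ≤ 2 * F.card := by
  calc d * X.card = ∑ v ∈ X, d := by rw [Finset.sum_const, smul_eq_mul, mul_comm]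
    _ ≤ ∑ v ∈ X, (slAt F v).card := Finset.sum_le_sum hX
    _ ≤ ∑ v : W, (slAt F v).card := Finset.sum_le_univ_sum_of_nonneg fun _ => Nat.zero_le _
    _ = ∑ v : W, ∑ e ∈ F, (if v ∈ e then 1 else 0) := by
        apply Finset.sum_congr rfl
        intro v _
        exact Finset.card_filter _ _
    _ = ∑ e ∈ F, ∑ v : W, (if v ∈ e then 1 else 0) := Finset.sum_comm
    _ ≤ ∑ e ∈ F, 2 := by
        apply Finset.sum_le_sum
        intro e _
        induction e using Sym2.ind with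
        | _ a b =>
          rw [← Finset.card_filter]
          refine (card_le_card ?_).trans (Finset.card_le_two (a := a) (b := b))
          intro x hx
          rw [mem_insert, mem_singleton]
          exact Sym2.mem_iff.1 (mem_filter.1 hx).2
    _ = 2 * F.card := by rw [Finset.sum_const, smul_eq_mul, mul_comm]

end Pool.Agent.AMX
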