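import Pool.Agent.MP6be45b.TreePart

/-!
# Rooted spanning forests containing a matching; parts
-/

set_option autoImplicit false
set_option linter.unusedSectionVars false
set_option linter.unusedVariables false

namespace Pool.Agent.AMX

open Finset Pool.Agent.MP6be45b.TreePart

variable {V : Type*} [Fintype V] [DecidableEq V] {G : SimpleGraph V} {p : V → V} {h : V → ℕ}

theorem main2 (hR : Rooted G p h) {D K : ℕ} (hK : 1 ≤ K)
    (hD : ∀ v, (chl p v).card ≤ D ∧ (p v ≠ v → (chl p v).card + 1 ≤ D)) (n : ℕ) : ∀ A : Finset V, A.card = n → (∀ w ∈ A, p w ∈ A) →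
    (∀ r ∈ A, p r = r → K ≤ (dsc p A r).card) →
    ∃ P : Finset (Finset V), (∀ B ∈ P, (∃ t, IsTop p B t) ∧ K ≤ B.card ∧
      B.card ≤ D * (K - 1) + 1) ∧ (∀ B ∈ P, ∀ B' ∈ P, B ≠ B' → Disjoint B B') ∧
      ∀ v, v ∈ A ↔ ∃ B ∈ P, v ∈ B := by
  induction n using Nat.strong_induction_on with
  | _ n ih =>
    intro A hn hA hroot
    rcases A.eq_empty_or_nonempty with rfl | ⟨w0, hw0⟩
    · exact ⟨∅, by simp, by simp, by simp⟩
    -- removal of a set of descendants
    have rem : ∀ t ∈ A, K ≤ (dsc p A t).card → (dsc p A t).card ≤ D * (K - 1) + 1 →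
        (∀ r ∈ A, p r = r → r ∉ dsc p A t → K ≤ (dsc p (A \ dsc p A t) r).card) →
        ∃ P : Finset (Finset V), (∀ B ∈ P, (∃ t, IsTop p B t) ∧ K ≤ B.card ∧
          B.card ≤ D * (K - 1) + 1) ∧ (∀ B ∈ P, ∀ B' ∈ P, B ≠ B' → Disjoint B B') ∧
          ∀ v, v ∈ A ↔ ∃ B ∈ P, v ∈ B := by
      intro t ht h1 h2 h3
      have htop := isTop_dsc hA ht
      have hlt : (A \ dsc p A t).card < n := by
        rw [← hn]
        apply card_lt_card
        rw [ssubset_iff_of_subset sdiff_subset]
        exact ⟨t, ht, fun hc => (mem_sdiff.1 hc).2 htop.mem⟩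
      have hcl : ∀ w ∈ A \ dsc p A t, p w ∈ A \ dsc p A t := by
        intro w hw
        obtain ⟨h4, h5⟩ := mem_sdiff.1 hw
        refine mem_sdiff.2 ⟨hA w h4, fun hc => h5 (mem_dsc.2 ⟨h4, desc_of_par (mem_dsc.1 hc).2⟩)⟩
      obtain ⟨P, hP1, hP2, hP3⟩ := ih _ hlt (A \ dsc p A t) rfl hcl (by
        intro r hr hpr
        obtain ⟨h4, h5⟩ := mem_sdiff.1 hr
        exact h3 r h4 hpr h5)
      have hdis : ∀ B ∈ P, Disjoint (dsc p A t) B := by
        intro B hB
        rw [disjoint_left]
        intro v hv hvB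
        have := (hP3 v).2 ⟨B, hB, hvB⟩
        exact (mem_sdiff.1 this).2 hv
      refine ⟨insert (dsc p A t) P, ?_, ?_, ?_⟩
      · intro B hB
        rcases mem_insert.1 hB with rfl | hB
        · exact ⟨⟨t, htop⟩, h1, h2⟩
        · exact hP1 B hB
      · intro B hB B' hB' hne
        rcases mem_insert.1 hB with rfl | hB <;> rcases mem_insert.1 hB' with rfl | hB'
        · exact absurd rfl hne
        · exact hdis _ hB'
        · exact (hdis _ hB).symm
        · exact hP2 B hB B' hB' hne
      · intro v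
        constructor
        · intro hv
          by_cases hvt : v ∈ dsc p A t
          · exact ⟨_, mem_insert_self _ _, hvt⟩
          · obtain ⟨B, hB, hvB⟩ := (hP3 v).1 (mem_sdiff.2 ⟨hv, hvt⟩)
            exact ⟨B, mem_insert_of_mem hB, hvB⟩
        · rintro ⟨B, hB, hvB⟩
          rcases mem_insert.1 hB with rfl | hB
          · exact (mem_dsc.1 hvB).1
          · exact (mem_sdiff.1 ((hP3 v).2 ⟨B, hB, hvB⟩)).1
    -- removal of a whole component
    have remroot : ∀ r ∈ A, p r = r → (dsc p A r).card ≤ D * (K - 1) + 1 →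
        ∃ P : Finset (Finset V), (∀ B ∈ P, (∃ t, IsTop p B t) ∧ K ≤ B.card ∧
          B.card ≤ D * (K - 1) + 1) ∧ (∀ B ∈ P, ∀ B' ∈ P, B ≠ B' → Disjoint B B') ∧
          ∀ v, v ∈ A ↔ ∃ B ∈ P, v ∈ B := by
      intro r hr hpr h2
      refine rem r hr (hroot r hr hpr) h2 ?_
      intro r' hr' hpr' hnot
      have heq : dsc p (A \ dsc p A r) r' = dsc p A r' := by
        ext w
        rw [mem_dsc, mem_dsc, mem_sdiff, mem_dsc]
        constructor
        · rintro ⟨⟨h4, h5⟩, h6⟩
          exact ⟨h4, h6⟩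
        · rintro ⟨h4, h6⟩
          refine ⟨⟨h4, fun h5 => ?_⟩, h6⟩
          have := desc_root_unique hpr' hpr h6 h5.2
          subst this
          exact hnot (mem_dsc.2 ⟨hr, desc_self _⟩)
      rw [heq]
      exact hroot r' hr' hpr'
    -- the lowest vertex with many descendants
    obtain ⟨r0, hr0, hd0⟩ := exists_root hR w0
    have hr0A : r0 ∈ A := desc_mem hA hw0 hd0
    obtain ⟨v, hv, hmax⟩ := exists_max_image (A.filter fun v => K ≤ (dsc p A v).card) h
      ⟨r0, mem_filter.2 ⟨hr0A, hroot r0 hr0A hr0⟩⟩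
    obtain ⟨hvA, hvK⟩ := mem_filter.1 hv
    have hch : ∀ c ∈ chl p v, (dsc p A c).card ≤ K - 1 := by
      intro c hc
      obtain ⟨h1, h2⟩ := (mem_filter.1 hc).2
      by_contra hcon
      push Not at hcon
      have hcK : K ≤ (dsc p A c).card := by omega
      have hcA : c ∈ A := by
        have hpos : 0 < (dsc p A c).card := by omega
        obtain ⟨w, hw⟩ := card_pos.1 hpos
        exact desc_mem hA (mem_dsc.1 hw).1 (mem_dsc.1 hw).2
      have h3 := hmax c (mem_filter.2 ⟨hcA, hcK⟩)
      have h4 := hR.lt c (by rw [h1]; exact Ne.symm h2)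
      rw [h1] at h4
      omega
    have hcard := card_dsc hch
    obtain ⟨hc1, hc2⟩ := hD v
    by_cases hpv : p v = v
    · apply remroot v hvA hpv
      calc _ ≤ _ := hcard
        _ ≤ D * (K - 1) + 1 := by gcongr
    · obtain ⟨r, hr, hd⟩ := exists_root hR v
      have hrA : r ∈ A := desc_mem hA hvA hd
      have hc3 := hc2 hpv
      have hsub : dsc p A v ⊆ dsc p A r := by
        intro w hw
        obtain ⟨h1, h2⟩ := mem_dsc.1 hw
        exact mem_dsc.2 ⟨h1, desc_trans hd h2⟩
      by_cases hbig : K ≤ (dsc p A r \ dsc p A v).card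
      · apply rem v hvA hvK
        · calc _ ≤ _ := hcard
            _ ≤ D * (K - 1) + 1 := by gcongr
        · intro r' hr' hpr' hnot
          by_cases hrr : r' = r
          · subst hrr
            refine hbig.trans (card_le_card ?_)
            intro w hw
            obtain ⟨h1, h2⟩ := mem_sdiff.1 hw
            exact mem_dsc.2 ⟨mem_sdiff.2 ⟨(mem_dsc.1 h1).1, h2⟩, (mem_dsc.1 h1).2⟩
          · refine (hroot r' hr' hpr').trans (card_le_card ?_)
            intro w hw
            obtain ⟨h1, h2⟩ := mem_dsc.1 hw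
            refine mem_dsc.2 ⟨mem_sdiff.2 ⟨h1, fun h5 => hrr ?_⟩, h2⟩
            exact desc_root_unique hpr' hr h2 (desc_trans hd (mem_dsc.1 h5).2)
      · apply remroot r hrA hr
        have h1 : (dsc p A r).card = (dsc p A r \ dsc p A v).card + (dsc p A v).card :=
          (card_sdiff_add_card_eq_card hsub).symm
        have h2 : (chl p v).card * (K - 1) + 1 + (K - 1) ≤ D * (K - 1) + 1 := by
          have : ((chl p v).card + 1) * (K - 1) ≤ D * (K - 1) := by gcongr
          rw [add_mul, one_mul] at this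
          omega
        omega


end Pool.Agent.AMX
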